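import Pool.Agent.Lib.MP_6c3d62_pr.Mg.G054

/-! T2. One step: joining a strand into `x` with a strand out of `x`. -/

set_option autoImplicit false
set_option linter.unusedSectionVars false

open Finset

namespace Pool.Agent.PL

variable {Y : Type*} [Fintype Y] [DecidableEq Y]

/-- The step, entry by entry, without subtraction. -/
theorem t2_step_add {a : Net Y} {x p q : Y} (hp : 1 ≤ a p x) (hq : 1 ≤ a x q) (y z : Y) :
    step a x p q y z + (if y = p ∧ z = x then 1 else 0) + (if y = x ∧ z = q then 1 else 0)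
      = a y z + (if y = p ∧ z = q then 1 else 0) := by
  unfold step
  by_cases hpx : p = x
  · subst hpx
    rw [if_pos (Or.inl rfl)]
    by_cases h : y = p ∧ z = p
    · have h1 : 1 ≤ a y z := by rw [h.1, h.2]; exact hp
      rw [if_pos h, if_pos h]; omega
    · rw [if_neg h, if_neg h]; omega
  by_cases hqx : q = x
  · subst hqx
    rw [if_pos (Or.inr rfl)]
    by_cases h : y = q ∧ z = q
    · have h1 : 1 ≤ a y z := by rw [h.1, h.2]; exact hq
      rw [if_pos h, if_pos h]; omega
    · rw [if_neg h, if_neg h]; omega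
  rw [if_neg (not_or.mpr ⟨hpx, hqx⟩)]
  by_cases e1 : y = p ∧ z = x
  · have h1 : 1 ≤ a y z := by rw [e1.1, e1.2]; exact hp
    have n1 : ¬ (y = x ∧ z = q) := fun hh => hpx (e1.1.symm.trans hh.1)
    have n2 : ¬ (y = p ∧ z = q) := fun hh => hqx (hh.2.symm.trans e1.2)
    rw [if_pos e1, if_pos e1, if_neg n1, if_neg n2]
    omega
  rw [if_neg e1, if_neg e1]
  by_cases e2 : y = x ∧ z = q
  · have h1 : 1 ≤ a y z := by rw [e2.1, e2.2]; exact hq
    have n1 : ¬ (y = p ∧ z = q) := fun hh => hpx (hh.1.symm.trans e2.1)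
    rw [if_pos e2, if_pos e2, if_neg n1]
    omega
  rw [if_neg e2, if_neg e2]
  by_cases e3 : y = p ∧ z = q
  · rw [if_pos e3, if_pos e3]
  · rw [if_neg e3, if_neg e3]

theorem t2_step_cast {a : Net Y} {x p q : Y} (hp : 1 ≤ a p x) (hq : 1 ≤ a x q) (y z : Y) :
    (step a x p q y z : ℝ) = (a y z : ℝ) - (if y = p ∧ z = x then 1 else 0)
      - (if y = x ∧ z = q then 1 else 0) + (if y = p ∧ z = q then 1 else 0) := by
  have h := t2_step_add hp hq y z
  have h' : ((step a x p q y z + (if y = p ∧ z = x then 1 else 0)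
      + (if y = x ∧ z = q then 1 else 0) : ℕ) : ℝ)
      = ((a y z + (if y = p ∧ z = q then 1 else 0) : ℕ) : ℝ) := by rw [h]
  push_cast at h'
  linarith

theorem t2_sum_ind (u v : Y) (F : Y → Y → ℝ) :
    ∑ y, ∑ z, (if y = u ∧ z = v then (1 : ℝ) else 0) * F y z = F u v := by
  rw [Finset.sum_eq_single u]
  · rw [Finset.sum_eq_single v]
    · simp
    · intro z _ hz; simp [hz]
    · intro h; exact absurd (Finset.mem_univ _) h
  · intro y _ hy
    exact Finset.sum_eq_zero fun z _ => by simp [hy]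
  · intro h; exact absurd (Finset.mem_univ _) h

theorem t2_ne_left {a : Net Y} {x p : Y} (hx : a x x = 0) (hp : 1 ≤ a p x) : p ≠ x := by
  rintro rfl; omega

theorem t2_ne_right {a : Net Y} {x q : Y} (hx : a x x = 0) (hq : 1 ≤ a x q) : q ≠ x := by
  rintro rfl; omega

theorem bil_step {a : Net Y} {x p q : Y} (hp : 1 ≤ a p x) (hq : 1 ≤ a x q) (f g : Y → ℝ) :
    bil (step a x p q) f g
      = bil a f g + (f p - f x) * (g x - g q) + (g p - g x) * (f x - f q) := by
  have h : bil (step a x p q) f g = bil a f g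
      - ∑ y, ∑ z, (if y = p ∧ z = x then (1 : ℝ) else 0) * ((f y - f z) * (g y - g z))
      - ∑ y, ∑ z, (if y = x ∧ z = q then (1 : ℝ) else 0) * ((f y - f z) * (g y - g z))
      + ∑ y, ∑ z, (if y = p ∧ z = q then (1 : ℝ) else 0) * ((f y - f z) * (g y - g z)) := by
    unfold bil
    rw [← Finset.sum_sub_distrib, ← Finset.sum_sub_distrib, ← Finset.sum_add_distrib]
    refine Finset.sum_congr rfl fun y _ => ?_
    rw [← Finset.sum_sub_distrib, ← Finset.sum_sub_distrib, ← Finset.sum_add_distrib]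
    refine Finset.sum_congr rfl fun z _ => ?_
    rw [t2_step_cast hp hq y z]
    ring
  rw [h, t2_sum_ind, t2_sum_ind, t2_sum_ind]
  ring

theorem step_loop {a : Net Y} {x p q : Y} (hx : a x x = 0) (hp : 1 ≤ a p x) (hq : 1 ≤ a x q) :
    step a x p q x x = 0 := by
  have h := t2_step_add hp hq x x
  have h1 : ¬ (x = p ∧ x = q) := fun hh => t2_ne_left hx hp hh.1.symm
  rw [hx, if_neg h1] at h
  omega

theorem ind_step_self {a : Net Y} {x p q : Y} (hp : 1 ≤ a p x) (hq : 1 ≤ a x q) :
    ind (step a x p q) x = ind a x - 1 := by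
  have h : ∑ z, (step a x p q z x + (if z = p ∧ x = x then 1 else 0)
      + (if z = x ∧ x = q then 1 else 0)) = ∑ z, (a z x + (if z = p ∧ x = q then 1 else 0)) :=
    Finset.sum_congr rfl fun z _ => t2_step_add hp hq z x
  rw [Finset.sum_add_distrib, Finset.sum_add_distrib, Finset.sum_add_distrib] at h
  unfold ind
  have h1 : ∑ z, (if z = p ∧ x = x then 1 else 0) = (1 : ℕ) := by simp
  have h2 : ∑ z, (if z = x ∧ x = q then 1 else 0) = ∑ z, (if z = p ∧ x = q then 1 else 0 : ℕ) := by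
    by_cases hxq : x = q <;> simp [hxq]
  rw [h1, h2] at h
  omega

theorem outd_step_self {a : Net Y} {x p q : Y} (hp : 1 ≤ a p x) (hq : 1 ≤ a x q) :
    outd (step a x p q) x = outd a x - 1 := by
  have h : ∑ z, (step a x p q x z + (if x = p ∧ z = x then 1 else 0)
      + (if x = x ∧ z = q then 1 else 0)) = ∑ z, (a x z + (if x = p ∧ z = q then 1 else 0)) :=
    Finset.sum_congr rfl fun z _ => t2_step_add hp hq x z
  rw [Finset.sum_add_distrib, Finset.sum_add_distrib, Finset.sum_add_distrib] at h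
  unfold outd
  have h1 : ∑ z, (if x = x ∧ z = q then 1 else 0) = (1 : ℕ) := by simp
  have h2 : ∑ z, (if x = p ∧ z = x then 1 else 0) = ∑ z, (if x = p ∧ z = q then 1 else 0 : ℕ) := by
    by_cases hxq : x = p <;> simp [hxq]
  rw [h1, h2] at h
  omega

theorem ind_step {a : Net Y} {x p q y : Y} (hp : 1 ≤ a p x) (hq : 1 ≤ a x q) (hy : y ≠ x) :
    ind (step a x p q) y = ind a y := by
  have h : ∑ z, (step a x p q z y + (if z = p ∧ y = x then 1 else 0)
      + (if z = x ∧ y = q then 1 else 0)) = ∑ z, (a z y + (if z = p ∧ y = q then 1 else 0)) :=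
    Finset.sum_congr rfl fun z _ => t2_step_add hp hq z y
  rw [Finset.sum_add_distrib, Finset.sum_add_distrib, Finset.sum_add_distrib] at h
  unfold ind
  have h1 : ∑ z, (if z = p ∧ y = x then 1 else 0) = (0 : ℕ) := by simp [hy]
  have h2 : ∑ z, (if z = x ∧ y = q then 1 else 0) = ∑ z, (if z = p ∧ y = q then 1 else 0 : ℕ) := by
    by_cases hxq : y = q <;> simp [hxq]
  rw [h1, h2] at h
  omega

theorem outd_step {a : Net Y} {x p q y : Y} (hp : 1 ≤ a p x) (hq : 1 ≤ a x q) (hy : y ≠ x) :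
    outd (step a x p q) y = outd a y := by
  have h : ∑ z, (step a x p q y z + (if y = p ∧ z = x then 1 else 0)
      + (if y = x ∧ z = q then 1 else 0)) = ∑ z, (a y z + (if y = p ∧ z = q then 1 else 0)) :=
    Finset.sum_congr rfl fun z _ => t2_step_add hp hq y z
  rw [Finset.sum_add_distrib, Finset.sum_add_distrib, Finset.sum_add_distrib] at h
  unfold outd
  have h1 : ∑ z, (if y = x ∧ z = q then 1 else 0) = (0 : ℕ) := by simp [hy]
  have h2 : ∑ z, (if y = p ∧ z = x then 1 else 0) = ∑ z, (if y = p ∧ z = q then 1 else 0 : ℕ) := by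
    by_cases hxq : y = p <;> simp [hxq]
  rw [h1, h2] at h
  omega

theorem step_off {a : Net Y} {A : Finset Y} {x p q : Y} (hp : 1 ≤ a p x) (hq : 1 ≤ a x q)
    (h : ∀ y z, y ∉ A ∨ z ∉ A → a y z = 0) : ∀ y z, y ∉ A ∨ z ∉ A → step a x p q y z = 0 := by
  intro y z hyz
  have hpA : p ∈ A := by
    by_contra hc; have := h p x (Or.inl hc); omega
  have hqA : q ∈ A := by
    by_contra hc; have := h x q (Or.inr hc); omega
  have h1 := t2_step_add hp hq y z
  have h2 : ¬ (y = p ∧ z = q) := by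
    rintro ⟨rfl, rfl⟩
    rcases hyz with hh | hh
    · exact hh hpA
    · exact hh hqA
  rw [h y z hyz, if_neg h2] at h1
  omega

/-- Energy at `x` after the step, of the OLD function. -/
theorem ex_step {a : Net Y} {x p q : Y} (hx : a x x = 0) (hp : 1 ≤ a p x) (hq : 1 ≤ a x q)
    (g : Y → ℝ) :
    ex (step a x p q) x g = ex a x g - (g p - g x) ^ 2 - (g q - g x) ^ 2 := by
  have hpx := t2_ne_left hx hp
  have hqx := t2_ne_right hx hq
  unfold ex
  have h1 : ∑ u, (step a x p q u x : ℝ) * (g u - g x) ^ 2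
      = ∑ u, (a u x : ℝ) * (g u - g x) ^ 2 - (g p - g x) ^ 2 := by
    have h : ∀ u, (step a x p q u x : ℝ) * (g u - g x) ^ 2
        = (a u x : ℝ) * (g u - g x) ^ 2 - (if u = p then (g u - g x) ^ 2 else 0) := by
      intro u
      rw [t2_step_cast hp hq u x]
      have e1 : ¬ (u = x ∧ x = q) := fun hh => hqx hh.2.symm
      have e2 : ¬ (u = p ∧ x = q) := fun hh => hqx hh.2.symm
      rw [if_neg e1, if_neg e2]
      by_cases hu : u = p
      · simp [hu]; ring
      · simp [hu]
    rw [Finset.sum_congr rfl fun u _ => h u, Finset.sum_sub_distrib]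
    simp
  have h2 : ∑ u, (step a x p q x u : ℝ) * (g u - g x) ^ 2
      = ∑ u, (a x u : ℝ) * (g u - g x) ^ 2 - (g q - g x) ^ 2 := by
    have h : ∀ u, (step a x p q x u : ℝ) * (g u - g x) ^ 2
        = (a x u : ℝ) * (g u - g x) ^ 2 - (if u = q then (g u - g x) ^ 2 else 0) := by
      intro u
      rw [t2_step_cast hp hq x u]
      have e1 : ¬ (x = p ∧ u = x) := fun hh => hpx hh.1.symm
      have e2 : ¬ (x = p ∧ u = q) := fun hh => hpx hh.1.symm
      rw [if_neg e1, if_neg e2]
      by_cases hu : u = q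
      · simp [hu]; ring
      · simp [hu]
    rw [Finset.sum_congr rfl fun u _ => h u, Finset.sum_sub_distrib]
    simp
  rw [h1, h2]
  ring

theorem t2_le_step {a : Net Y} {x p q : Y} (hp : 1 ≤ a p x) (hq : 1 ≤ a x q) {u v : Y}
    (hu : u ≠ x) (hv : v ≠ x) : a u v ≤ step a x p q u v := by
  have h := t2_step_add hp hq u v
  have e1 : ¬ (u = p ∧ v = x) := fun hh => hv hh.2
  have e2 : ¬ (u = x ∧ v = q) := fun hh => hu hh.1
  rw [if_neg e1, if_neg e2] at h
  omega

theorem del_le_step {a : Net Y} {x p q : Y} (hp : 1 ≤ a p x) (hq : 1 ≤ a x q) (u v : Y) :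
    del a x u v ≤ step a x p q u v := by
  unfold del
  by_cases h : u = x ∨ v = x
  · rw [if_pos h]; exact Nat.zero_le _
  · rw [if_neg h]
    push Not at h
    exact t2_le_step hp hq h.1 h.2

theorem del_step_le {a : Net Y} {x p q : Y} (hp : 1 ≤ a p x) (hq : 1 ≤ a x q) (u v : Y) :
    del a x u v ≤ del (step a x p q) x u v := by
  unfold del
  by_cases h : u = x ∨ v = x
  · rw [if_pos h, if_pos h]
  · rw [if_neg h, if_neg h]
    push Not at h
    exact t2_le_step hp hq h.1 h.2

/-- `(1 - 2r)` times the old energy is at most the new energy. -/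
theorem en_step_ge {a : Net Y} {x p q : Y} {r : ℝ} (hr : 0 ≤ r) (hp : 1 ≤ a p x) (hq : 1 ≤ a x q)
    (h1 : ResLe a r p x) (h2 : ResLe a r q x) (f : Y → ℝ) :
    (1 - 2 * r) * en a f ≤ en (step a x p q) f := by
  have h : en (step a x p q) f = en a f + 2 * ((f p - f x) * (f x - f q)) := by
    unfold en
    rw [bil_step hp hq]; ring
  rw [h]
  have e1 := h1 f
  have e2 := h2 f
  nlinarith [sq_nonneg ((f p - f x) - (f q - f x)), e1, e2]

theorem resLe_step {a : Net Y} {x p q y z : Y} {r s : ℝ} (hr : 0 ≤ r) (hr1 : 2 * r < 1) (hs : 0 ≤ s)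
    (hp : 1 ≤ a p x) (hq : 1 ≤ a x q) (h1 : ResLe a r p x) (h2 : ResLe a r q x)
    (h : ResLe a s y z) : ResLe (step a x p q) (s / (1 - 2 * r)) y z := by
  intro f
  have hpos : 0 < 1 - 2 * r := by linarith
  have e := en_step_ge hr hp hq h1 h2 f
  have e2 : s * en a f ≤ s / (1 - 2 * r) * en (step a x p q) f := by
    rw [div_mul_eq_mul_div, le_div_iff₀ hpos]
    calc s * en a f * (1 - 2 * r) = s * ((1 - 2 * r) * en a f) := by ring
      _ ≤ s * en (step a x p q) f := mul_le_mul_of_nonneg_left e hs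
  exact (h f).trans e2

/-! Energy at a node. -/

theorem ex_nonneg (a : Net Y) (x : Y) (g : Y → ℝ) : 0 ≤ ex a x g := by
  unfold ex
  refine add_nonneg (Finset.sum_nonneg fun p _ => ?_) (Finset.sum_nonneg fun p _ => ?_)
  · exact mul_nonneg (Nat.cast_nonneg _) (sq_nonneg _)
  · exact mul_nonneg (Nat.cast_nonneg _) (sq_nonneg _)

theorem ex_le_en (a : Net Y) (x : Y) (g : Y → ℝ) : ex a x g ≤ en a g := by
  unfold ex en bil
  have h : ∀ y, (a y x : ℝ) * (g y - g x) ^ 2
      + (if y = x then ∑ z, (a x z : ℝ) * (g z - g x) ^ 2 else 0)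
      ≤ ∑ z, (a y z : ℝ) * ((g y - g z) * (g y - g z)) := by
    intro y
    by_cases hy : y = x
    · subst hy
      rw [if_pos rfl]
      have e : ∑ z, (a y z : ℝ) * (g z - g y) ^ 2 = ∑ z, (a y z : ℝ) * ((g y - g z) * (g y - g z)) :=
        Finset.sum_congr rfl fun z _ => by ring
      rw [e]
      simp
    · rw [if_neg hy, add_zero]
      have e := Finset.single_le_sum (f := fun z => (a y z : ℝ) * ((g y - g z) * (g y - g z)))
        (fun z _ => mul_nonneg (Nat.cast_nonneg _) (mul_self_nonneg _)) (Finset.mem_univ x)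
      refine le_trans (le_of_eq ?_) e
      ring
  have h2 := Finset.sum_le_sum fun y (_ : y ∈ Finset.univ) => h y
  rw [Finset.sum_add_distrib] at h2
  simpa using h2

theorem sum_ex (a : Net Y) (g : Y → ℝ) : ∑ x, ex a x g = 2 * en a g := by
  unfold ex en bil
  rw [Finset.sum_add_distrib]
  have h1 : ∑ x, ∑ p, (a p x : ℝ) * (g p - g x) ^ 2
      = ∑ y, ∑ z, (a y z : ℝ) * ((g y - g z) * (g y - g z)) := by
    rw [Finset.sum_comm]
    exact Finset.sum_congr rfl fun y _ => Finset.sum_congr rfl fun z _ => by ring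
  have h2 : ∑ x, ∑ q, (a x q : ℝ) * (g q - g x) ^ 2
      = ∑ y, ∑ z, (a y z : ℝ) * ((g y - g z) * (g y - g z)) :=
    Finset.sum_congr rfl fun y _ => Finset.sum_congr rfl fun z _ => by ring
  rw [h1, h2]; ring

/-- Kirchhoff's law at a node other than `y`, `z`. -/
theorem kirchhoff {a : Net Y} {x y z : Y} {g : Y → ℝ} (h : IsPot a y z g) (hy : x ≠ y)
    (hz : x ≠ z) :
    ∑ p, (a p x : ℝ) * (g p - g x) + ∑ q, (a x q : ℝ) * (g q - g x) = 0 := by
  have h1 := h (fun u => if u = x then 1 else 0)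
  rw [if_neg (Ne.symm hy), if_neg (Ne.symm hz), sub_zero] at h1
  have h2 : bil a g (fun u => if u = x then 1 else 0)
      = ∑ u, (if u = x then ∑ v, (a u v : ℝ) * (g u - g v) else 0)
        - ∑ u, ∑ v, (if v = x then (a u v : ℝ) * (g u - g v) else 0) := by
    unfold bil
    rw [← Finset.sum_sub_distrib]
    refine Finset.sum_congr rfl fun u _ => ?_
    by_cases hu : u = x
    · rw [if_pos hu, ← Finset.sum_sub_distrib]
      refine Finset.sum_congr rfl fun v _ => ?_
      beta_reduce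
      rw [if_pos hu]
      by_cases hv : v = x
      · rw [if_pos hv, if_pos hv]; ring
      · rw [if_neg hv, if_neg hv]; ring
    · rw [if_neg hu, zero_sub, ← Finset.sum_neg_distrib]
      refine Finset.sum_congr rfl fun v _ => ?_
      beta_reduce
      rw [if_neg hu]
      by_cases hv : v = x
      · rw [if_pos hv, if_pos hv]; ring
      · rw [if_neg hv, if_neg hv]; ring
  rw [h2] at h1
  have h3 : ∑ u, (if u = x then ∑ v, (a u v : ℝ) * (g u - g v) else 0)
      = ∑ v, (a x v : ℝ) * (g x - g v) := by simp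
  have h4 : ∑ u, ∑ v, (if v = x then (a u v : ℝ) * (g u - g v) else 0)
      = ∑ u, (a u x : ℝ) * (g u - g x) := by simp
  have h5 : ∑ v, (a x v : ℝ) * (g x - g v) = - ∑ v, (a x v : ℝ) * (g v - g x) := by
    rw [← Finset.sum_neg_distrib]
    exact Finset.sum_congr rfl fun v _ => by ring
  rw [h3, h4, h5] at h1
  linarith

/-- Resistance between `x` and a neighbour: `1/m + 2s`. -/
theorem resLe_nbr {a : Net Y} {x p : Y} {m : ℕ} {s : ℝ} (hm : 1 ≤ m) (hs0 : 0 ≤ s)
    (hin : ind a x = m) (hout : outd a x = m) (hx : a x x = 0) (hpx : p ≠ x)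
    (hs : ∀ u, u ≠ x → 1 ≤ a u x + a x u → ResLe a s p u) : ResLe a (1 / m + 2 * s) p x := by
  intro f
  have hm0 : (0 : ℝ) < m := by exact_mod_cast hm
  have hE := en_nonneg a f
  -- one strand
  have h1 : ∀ u, ((a u x : ℝ) + a x u) * (f p - f x) ^ 2
      ≤ ((a u x : ℝ) + a x u) * (2 * s * en a f) + 2 * (((a u x : ℝ) + a x u) * (f u - f x) ^ 2) := by
    intro u
    by_cases hux : u = x
    · subst hux; rw [hx]; simp
    by_cases h0 : 1 ≤ a u x + a x u
    · have e := hs u hux h0 f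
      have hc : (0 : ℝ) ≤ (a u x : ℝ) + a x u := by positivity
      have e2 : (f p - f x) ^ 2 ≤ 2 * s * en a f + 2 * (f u - f x) ^ 2 := by
        nlinarith [sq_nonneg ((f p - f u) - (f u - f x))]
      calc ((a u x : ℝ) + a x u) * (f p - f x) ^ 2
          ≤ ((a u x : ℝ) + a x u) * (2 * s * en a f + 2 * (f u - f x) ^ 2) :=
            mul_le_mul_of_nonneg_left e2 hc
        _ = _ := by ring
    · have e1 : a u x = 0 := by omega
      have e2 : a x u = 0 := by omega
      rw [e1, e2]; simp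
  have h2 := Finset.sum_le_sum fun u (_ : u ∈ Finset.univ) => h1 u
  have h2' : (∑ u, ((a u x : ℝ) + a x u)) * (f p - f x) ^ 2
      ≤ (∑ u, ((a u x : ℝ) + a x u)) * (2 * s * en a f)
        + 2 * ∑ u, ((a u x : ℝ) + a x u) * (f u - f x) ^ 2 := by
    rw [Finset.sum_mul, Finset.sum_mul, Finset.mul_sum, ← Finset.sum_add_distrib]
    exact h2
  have h3 : ∑ u, ((a u x : ℝ) + a x u) = 2 * m := by
    rw [Finset.sum_add_distrib]
    have e1 : ∑ u, (a u x : ℝ) = m := by
      rw [← hin]; unfold ind; push_cast; rfl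
    have e2 : ∑ u, (a x u : ℝ) = m := by
      rw [← hout]; unfold outd; push_cast; rfl
    rw [e1, e2]; ring
  have h4 : ∑ u, ((a u x : ℝ) + a x u) * (f u - f x) ^ 2 = ex a x f := by
    unfold ex
    rw [← Finset.sum_add_distrib]
    exact Finset.sum_congr rfl fun u _ => by ring
  rw [h3, h4] at h2'
  have h5 := ex_le_en a x f
  have h6 : 2 * (m : ℝ) * (f p - f x) ^ 2 ≤ 2 * (m : ℝ) * ((1 / m + 2 * s) * en a f) := by
    have e : 2 * (m : ℝ) * ((1 / m + 2 * s) * en a f) = 2 * m * (2 * s * en a f) + 2 * en a f := by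
      field_simp
      ring
    rw [e]
    linarith
  exact le_of_mul_le_mul_left h6 (by positivity)

end Pool.Agent.PL
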