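import Pool.Agent.Lib.MP_6c3d62_pr.PL.Pot
import Pool.Agent.Lib.MP_6c3d62_pr.PL.Step

/-! T4. Averages over a uniform pair (strand in, strand out) at `x`. -/

set_option autoImplicit false
set_option linter.unusedSectionVars false

open Finset

namespace Pool.Agent.PL

variable {Y : Type*} [Fintype Y] [DecidableEq Y]

theorem t4_fac (a : Net Y) (x : Y) (m : ℕ) (F G : Y → ℝ) :
    av a x m (fun p q => F p * G q)
      = (∑ p, (a p x : ℝ) * F p) * (∑ q, (a x q : ℝ) * G q) / (m : ℝ) ^ 2 := by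
  unfold av
  congr 1
  rw [Finset.sum_mul_sum]
  exact Finset.sum_congr rfl fun p _ => Finset.sum_congr rfl fun q _ => by ring

theorem t4_in {a : Net Y} {x : Y} {m : ℕ} (hin : ind a x = m) :
    (∑ p, (a p x : ℝ)) = m := by
  rw [← hin]; unfold ind; push_cast; rfl

theorem t4_out {a : Net Y} {x : Y} {m : ℕ} (hout : outd a x = m) :
    (∑ q, (a x q : ℝ)) = m := by
  rw [← hout]; unfold outd; push_cast; rfl

theorem av_mono {a : Net Y} {x : Y} {m : ℕ} {F G : Y → Y → ℝ}
    (h : ∀ p q, 1 ≤ a p x → 1 ≤ a x q → F p q ≤ G p q) : av a x m F ≤ av a x m G := by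
  unfold av
  have hm : (0 : ℝ) ≤ (m : ℝ) ^ 2 := by positivity
  refine div_le_div_of_nonneg_right ?_ hm
  refine Finset.sum_le_sum fun p _ => Finset.sum_le_sum fun q _ => ?_
  rcases Nat.eq_zero_or_pos (a p x) with h1 | h1
  · simp [h1]
  rcases Nat.eq_zero_or_pos (a x q) with h2 | h2
  · simp [h2]
  exact mul_le_mul_of_nonneg_left (h p q h1 h2) (by positivity)

theorem av_congr {a : Net Y} {x : Y} {m : ℕ} {F G : Y → Y → ℝ}
    (h : ∀ p q, 1 ≤ a p x → 1 ≤ a x q → F p q = G p q) : av a x m F = av a x m G := by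
  exact le_antisymm (av_mono fun p q h1 h2 => (h p q h1 h2).le)
    (av_mono fun p q h1 h2 => (h p q h1 h2).ge)

theorem av_nonneg {a : Net Y} {x : Y} {m : ℕ} {F : Y → Y → ℝ}
    (h : ∀ p q, 1 ≤ a p x → 1 ≤ a x q → 0 ≤ F p q) : 0 ≤ av a x m F := by
  have h0 : av a x m (fun _ _ => (0 : ℝ)) = 0 := by
    unfold av; simp
  rw [← h0]
  exact av_mono h

theorem av_add (a : Net Y) (x : Y) (m : ℕ) (F G : Y → Y → ℝ) :
    av a x m (fun p q => F p q + G p q) = av a x m F + av a x m G := by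
  unfold av
  rw [← add_div, ← Finset.sum_add_distrib]
  congr 1
  refine Finset.sum_congr rfl fun p _ => ?_
  rw [← Finset.sum_add_distrib]
  exact Finset.sum_congr rfl fun q _ => by ring

theorem av_mul (a : Net Y) (x : Y) (m : ℕ) (c : ℝ) (F : Y → Y → ℝ) :
    av a x m (fun p q => c * F p q) = c * av a x m F := by
  unfold av
  rw [← mul_div_assoc, Finset.mul_sum]
  congr 1
  refine Finset.sum_congr rfl fun p _ => ?_
  rw [Finset.mul_sum]
  exact Finset.sum_congr rfl fun q _ => by ring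

theorem av_sum {ι : Type*} (a : Net Y) (x : Y) (m : ℕ) (s : Finset ι) (F : ι → Y → Y → ℝ) :
    av a x m (fun p q => ∑ i ∈ s, F i p q) = ∑ i ∈ s, av a x m (F i) := by
  classical
  induction s using Finset.induction_on with
  | empty => simp only [Finset.sum_empty]; unfold av; simp
  | insert i s hi ih =>
    simp only [Finset.sum_insert hi]
    rw [av_add a x m (F i) (fun p q => ∑ j ∈ s, F j p q), ih]

theorem av_const {a : Net Y} {x : Y} {m : ℕ} (hm : 1 ≤ m) (hin : ind a x = m)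
    (hout : outd a x = m) (c : ℝ) : av a x m (fun _ _ => c) = c := by
  have h1 := t4_fac a x m (fun _ => c) (fun _ => 1)
  simp only [mul_one, ← Finset.sum_mul] at h1
  rw [t4_in hin, t4_out hout] at h1
  rw [h1]
  have hm0 : (m : ℝ) ≠ 0 := by positivity
  field_simp

/-- `(av F)^2 ≤ av F^2`. -/
theorem av_sq_le {a : Net Y} {x : Y} {m : ℕ} (hm : 1 ≤ m) (hin : ind a x = m)
    (hout : outd a x = m) (F : Y → Y → ℝ) :
    av a x m F ^ 2 ≤ av a x m (fun p q => F p q ^ 2) := by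
  set c := av a x m F with hc
  have h1 : 0 ≤ av a x m (fun p q => (F p q - c) ^ 2) := av_nonneg fun p q _ _ => sq_nonneg _
  have h2 : av a x m (fun p q => (F p q - c) ^ 2)
      = av a x m (fun p q => F p q ^ 2) + (-(2 * c)) * av a x m F
        + av a x m (fun _ _ => c ^ 2) := by
    rw [← av_mul, ← av_add, ← av_add]
    exact av_congr fun p q _ _ => by ring
  rw [h2, av_const hm hin hout, ← hc] at h1
  nlinarith

/-- Kirchhoff: the mean of `ab` is `-(S/m)^2 ≤ 0`. -/
theorem av_ab {a : Net Y} {x y z : Y} {m : ℕ} {g : Y → ℝ} (hg : IsPot a y z g) (hy : x ≠ y)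
    (hz : x ≠ z) : av a x m (fun p q => (g p - g x) * (g q - g x)) ≤ 0 := by
  rw [t4_fac a x m (fun p => g p - g x) (fun q => g q - g x)]
  have h := kirchhoff hg hy hz
  have h1 : (∑ q, (a x q : ℝ) * (g q - g x)) = -∑ p, (a p x : ℝ) * (g p - g x) := by linarith
  rw [h1]
  refine div_nonpos_of_nonpos_of_nonneg ?_ (by positivity)
  nlinarith [sq_nonneg (∑ p, (a p x : ℝ) * (g p - g x))]

theorem av_sqs {a : Net Y} {x : Y} {m : ℕ} (hm : 1 ≤ m) (hin : ind a x = m)
    (hout : outd a x = m) (g : Y → ℝ) :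
    av a x m (fun p q => (g p - g x) ^ 2 + (g q - g x) ^ 2) = ex a x g / m := by
  have hm0 : (m : ℝ) ≠ 0 := by positivity
  rw [av_add a x m (fun p _ => (g p - g x) ^ 2) (fun _ q => (g q - g x) ^ 2)]
  have h1 := t4_fac a x m (fun p => (g p - g x) ^ 2) (fun _ => 1)
  have h2 := t4_fac a x m (fun _ => 1) (fun q => (g q - g x) ^ 2)
  simp only [mul_one, one_mul] at h1 h2
  rw [t4_out hout] at h1
  rw [t4_in hin] at h2
  rw [h1, h2]
  unfold ex
  field_simp

theorem av_abs {a : Net Y} {x : Y} {m : ℕ} (hm : 1 ≤ m) (hin : ind a x = m)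
    (hout : outd a x = m) (g : Y → ℝ) :
    av a x m (fun p q => |g p - g x| + |g q - g x|) ≤ Real.sqrt (2 * (ex a x g / m)) := by
  have h0 : 0 ≤ av a x m (fun p q => |g p - g x| + |g q - g x|) :=
    av_nonneg fun p q _ _ => by positivity
  refine Real.le_sqrt_of_sq_le ?_
  refine (av_sq_le hm hin hout _).trans ?_
  rw [← av_sqs hm hin hout, ← av_mul]
  refine av_mono fun p q _ _ => ?_
  have h1 := sq_abs (g p - g x)
  have h2 := sq_abs (g q - g x)
  nlinarith [sq_nonneg (|g p - g x| - |g q - g x|)]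

theorem av_abs_sq {a : Net Y} {x : Y} {m : ℕ} (hm : 1 ≤ m) (hin : ind a x = m)
    (hout : outd a x = m) (g : Y → ℝ) :
    av a x m (fun p q => (|g p - g x| + |g q - g x|) ^ 2) ≤ 2 * (ex a x g / m) := by
  rw [← av_sqs hm hin hout, ← av_mul]
  refine av_mono fun p q _ _ => ?_
  have h1 := sq_abs (g p - g x)
  have h2 := sq_abs (g q - g x)
  nlinarith [sq_nonneg (|g p - g x| - |g q - g x|)]

theorem av_prod {a : Net Y} {x : Y} {m : ℕ} (hm : 1 ≤ m) (hin : ind a x = m)
    (hout : outd a x = m) (g : Y → ℝ) :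
    av a x m (fun p q => ((g p - g x) * (g q - g x)) ^ 2) ≤ (ex a x g / m) ^ 2 := by
  have hm0 : (0 : ℝ) < (m : ℝ) ^ 2 := by positivity
  have h0 : av a x m (fun p q => ((g p - g x) * (g q - g x)) ^ 2)
      = av a x m (fun p q => (g p - g x) ^ 2 * (g q - g x) ^ 2) :=
    av_congr fun p q _ _ => by ring
  rw [h0, t4_fac a x m (fun p => (g p - g x) ^ 2) (fun q => (g q - g x) ^ 2), div_pow]
  refine div_le_div_of_nonneg_right ?_ hm0.le
  have h1 : 0 ≤ ∑ p, (a p x : ℝ) * (g p - g x) ^ 2 :=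
    Finset.sum_nonneg fun p _ => by positivity
  have h2 : 0 ≤ ∑ q, (a x q : ℝ) * (g q - g x) ^ 2 :=
    Finset.sum_nonneg fun q _ => by positivity
  unfold ex
  nlinarith

/-- For a pair of existing strands `a² + b² ≤` energy at `x` (no loop at `x`). -/
theorem sqs_le_ex {a : Net Y} {x p q : Y} (hx : a x x = 0) (hp : 1 ≤ a p x) (hq : 1 ≤ a x q)
    (g : Y → ℝ) : (g p - g x) ^ 2 + (g q - g x) ^ 2 ≤ ex a x g := by
  unfold ex
  have h1 : (g p - g x) ^ 2 ≤ ∑ p, (a p x : ℝ) * (g p - g x) ^ 2 := by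
    refine le_trans ?_ (Finset.single_le_sum (f := fun p => (a p x : ℝ) * (g p - g x) ^ 2)
      (fun p _ => by positivity) (Finset.mem_univ p))
    have h3 : (1 : ℝ) ≤ (a p x : ℝ) := by exact_mod_cast hp
    nlinarith [sq_nonneg (g p - g x)]
  have h2 : (g q - g x) ^ 2 ≤ ∑ q, (a x q : ℝ) * (g q - g x) ^ 2 := by
    refine le_trans ?_ (Finset.single_le_sum (f := fun q => (a x q : ℝ) * (g q - g x) ^ 2)
      (fun q _ => by positivity) (Finset.mem_univ q))
    have h3 : (1 : ℝ) ≤ (a x q : ℝ) := by exact_mod_cast hq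
    nlinarith [sq_nonneg (g q - g x)]
  exact add_le_add h1 h2

end Pool.Agent.PL
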