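import Pool.Agent.Lib.MP_6c3d62_pr.PL.Pot
import Pool.Agent.Lib.MP_6c3d62_pr.PL.Step

/-! T5. Deleting the node `x` with its last `m` strands. -/

set_option autoImplicit false
set_option linter.unusedSectionVars false

open Finset

namespace Pool.Agent.PL

variable {Y : Type*} [Fintype Y] [DecidableEq Y]

/-- The polarised energy at `x`. -/
private noncomputable def t5X (a : Net Y) (x : Y) (g k : Y → ℝ) : ℝ :=
  ∑ p, (a p x : ℝ) * ((g p - g x) * (k p - k x)) + ∑ q, (a x q : ℝ) * ((g q - g x) * (k q - k x))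

private theorem t5X_self (a : Net Y) (x : Y) (g : Y → ℝ) : t5X a x g g = ex a x g := by
  unfold t5X ex
  congr 1 <;> exact Finset.sum_congr rfl fun p _ => by ring

private theorem t5_bil_del (a : Net Y) (x : Y) (f k : Y → ℝ) :
    bil (del a x) f k = bil a f k - t5X a x f k := by
  have h1 : ∀ y z, ((del a x y z : ℕ) : ℝ) * ((f y - f z) * (k y - k z)) =
      (a y z : ℝ) * ((f y - f z) * (k y - k z)) -
        (if y = x then (a x z : ℝ) * ((f z - f x) * (k z - k x)) else 0) -
        (if z = x then (a y x : ℝ) * ((f y - f x) * (k y - k x)) else 0) := by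
    intro y z
    unfold del
    by_cases hy : y = x <;> by_cases hz : z = x
    · subst hy; subst hz; simp
    · subst hy; simp [hz]; ring
    · subst hz; simp [hy]
    · simp [hy, hz]
  unfold bil
  simp_rw [h1, Finset.sum_sub_distrib]
  have h2 : ∑ y, ∑ z, (if y = x then (a x z : ℝ) * ((f z - f x) * (k z - k x)) else 0) =
      ∑ z, (a x z : ℝ) * ((f z - f x) * (k z - k x)) := by
    rw [Finset.sum_eq_single x]
    · simp
    · intro y _ hy; simp [hy]
    · intro h; exact absurd (Finset.mem_univ _) h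
  have h3 : ∑ y, ∑ z, (if z = x then (a y x : ℝ) * ((f y - f x) * (k y - k x)) else 0) =
      ∑ y, (a y x : ℝ) * ((f y - f x) * (k y - k x)) := by
    refine Finset.sum_congr rfl fun y _ => ?_
    rw [Finset.sum_ite_eq' Finset.univ x]
    simp
  rw [h2, h3]
  unfold t5X
  ring

theorem en_del (a : Net Y) (x : Y) (f : Y → ℝ) : en (del a x) f = en a f - ex a x f := by
  unfold en
  rw [t5_bil_del, t5X_self]

private theorem t5_ex_nonneg (a : Net Y) (x : Y) (f : Y → ℝ) : 0 ≤ ex a x f := by
  unfold ex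
  exact add_nonneg (Finset.sum_nonneg fun p _ => mul_nonneg (Nat.cast_nonneg _) (sq_nonneg _))
    (Finset.sum_nonneg fun p _ => mul_nonneg (Nat.cast_nonneg _) (sq_nonneg _))

/-- Weighted Cauchy-Schwarz for the two sums. -/
private theorem t5_cs (a : Net Y) (x : Y) (g : Y → ℝ) (w : Y → ℝ) :
    (∑ p, (a p x : ℝ) * ((g p - g x) * w p) + ∑ q, (a x q : ℝ) * ((g q - g x) * w q)) ^ 2 ≤
      ex a x g * (∑ p, (a p x : ℝ) * w p ^ 2 + ∑ q, (a x q : ℝ) * w q ^ 2) := by
  have key : ∀ c : ℝ, 0 ≤ ex a x g * c ^ 2 +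
      2 * (∑ p, (a p x : ℝ) * ((g p - g x) * w p) + ∑ q, (a x q : ℝ) * ((g q - g x) * w q)) * c +
      (∑ p, (a p x : ℝ) * w p ^ 2 + ∑ q, (a x q : ℝ) * w q ^ 2) := by
    intro c
    have h : ex a x g * c ^ 2 +
      2 * (∑ p, (a p x : ℝ) * ((g p - g x) * w p) + ∑ q, (a x q : ℝ) * ((g q - g x) * w q)) * c +
      (∑ p, (a p x : ℝ) * w p ^ 2 + ∑ q, (a x q : ℝ) * w q ^ 2) =
      ∑ p, (a p x : ℝ) * (c * (g p - g x) + w p) ^ 2 +
        ∑ q, (a x q : ℝ) * (c * (g q - g x) + w q) ^ 2 := by
      have e1 : ∀ b : Y → ℝ, ∑ p, b p * (c * (g p - g x) + w p) ^ 2 =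
          (∑ p, b p * (g p - g x) ^ 2) * c ^ 2 + 2 * (∑ p, b p * ((g p - g x) * w p)) * c +
            ∑ p, b p * w p ^ 2 := by
        intro b
        rw [Finset.sum_mul, Finset.mul_sum, Finset.sum_mul, ← Finset.sum_add_distrib,
          ← Finset.sum_add_distrib]
        exact Finset.sum_congr rfl fun p _ => by ring
      rw [e1, e1]
      unfold ex
      ring
    rw [h]
    exact add_nonneg (Finset.sum_nonneg fun p _ => mul_nonneg (Nat.cast_nonneg _) (sq_nonneg _))
      (Finset.sum_nonneg fun p _ => mul_nonneg (Nat.cast_nonneg _) (sq_nonneg _))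
  have hd := discrim_le_zero (a := ex a x g) (b := 2 * (∑ p, (a p x : ℝ) * ((g p - g x) * w p) +
    ∑ q, (a x q : ℝ) * ((g q - g x) * w q)))
    (c := (∑ p, (a p x : ℝ) * w p ^ 2 + ∑ q, (a x q : ℝ) * w q ^ 2)) (fun c => by
      have := key c
      nlinarith [this])
  unfold discrim at hd
  nlinarith [hd]

/-- The sum of the squares `w ^ 2 ≤ K` over the strands at `x` is at most `2 m K`. -/
private theorem t5_deg {a : Net Y} {x : Y} {m : ℕ} (hin : ind a x = m) (hout : outd a x = m)
    {w : Y → ℝ} {K : ℝ} (hw : ∀ u, 1 ≤ a u x + a x u → w u ^ 2 ≤ K) :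
    ∑ p, (a p x : ℝ) * w p ^ 2 + ∑ q, (a x q : ℝ) * w q ^ 2 ≤ 2 * m * K := by
  have h1 : ∑ p, (a p x : ℝ) * w p ^ 2 ≤ ∑ p, (a p x : ℝ) * K := by
    refine Finset.sum_le_sum fun p _ => ?_
    rcases Nat.eq_zero_or_pos (a p x) with h0 | h0
    · rw [h0]; simp
    · exact mul_le_mul_of_nonneg_left (hw p (by omega)) (Nat.cast_nonneg _)
  have h2 : ∑ q, (a x q : ℝ) * w q ^ 2 ≤ ∑ q, (a x q : ℝ) * K := by
    refine Finset.sum_le_sum fun p _ => ?_
    rcases Nat.eq_zero_or_pos (a x p) with h0 | h0
    · rw [h0]; simp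
    · exact mul_le_mul_of_nonneg_left (hw p (by omega)) (Nat.cast_nonneg _)
  have h3 : ∑ p, (a p x : ℝ) * K = m * K := by
    rw [← Finset.sum_mul]
    congr 1
    rw [← hin]
    unfold ind
    push_cast
    rfl
  have h4 : ∑ q, (a x q : ℝ) * K = m * K := by
    rw [← Finset.sum_mul]
    congr 1
    rw [← hout]
    unfold outd
    push_cast
    rfl
  linarith

/-- Resistances after deletion. For `f` take the value at `x` equal to the value at one of its
neighbours (the form of `del a x` does not see it): `ex a x f ≤ 2 m s en a f`. -/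
theorem resLe_del {a : Net Y} {x : Y} {m : ℕ} {s : ℝ} (hs0 : 0 ≤ s) (hin : ind a x = m)
    (hout : outd a x = m) (hx : a x x = 0)
    (hs : ∀ u v, u ≠ x → v ≠ x → 1 ≤ a u x + a x u → 1 ≤ a v x + a x v → ResLe a s u v)
    (h4 : 4 * m * s ≤ 1) {y z : Y} {s₁ : ℝ} (hy : y ≠ x) (hz : z ≠ x) (hs₁ : 0 ≤ s₁)
    (h : ResLe a s₁ y z) : ResLe (del a x) (2 * s₁) y z := by
  have hne : ∀ u, 1 ≤ a u x + a x u → u ≠ x := by
    rintro u hu rfl
    rw [hx] at hu
    omega
  intro f
  obtain ⟨c, hc⟩ : ∃ c : ℝ, ∀ f' : Y → ℝ, f' = Function.update f x c →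
      ex a x f' ≤ 2 * m * (s * en a f') := by
    by_cases hex : ∃ u₀, 1 ≤ a u₀ x + a x u₀
    · obtain ⟨u₀, hu₀⟩ := hex
      refine ⟨f u₀, fun f' hf' => ?_⟩
      have hx' : f' x = f u₀ := by rw [hf']; simp
      have hu' : f' u₀ = f u₀ := by rw [hf']; simp [hne u₀ hu₀]
      have h1 := t5_deg hin hout (w := fun u => f' u - f' x) (K := s * en a f') (fun u hu => by
        have h2 := hs u u₀ (hne u hu) (hne u₀ hu₀) hu hu₀ f'
        rw [hx', ← hu']
        exact h2)
      unfold ex
      exact h1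
    · refine ⟨f x, fun f' _ => ?_⟩
      have h0 : ∀ u, a u x = 0 ∧ a x u = 0 := fun u => by
        have h3 := not_exists.1 hex u
        omega
      have h1 : ex a x f' = 0 := by
        unfold ex
        simp [fun u => (h0 u).1, fun u => (h0 u).2]
      rw [h1]
      have := en_nonneg a f'
      positivity
  set f' : Y → ℝ := Function.update f x c with hf'
  have h1 := hc f' rfl
  have h2 : en (del a x) f = en (del a x) f' := by
    unfold en bil
    refine Finset.sum_congr rfl fun u _ => Finset.sum_congr rfl fun v _ => ?_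
    unfold del
    by_cases huv : u = x ∨ v = x
    · simp [huv]
    · have hu : u ≠ x := fun h => huv (Or.inl h)
      have hv : v ≠ x := fun h => huv (Or.inr h)
      have e1 : f' u = f u := by rw [hf']; simp [hu]
      have e2 : f' v = f v := by rw [hf']; simp [hv]
      rw [e1, e2]
  have h3 := en_del a x f'
  have h5 : 0 ≤ en a f' := en_nonneg a f'
  have h6 : 2 * (m : ℝ) * (s * en a f') ≤ en a f' / 2 := by
    have : 2 * (m : ℝ) * (s * en a f') = (4 * m * s) * (en a f' / 2) := by ring
    rw [this]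
    have h7 : (4 * (m : ℝ) * s) * (en a f' / 2) ≤ 1 * (en a f' / 2) :=
      mul_le_mul_of_nonneg_right h4 (by linarith)
    linarith
  have h8 : en a f' ≤ 2 * en (del a x) f' := by linarith
  have e1 : f' y = f y := by rw [hf']; simp [hy]
  have e2 : f' z = f z := by rw [hf']; simp [hz]
  have h9 := h f'
  rw [e1, e2] at h9
  rw [h2]
  have h10 := mul_le_mul_of_nonneg_left h8 hs₁
  linarith

/-- Kirchhoff at `x`. -/
private theorem t5_kirchhoff {a : Net Y} {x y z : Y} {g : Y → ℝ} (hy : y ≠ x) (hz : z ≠ x)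
    (hg : IsPot a y z g) :
    ∑ p, (a p x : ℝ) * (g p - g x) + ∑ q, (a x q : ℝ) * (g q - g x) = 0 := by
  have h1 := hg (fun u => if u = x then 1 else 0)
  have h2 : bil (del a x) g (fun u => if u = x then (1 : ℝ) else 0) = 0 := by
    unfold bil
    refine Finset.sum_eq_zero fun u _ => Finset.sum_eq_zero fun v _ => ?_
    unfold del
    by_cases huv : u = x ∨ v = x
    · simp [huv]
    · have hu : u ≠ x := fun h => huv (Or.inl h)
      have hv : v ≠ x := fun h => huv (Or.inr h)
      simp [hu, hv]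
  rw [t5_bil_del, h1] at h2
  simp only [if_neg hy, if_neg hz] at h2
  have h3 : t5X a x g (fun u => if u = x then (1 : ℝ) else 0) =
      -(∑ p, (a p x : ℝ) * (g p - g x) + ∑ q, (a x q : ℝ) * (g q - g x)) := by
    unfold t5X
    have e1 : ∀ b : Y → ℝ, ∑ p, b p * ((g p - g x) * ((if p = x then (1 : ℝ) else 0) -
        (if x = x then 1 else 0))) = - ∑ p, b p * (g p - g x) := by
      intro b
      rw [← Finset.sum_neg_distrib]
      refine Finset.sum_congr rfl fun p _ => ?_
      by_cases hp : p = x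
      · subst hp; simp
      · simp only [if_neg hp, if_true]; ring
    rw [e1, e1]
    ring
  rw [h3] at h2
  linarith

/-- `R_del = R + E_x + en_del h ≤ R + 2 E_x`. -/
theorem res_del_le {a : Net Y} {x : Y} {m : ℕ} {s : ℝ} (hs0 : 0 ≤ s) (hin : ind a x = m)
    (hout : outd a x = m) (hx : a x x = 0)
    (hs : ∀ u v, u ≠ x → v ≠ x → 1 ≤ a u x + a x u → 1 ≤ a v x + a x v → ResLe a s u v)
    (h4 : 4 * m * s ≤ 1) {y z : Y} {s₁ : ℝ} (hy : y ≠ x) (hz : z ≠ x) (hs₁ : 0 ≤ s₁)
    (h : ResLe a s₁ y z) {g : Y → ℝ} (hg : IsPot a y z g) :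
    res (del a x) y z ≤ en a g + 2 * ex a x g := by
  have hne : ∀ u, 1 ≤ a u x + a x u → u ≠ x := by
    rintro u hu rfl
    rw [hx] at hu
    omega
  obtain ⟨gd, hgd⟩ := exists_pot (resLe_del hs0 hin hout hx hs h4 hy hz hs₁ h)
  rw [res_eq hgd]
  set k : Y → ℝ := fun v => gd v - g v with hk
  have hb : ∀ f : Y → ℝ, bil (del a x) k f = t5X a x g f := by
    intro f
    have e1 : bil (del a x) k f = bil (del a x) gd f - bil (del a x) g f := by
      unfold bil
      rw [← Finset.sum_sub_distrib]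
      refine Finset.sum_congr rfl fun u _ => ?_
      rw [← Finset.sum_sub_distrib]
      refine Finset.sum_congr rfl fun v _ => ?_
      rw [hk]
      ring
    rw [e1, hgd f, t5_bil_del, hg f]
    ring
  have hE : 0 ≤ ex a x g := t5_ex_nonneg a x g
  have hgk : gd = fun v => g v + k v := by
    funext v; rw [hk]; ring
  have e2 : en (del a x) gd = en (del a x) g + 2 * bil (del a x) k g + en (del a x) k := by
    have e3 : en (del a x) gd = bil (del a x) (fun v => g v + k v) (fun v => g v + k v) := by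
      unfold en; rw [hgk]
    rw [e3, bil_add, bil_comm (del a x) _ g, bil_comm (del a x) _ k, bil_add, bil_add]
    unfold en
    rw [bil_comm (del a x) g k]
    ring
  have e4 : bil (del a x) k g = ex a x g := by rw [hb, t5X_self]
  have e5 : en (del a x) g = en a g - ex a x g := en_del a x g
  have e6 : en (del a x) k ≤ ex a x g := by
    by_cases hex : ∃ u₀, 1 ≤ a u₀ x + a x u₀
    · obtain ⟨u₀, hu₀⟩ := hex
      have hK := t5_kirchhoff hy hz hg
      have f1 : en (del a x) k = ∑ p, (a p x : ℝ) * ((g p - g x) * (k p - k u₀)) +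
          ∑ q, (a x q : ℝ) * ((g q - g x) * (k q - k u₀)) := by
        have f2 : en (del a x) k = t5X a x g k := hb k
        have f3 : ∀ b : Y → ℝ, ∑ p, b p * ((g p - g x) * (k p - k x)) =
            ∑ p, b p * ((g p - g x) * (k p - k u₀)) +
              (∑ p, b p * (g p - g x)) * (k u₀ - k x) := by
          intro b
          rw [Finset.sum_mul, ← Finset.sum_add_distrib]
          exact Finset.sum_congr rfl fun p _ => by ring
        rw [f2]
        unfold t5X
        rw [f3, f3]
        have f4 : (∑ p, (a p x : ℝ) * (g p - g x)) * (k u₀ - k x) +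
            (∑ q, (a x q : ℝ) * (g q - g x)) * (k u₀ - k x) = 0 := by
          rw [← add_mul, hK, zero_mul]
        linarith
      have f5 := t5_cs a x g (fun u => k u - k u₀)
      have f6 := t5_deg hin hout (w := fun u => k u - k u₀) (K := 2 * s * en (del a x) k)
        (fun u hu => by
          exact resLe_del hs0 hin hout hx hs h4 (hne u hu) (hne u₀ hu₀) hs0
            (hs u u₀ (hne u hu) (hne u₀ hu₀) hu hu₀) k)
      rw [← f1] at f5
      have f7 : 0 ≤ en (del a x) k := en_nonneg _ _
      have f8 := mul_le_mul_of_nonneg_left f6 hE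
      have f9 : en (del a x) k ^ 2 ≤ (4 * m * s) * (ex a x g * en (del a x) k) := by
        refine f5.trans (f8.trans (le_of_eq ?_))
        ring
      have f10 : (4 * (m : ℝ) * s) * (ex a x g * en (del a x) k) ≤
          1 * (ex a x g * en (del a x) k) :=
        mul_le_mul_of_nonneg_right h4 (mul_nonneg hE f7)
      by_contra hcon
      push Not at hcon
      have f11 : ex a x g * en (del a x) k < en (del a x) k * en (del a x) k :=
        mul_lt_mul_of_pos_right hcon (lt_of_le_of_lt hE hcon)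
      nlinarith
    · have h0 : ∀ u, a u x = 0 ∧ a x u = 0 := fun u => by
        have h3 := not_exists.1 hex u
        omega
      have h1 : en (del a x) k = t5X a x g k := hb k
      rw [h1]
      have h2 : t5X a x g k = 0 := by
        unfold t5X
        simp [fun u => (h0 u).1, fun u => (h0 u).2]
      rw [h2]
      exact hE
  rw [e2, e4, e5]
  linarith

end Pool.Agent.PL
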