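import Pool.Agent.Lib.MP_6c3d62_pr.Mg.G054

/-! T1. Potentials and resistances. -/

set_option autoImplicit false
set_option linter.unusedSectionVars false

open Finset

namespace Pool.Agent.PL

variable {Y : Type*} [Fintype Y] [DecidableEq Y]

theorem t1_bil_sub_left (b : Net Y) (f g k : Y → ℝ) :
    bil b (fun v => f v - g v) k = bil b f k - bil b g k := by
  unfold bil
  rw [← Finset.sum_sub_distrib]
  refine Finset.sum_congr rfl fun y _ => ?_
  rw [← Finset.sum_sub_distrib]
  exact Finset.sum_congr rfl fun z _ => by ring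

theorem t1_en_sub (b : Net Y) (f g : Y → ℝ) :
    en b (fun v => f v - g v) = en b f - 2 * bil b f g + en b g := by
  unfold en bil
  rw [Finset.mul_sum, ← Finset.sum_sub_distrib, ← Finset.sum_add_distrib]
  refine Finset.sum_congr rfl fun y _ => ?_
  rw [Finset.mul_sum, ← Finset.sum_sub_distrib, ← Finset.sum_add_distrib]
  exact Finset.sum_congr rfl fun z _ => by ring

/-- The form as a map to the dual. -/
noncomputable def t1_Phi (a : Net Y) : (Y → ℝ) →ₗ[ℝ] Module.Dual ℝ (Y → ℝ) where
  toFun g :=
    { toFun := fun h => bil a g h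
      map_add' := fun h k => bil_add a g h k
      map_smul' := fun c h => bil_smul a g h c }
  map_add' g g' := by
    refine LinearMap.ext fun h => ?_
    change bil a (fun v => g v + g' v) h = bil a g h + bil a g' h
    rw [bil_comm, bil_add, bil_comm a h g, bil_comm a h g']
  map_smul' c g := by
    refine LinearMap.ext fun h => ?_
    change bil a (fun v => c * g v) h = c * bil a g h
    rw [bil_comm, bil_smul, bil_comm a h g]

/-- Riesz: `h ↦ h y - h z` vanishes on the kernel of `en a`, so it is `bil a g ·` for some `g`. -/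
theorem exists_pot {a : Net Y} {r : ℝ} {y z : Y} (h : ResLe a r y z) : ∃ g, IsPot a y z g := by
  let l : Module.Dual ℝ (Y → ℝ) :=
    { toFun := fun f => f y - f z
      map_add' := fun f g => by simp only [Pi.add_apply]; ring
      map_smul' := fun c f => by simp only [Pi.smul_apply, smul_eq_mul, RingHom.id_apply]; ring }
  have hl : l ∈ LinearMap.range (t1_Phi a) := by
    rw [← Subspace.dualCoannihilator_dualAnnihilator_eq (W := LinearMap.range (t1_Phi a))]
    rw [Submodule.mem_dualAnnihilator]
    intro w hw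
    rw [Submodule.mem_dualCoannihilator] at hw
    have h0 : bil a w w = 0 := hw (t1_Phi a w) ⟨w, rfl⟩
    have h1 := h w
    unfold en at h1
    rw [h0, mul_zero] at h1
    have h2 : w y - w z = 0 := by
      have := le_antisymm h1 (sq_nonneg _)
      exact pow_eq_zero_iff (two_ne_zero) |>.mp this
    exact h2
  obtain ⟨g, hg⟩ := hl
  exact ⟨g, fun k => by
    have : t1_Phi a g k = l k := by rw [hg]
    exact this⟩

theorem isPot_pot {a : Net Y} {r : ℝ} {y z : Y} (h : ResLe a r y z) : IsPot a y z (pot a y z) := by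
  have he := exists_pot h
  unfold pot
  rw [dif_pos he]
  exact Classical.choose_spec he

theorem isPot_en {a : Net Y} {y z : Y} {g : Y → ℝ} (h : IsPot a y z g) : en a g = g y - g z := h g

theorem resLe_of_pot {a : Net Y} {y z : Y} {g : Y → ℝ} (h : IsPot a y z g) :
    ResLe a (en a g) y z := by
  intro f
  rw [← h f]
  exact bil_sq_le a g f

theorem en_pot_le {a : Net Y} {y z : Y} {g : Y → ℝ} {r : ℝ} (h : IsPot a y z g) (hr0 : 0 ≤ r)
    (hr : ResLe a r y z) : en a g ≤ r := by
  have h1 := hr g
  rw [← isPot_en h] at h1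
  rcases (en_nonneg a g).eq_or_lt with h0 | h0
  · rw [← h0]; exact hr0
  · have h2 : en a g * en a g ≤ r * en a g := by nlinarith
    exact le_of_mul_le_mul_right h2 h0

theorem t1_isLeast {a : Net Y} {y z : Y} {g : Y → ℝ} (h : IsPot a y z g) :
    IsLeast {r : ℝ | 0 ≤ r ∧ ResLe a r y z} (en a g) :=
  ⟨⟨en_nonneg a g, resLe_of_pot h⟩, fun _ hr => en_pot_le h hr.1 hr.2⟩

theorem res_eq {a : Net Y} {y z : Y} {g : Y → ℝ} (h : IsPot a y z g) : res a y z = en a g :=
  (t1_isLeast h).csInf_eq

theorem res_nonneg (a : Net Y) (y z : Y) : 0 ≤ res a y z :=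
  Real.sInf_nonneg fun _ hr => hr.1

theorem resLe_res {a : Net Y} {r : ℝ} {y z : Y} (h : ResLe a r y z) : ResLe a (res a y z) y z := by
  obtain ⟨g, hg⟩ := exists_pot h
  rw [res_eq hg]
  exact resLe_of_pot hg

theorem res_le {a : Net Y} {r : ℝ} {y z : Y} (hr : 0 ≤ r) (h : ResLe a r y z) : res a y z ≤ r :=
  csInf_le ⟨0, fun _ hr => hr.1⟩ ⟨hr, h⟩

theorem ResLe.mono {a : Net Y} {r r' : ℝ} {y z : Y} (h : ResLe a r y z) (hr : r ≤ r') :
    ResLe a r' y z := fun f =>
  (h f).trans (mul_le_mul_of_nonneg_right hr (en_nonneg a f))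

theorem ResLe.symm {a : Net Y} {r : ℝ} {y z : Y} (h : ResLe a r y z) : ResLe a r z y := fun f => by
  have := h f
  calc (f z - f y) ^ 2 = (f y - f z) ^ 2 := by ring
    _ ≤ _ := this

/-- More strands, smaller resistance. -/
theorem ResLe.net_mono {a b : Net Y} (hab : ∀ u v, u ≠ v → a u v ≤ b u v) {r : ℝ} {y z : Y} (hr : 0 ≤ r)
    (h : ResLe a r y z) : ResLe b r y z := by
  intro f
  refine (h f).trans (mul_le_mul_of_nonneg_left ?_ hr)
  unfold en bil
  refine Finset.sum_le_sum fun u _ => Finset.sum_le_sum fun v _ => ?_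
  by_cases huv : u = v
  · subst huv; simp
  · refine mul_le_mul_of_nonneg_right ?_ (mul_self_nonneg _)
    exact_mod_cast hab u v huv

theorem rc_le (a : Net Y) (c : ℝ) (y z : Y) : rc a c y z ≤ c := by
  unfold rc
  split_ifs with h
  · exact min_le_right _ _
  · exact le_rfl

theorem rc_anti {a b : Net Y} (hab : ∀ u v, u ≠ v → a u v ≤ b u v) (c : ℝ) (hc : 0 ≤ c) (y z : Y) :
    rc b c y z ≤ rc a c y z := by
  by_cases h : ∃ r, ResLe a r y z
  · obtain ⟨r, hr⟩ := h
    have hr' : ResLe a (res a y z) y z := resLe_res hr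
    have hb : ResLe b (res a y z) y z := hr'.net_mono hab (res_nonneg a y z)
    have e1 : rc a c y z = min (res a y z) c := by unfold rc; rw [if_pos ⟨r, hr⟩]
    have e2 : rc b c y z = min (res b y z) c := by unfold rc; rw [if_pos ⟨_, hb⟩]
    rw [e1, e2]
    exact min_le_min_right c (res_le (res_nonneg a y z) hb)
  · have e1 : rc a c y z = c := by unfold rc; rw [if_neg h]
    rw [e1]
    exact rc_le b c y z

theorem rc_eq {a : Net Y} {c : ℝ} {y z : Y} (hc : 0 ≤ c) (h : ResLe a c y z) : rc a c y z = res a y z := by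
  unfold rc
  rw [if_pos ⟨c, h⟩]
  exact min_eq_left (res_le hc h)

theorem t1_strand_zero {a : Net Y} {k : Y → ℝ} (h : en a k = 0) (u v : Y) :
    (a u v : ℝ) * ((k u - k v) * (k u - k v)) = 0 := by
  unfold en bil at h
  have hn : ∀ u v, 0 ≤ (a u v : ℝ) * ((k u - k v) * (k u - k v)) := fun u v =>
    mul_nonneg (Nat.cast_nonneg _) (mul_self_nonneg _)
  have h1 := (Finset.sum_eq_zero_iff_of_nonneg
    (fun u _ => Finset.sum_nonneg fun v _ => hn u v)).mp h u (Finset.mem_univ u)
  exact (Finset.sum_eq_zero_iff_of_nonneg (fun v _ => hn u v)).mp h1 v (Finset.mem_univ v)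

theorem t1_strand {a : Net Y} {g g' : Y → ℝ} (h : en a (fun v => g v - g' v) = 0) (u v : Y) :
    (a u v : ℝ) * (g u - g v) = (a u v : ℝ) * (g' u - g' v) := by
  have := t1_strand_zero h u v
  rcases mul_eq_zero.mp this with h1 | h1
  · rw [h1]; ring
  · have h2 : (g u - g' u) - (g v - g' v) = 0 := mul_self_eq_zero.mp h1
    have h3 : g u - g v = g' u - g' v := by linarith
    rw [h3]

/-- Two unit potentials of the same pair have the same energy at every node. -/
theorem ex_eq_of_pot {a : Net Y} {x y z : Y} {g g' : Y → ℝ} (h : IsPot a y z g)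
    (h' : IsPot a y z g') : ex a x g = ex a x g' := by
  have h0 : en a (fun v => g v - g' v) = 0 := by
    have : en a (fun v => g v - g' v) = bil a (fun v => g v - g' v) (fun v => g v - g' v) := rfl
    rw [this, t1_bil_sub_left, h, h', sub_self]
  have e : ∀ u v, (a u v : ℝ) * (g u - g v) ^ 2 = (a u v : ℝ) * (g' u - g' v) ^ 2 := by
    intro u v
    have h1 := t1_strand h0 u v
    rcases Nat.eq_zero_or_pos (a u v) with h2 | h2
    · rw [h2]; simp
    · have h3 : (a u v : ℝ) ≠ 0 := by positivity
      rw [mul_left_cancel₀ h3 h1]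
  unfold ex
  congr 1
  · exact Finset.sum_congr rfl fun p _ => e p x
  · refine Finset.sum_congr rfl fun q _ => ?_
    have := e x q
    calc (a x q : ℝ) * (g q - g x) ^ 2 = (a x q : ℝ) * (g x - g q) ^ 2 := by ring
      _ = (a x q : ℝ) * (g' x - g' q) ^ 2 := this
      _ = _ := by ring

theorem t1_clamp (l u s t : ℝ) :
    (max l (min s u) - max l (min t u)) * (max l (min s u) - max l (min t u)) ≤ (s - t) * (s - t) := by
  have h1 : |max l (min s u) - max l (min t u)| ≤ |min s u - min t u| := by
    rw [max_comm l, max_comm l]; exact abs_max_sub_max_le_abs _ _ _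
  have h2 : |min s u - min t u| ≤ |s - t| := by
    have := abs_min_sub_min_le_max s u t u
    simpa using this
  have h3 := h1.trans h2
  rw [← abs_mul_abs_self (max l (min s u) - max l (min t u)), ← abs_mul_abs_self (s - t)]
  exact mul_self_le_mul_self (abs_nonneg _) h3

/-- Maximum principle: the unit potential of `(y, z)` takes its largest value at `y` and its
smallest value at `z`, at all nodes connected to them. (Clamp `g` to `[g z, g y]`.) -/
theorem pot_range {a : Net Y} {r r' : ℝ} {u y z : Y} {g : Y → ℝ} (h : IsPot a y z g)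
    (hu : ResLe a r u y) (hu' : ResLe a r' u z) : g z ≤ g u ∧ g u ≤ g y := by
  have hyz : g z ≤ g y := by
    have := en_nonneg a g
    rw [isPot_en h] at this
    linarith
  set c : Y → ℝ := fun v => max (g z) (min (g v) (g y)) with hc
  have hcy : c y = g y := by simp [hc, hyz]
  have hcz : c z = g z := by simp [hc]
  have h1 : en a c ≤ en a g := by
    unfold en bil
    refine Finset.sum_le_sum fun v _ => Finset.sum_le_sum fun w _ => ?_
    exact mul_le_mul_of_nonneg_left (t1_clamp _ _ _ _) (Nat.cast_nonneg _)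
  have h2 : bil a g c = en a g := by rw [h c, hcy, hcz, isPot_en h]
  have h3 : en a (fun v => g v - c v) = 0 := by
    refine le_antisymm ?_ (en_nonneg _ _)
    rw [t1_en_sub, h2]
    linarith
  have h4 := hu (fun v => g v - c v)
  rw [h3, mul_zero] at h4
  have h5 : (g u - c u) - (g y - c y) = 0 := by
    have := le_antisymm h4 (sq_nonneg _)
    exact pow_eq_zero_iff (two_ne_zero) |>.mp this
  have h6 : g u = c u := by rw [hcy] at h5; linarith
  constructor
  · rw [h6]; exact le_max_left _ _
  · rw [h6]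
    exact max_le hyz (min_le_right _ _)

end Pool.Agent.PL
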