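import Mathlib

set_option autoImplicit false

open Finset

namespace Pool.Agent.PL

/-- The energy. -/
private noncomputable def R6_E {d L : ℕ} [NeZero L] (g : (Fin d → ZMod L) → ℝ) : ℝ :=
  ∑ k, ∑ i, (g k - g (k + Pi.single i 1)) ^ 2

/-- The vector of the residues. -/
private def R6_b {d : ℕ} (L : ℕ) {n : ℕ} (u : Fin d → Fin n) : Fin d → ZMod L :=
  fun i => ((u i : ℕ) : ZMod L)

private noncomputable def R6_A {d L : ℕ} (n : ℕ) (g : (Fin d → ZMod L) → ℝ)
    (x : Fin d → ZMod L) : ℝ :=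
  (∑ u : Fin d → Fin n, g (x + R6_b L u)) / (n : ℝ) ^ d

private lemma R6_E_nonneg {d L : ℕ} [NeZero L] (g : (Fin d → ZMod L) → ℝ) : 0 ≤ R6_E g :=
  Finset.sum_nonneg fun _ _ => Finset.sum_nonneg fun _ _ => sq_nonneg _

private lemma R6_inj {d L n : ℕ} [NeZero L] (h : n ≤ L) :
    Function.Injective (R6_b L : (Fin d → Fin n) → Fin d → ZMod L) := by
  intro u v huv
  funext i
  have h1 : ((u i : ℕ) : ZMod L) = ((v i : ℕ) : ZMod L) := congrFun huv i
  have h2 := congrArg ZMod.val h1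
  rw [ZMod.val_natCast_of_lt ((u i).isLt.trans_le h),
    ZMod.val_natCast_of_lt ((v i).isLt.trans_le h)] at h2
  exact Fin.ext h2

private lemma R6_dir {d L : ℕ} [NeZero L] (g : (Fin d → ZMod L) → ℝ) (i : Fin d) :
    ∑ k, (g k - g (k + Pi.single i 1)) ^ 2 ≤ R6_E g := by
  unfold R6_E
  refine Finset.sum_le_sum fun k _ => ?_
  exact Finset.single_le_sum (f := fun i => (g k - g (k + Pi.single i 1)) ^ 2)
    (fun _ _ => sq_nonneg _) (Finset.mem_univ i)

private lemma R6_tele {d L : ℕ} (g : (Fin d → ZMod L) → ℝ) (i : Fin d)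
    (h : ℕ) (z : Fin d → ZMod L) :
    g z - g (z + Pi.single i (h : ZMod L)) = ∑ s ∈ range h,
      (g (z + Pi.single i (s : ZMod L)) - g (z + Pi.single i (s : ZMod L) + Pi.single i 1)) := by
  induction h with
  | zero => simp
  | succ h ih =>
    rw [Finset.sum_range_succ, ← ih]
    have h1 : z + Pi.single i (h : ZMod L) + Pi.single i (1 : ZMod L) =
        z + Pi.single i ((h + 1 : ℕ) : ZMod L) := by
      rw [add_assoc, ← Pi.single_add, Nat.cast_add, Nat.cast_one]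
    rw [h1]
    ring

private lemma R6_shift {d L n : ℕ} [NeZero L] (hn : 1 ≤ n) (hL : n ≤ L)
    (g : (Fin d → ZMod L) → ℝ) (i : Fin d) (h : ℕ) (x : Fin d → ZMod L) :
    (R6_A n g x - R6_A n g (x + Pi.single i (h : ZMod L))) ^ 2 ≤
      (h : ℝ) ^ 2 / (n : ℝ) ^ d * R6_E g := by
  have hn0 : (0 : ℝ) < (n : ℝ) ^ d := by
    have : (0 : ℝ) < n := by exact_mod_cast hn
    positivity
  obtain ⟨D, hD⟩ : ∃ D : (Fin d → ZMod L) → ℝ, D = fun k => g k - g (k + Pi.single i 1) :=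
    ⟨_, rfl⟩
  obtain ⟨F, hF⟩ : ∃ F : ℕ → ℝ, F = fun s : ℕ => ∑ u : Fin d → Fin n,
      D (x + R6_b L u + Pi.single i (s : ZMod L)) := ⟨_, rfl⟩
  have h1 : R6_A n g x - R6_A n g (x + Pi.single i (h : ZMod L)) =
      (∑ s ∈ range h, F s) / (n : ℝ) ^ d := by
    unfold R6_A
    rw [← sub_div, ← Finset.sum_sub_distrib, hF]
    congr 1
    rw [Finset.sum_comm]
    refine Finset.sum_congr rfl fun u _ => ?_
    have h2 : x + Pi.single i (h : ZMod L) + R6_b L u = x + R6_b L u + Pi.single i (h : ZMod L) := by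
      abel
    rw [h2, R6_tele g i h (x + R6_b L u), hD]
  have h3 : ∀ s, F s ^ 2 ≤ (n : ℝ) ^ d * R6_E g := by
    intro s
    have h4 : F s ^ 2 ≤ ((Finset.univ : Finset (Fin d → Fin n)).card : ℝ) *
        ∑ u : Fin d → Fin n, D (x + R6_b L u + Pi.single i (s : ZMod L)) ^ 2 := by
      rw [hF]
      exact sq_sum_le_card_mul_sum_sq
    rw [Finset.card_univ, Fintype.card_fun, Fintype.card_fin, Fintype.card_fin, Nat.cast_pow] at h4
    refine h4.trans (mul_le_mul_of_nonneg_left ?_ hn0.le)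
    have h5 : ∑ u : Fin d → Fin n, D (x + R6_b L u + Pi.single i (s : ZMod L)) ^ 2 ≤
        ∑ k, D k ^ 2 := by
      have hinj : Function.Injective fun u : Fin d → Fin n =>
          x + R6_b L u + Pi.single i (s : ZMod L) := by
        intro u v huv
        exact R6_inj hL (add_left_cancel (add_right_cancel huv))
      rw [← Finset.sum_image (f := fun k => D k ^ 2) (fun u _ v _ huv => hinj huv)]
      exact Finset.sum_le_sum_of_subset_of_nonneg (Finset.subset_univ _) fun _ _ _ => sq_nonneg _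
    refine h5.trans ?_
    rw [hD]
    exact R6_dir g i
  have h6 : (∑ s ∈ range h, F s) ^ 2 ≤ (h : ℝ) * ((h : ℝ) * ((n : ℝ) ^ d * R6_E g)) := by
    have h7 : (∑ s ∈ range h, F s) ^ 2 ≤ ((range h).card : ℝ) * ∑ s ∈ range h, F s ^ 2 :=
      sq_sum_le_card_mul_sum_sq
    rw [Finset.card_range] at h7
    refine h7.trans (mul_le_mul_of_nonneg_left ?_ (Nat.cast_nonneg h))
    have h8 := Finset.sum_le_sum fun s (_ : s ∈ range h) => h3 s
    rw [Finset.sum_const, Finset.card_range, nsmul_eq_mul] at h8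
    exact h8
  rw [h1, div_pow, div_le_iff₀ (by positivity)]
  refine h6.trans (le_of_eq ?_)
  field_simp

/-- The same with the square root. -/
private lemma R6_shift' {d L n : ℕ} [NeZero L] (hn : 1 ≤ n) (hL : n ≤ L) (hd : 2 ≤ d)
    (g : (Fin d → ZMod L) → ℝ) (i : Fin d) {h c : ℕ} (hc : h ≤ c * n) (x : Fin d → ZMod L) :
    |R6_A n g x - R6_A n g (x + Pi.single i (h : ZMod L))| ≤ c * √(R6_E g) := by
  have hE := R6_E_nonneg g
  have hn1 : (1 : ℝ) ≤ n := by exact_mod_cast hn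
  refine abs_le_of_sq_le_sq ?_ (by positivity)
  rw [mul_pow, Real.sq_sqrt hE]
  refine (R6_shift hn hL g i h x).trans (mul_le_mul_of_nonneg_right ?_ hE)
  rw [div_le_iff₀ (by positivity)]
  have h1 : (h : ℝ) ≤ c * n := by exact_mod_cast hc
  have h2 : (n : ℝ) ^ 2 ≤ (n : ℝ) ^ d := pow_le_pow_right₀ hn1 hd
  have h3 : (h : ℝ) ^ 2 ≤ (c * n : ℝ) ^ 2 := pow_le_pow_left₀ (Nat.cast_nonneg h) h1 2
  calc (h : ℝ) ^ 2 ≤ (c * n : ℝ) ^ 2 := h3
    _ = (c : ℝ) ^ 2 * (n : ℝ) ^ 2 := by ring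
    _ ≤ (c : ℝ) ^ 2 * (n : ℝ) ^ d := mul_le_mul_of_nonneg_left h2 (sq_nonneg _)

/-- Shift by a vector. -/
private lemma R6_vec {d L n : ℕ} [NeZero L] (hn : 1 ≤ n) (hL : n ≤ L) (hd : 2 ≤ d)
    (g : (Fin d → ZMod L) → ℝ) {c : ℕ} (v : Fin d → ℕ) (hv : ∀ i, v i ≤ c * n)
    (x : Fin d → ZMod L) (s : Finset (Fin d)) :
    |R6_A n g x - R6_A n g (x + ∑ i ∈ s, Pi.single i (v i : ZMod L))| ≤
      s.card * (c * √(R6_E g)) := by
  classical
  induction s using Finset.induction_on with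
  | empty => simp
  | insert i s hi ih =>
    rw [Finset.sum_insert hi, Finset.card_insert_of_notMem hi]
    have h1 := R6_shift' hn hL hd g i (hv i) (x + ∑ i ∈ s, Pi.single i (v i : ZMod L))
    have h2 : x + ∑ i ∈ s, Pi.single i (v i : ZMod L) + Pi.single i (v i : ZMod L) =
        x + (Pi.single i (v i : ZMod L) + ∑ i ∈ s, Pi.single i (v i : ZMod L)) := by
      abel
    rw [h2] at h1
    have h3 := abs_sub_le (R6_A n g x) (R6_A n g (x + ∑ i ∈ s, Pi.single i (v i : ZMod L)))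
      (R6_A n g (x + (Pi.single i (v i : ZMod L) + ∑ i ∈ s, Pi.single i (v i : ZMod L))))
    push_cast
    linarith

private lemma R6_vec' {d L n : ℕ} [NeZero L] (hn : 1 ≤ n) (hL : n ≤ L) (hd : 2 ≤ d)
    (g : (Fin d → ZMod L) → ℝ) {c : ℕ} (v : Fin d → ℕ) (hv : ∀ i, v i ≤ c * n)
    (x : Fin d → ZMod L) :
    |R6_A n g x - R6_A n g (x + fun i => (v i : ZMod L))| ≤ d * (c * √(R6_E g)) := by
  have h1 := R6_vec hn hL hd g v hv x Finset.univ
  rw [Finset.card_univ, Fintype.card_fin] at h1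
  have h2 : ∑ i : Fin d, (Pi.single i (v i : ZMod L) : Fin d → ZMod L) =
      fun i => (v i : ZMod L) := by
    funext j
    rw [Finset.sum_apply]
    simp [Pi.single_apply]
  rw [h2] at h1
  exact h1

/-- Doubling. -/
private lemma R6_double {d L n : ℕ} (hn : 1 ≤ n) (g : (Fin d → ZMod L) → ℝ)
    (x : Fin d → ZMod L) :
    R6_A (2 * n) g x = (∑ ε : Fin d → Fin 2, R6_A n g (x + fun i => ((n * (ε i : ℕ) : ℕ) : ZMod L)))
      / (2 : ℝ) ^ d := by
  have hn0 : (n : ℝ) ≠ 0 := by positivity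
  unfold R6_A
  rw [← Finset.sum_div, div_div]
  have h1 : (((2 * n : ℕ) : ℝ)) ^ d = (n : ℝ) ^ d * 2 ^ d := by
    push_cast
    rw [mul_pow, mul_comm]
  rw [h1]
  congr 1
  rw [← Finset.sum_product']
  let E : (Fin d → Fin 2) × (Fin d → Fin n) ≃ (Fin d → Fin (2 * n)) :=
    (Equiv.arrowProdEquivProdArrow (Fin d) (fun _ => Fin 2) (fun _ => Fin n)).symm.trans
      (Equiv.arrowCongr (Equiv.refl _) finProdFinEquiv)
  rw [Finset.univ_product_univ, ← Equiv.sum_comp E]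
  refine Finset.sum_congr rfl fun p _ => ?_
  congr 1
  have h2 : (R6_b L (E p) : Fin d → ZMod L) =
      (fun i => ((n * (p.1 i : ℕ) : ℕ) : ZMod L)) + R6_b L p.2 := by
    funext i
    show (((finProdFinEquiv (p.1 i, p.2 i) : Fin (2 * n)) : ℕ) : ZMod L) =
      ((n * (p.1 i : ℕ) : ℕ) : ZMod L) + ((p.2 i : ℕ) : ZMod L)
    rw [finProdFinEquiv_apply_val, Nat.cast_add, add_comm]
  rw [h2, add_assoc]

private lemma R6_step {d L n : ℕ} [NeZero L] (hn : 1 ≤ n) (hL : n ≤ L) (hd : 2 ≤ d)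
    (g : (Fin d → ZMod L) → ℝ) (x : Fin d → ZMod L) :
    |R6_A n g x - R6_A (2 * n) g x| ≤ d * √(R6_E g) := by
  rw [R6_double hn]
  have h0 : (0 : ℝ) < (2 : ℝ) ^ d := by positivity
  have hc : ((Finset.univ : Finset (Fin d → Fin 2)).card : ℝ) = (2 : ℝ) ^ d := by
    rw [Finset.card_univ, Fintype.card_fun, Fintype.card_fin, Fintype.card_fin]
    push_cast
    rfl
  have h1 : R6_A n g x - (∑ ε : Fin d → Fin 2,
      R6_A n g (x + fun i => ((n * (ε i : ℕ) : ℕ) : ZMod L))) / (2 : ℝ) ^ d =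
      (∑ ε : Fin d → Fin 2, (R6_A n g x -
        R6_A n g (x + fun i => ((n * (ε i : ℕ) : ℕ) : ZMod L)))) / (2 : ℝ) ^ d := by
    rw [Finset.sum_sub_distrib, Finset.sum_const, nsmul_eq_mul, hc, sub_div,
      mul_div_assoc, mul_comm, div_mul_cancel₀ _ h0.ne']
  rw [h1, abs_div, abs_of_pos h0, div_le_iff₀ h0]
  refine (Finset.abs_sum_le_sum_abs _ _).trans ?_
  have h2 : ∀ ε ∈ (Finset.univ : Finset (Fin d → Fin 2)),
      |R6_A n g x - R6_A n g (x + fun i => ((n * (ε i : ℕ) : ℕ) : ZMod L))| ≤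
        d * √(R6_E g) := by
    intro ε _
    have h3 := R6_vec' hn hL hd g (c := 1) (fun i => n * (ε i : ℕ)) (fun i => ?_) x
    · rw [Nat.cast_one, one_mul] at h3
      exact h3
    · have h4 : (ε i : ℕ) ≤ 1 := by have := (ε i).isLt; omega
      calc n * (ε i : ℕ) ≤ n * 1 := Nat.mul_le_mul_left n h4
        _ = 1 * n := by ring
  refine (Finset.sum_le_sum h2).trans ?_
  rw [Finset.sum_const, nsmul_eq_mul, hc, mul_comm]

private lemma R6_one {d L : ℕ} (g : (Fin d → ZMod L) → ℝ) (x : Fin d → ZMod L) :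
    R6_A 1 g x = g x := by
  unfold R6_A
  rw [Nat.cast_one, one_pow, div_one, Fintype.sum_unique]
  congr 1
  have h1 : (R6_b L (default : Fin d → Fin 1) : Fin d → ZMod L) = 0 := by
    funext i
    show ((((default : Fin d → Fin 1) i : Fin 1) : ℕ) : ZMod L) = 0
    simp
  rw [h1, add_zero]

private lemma R6_scales {d L : ℕ} [NeZero L] (hd : 2 ≤ d)
    (g : (Fin d → ZMod L) → ℝ) (x : Fin d → ZMod L) (m : ℕ) (hm : 2 ^ m ≤ L) :
    |g x - R6_A (2 ^ m) g x| ≤ m * (d * √(R6_E g)) := by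
  induction m with
  | zero => simp [R6_one]
  | succ m ih =>
    have h1 : 2 ^ m ≤ L := (Nat.pow_le_pow_right (by norm_num) (Nat.le_succ m)).trans hm
    have h2 := ih h1
    have h3 := R6_step (Nat.one_le_two_pow : 1 ≤ 2 ^ m) h1 hd g x
    have h4 : 2 * 2 ^ m = 2 ^ (m + 1) := by ring
    rw [h4] at h3
    have h5 := abs_sub_le (g x) (R6_A (2 ^ m) g x) (R6_A (2 ^ (m + 1)) g x)
    push_cast
    linarith

/-- R6. The lattice (pure): on `(ℤ/L)^d`, `d ≥ 2`, the resistance between any two points is at most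
`C (1 + log L)^2`. Dyadic boxes (or the heat semigroup). -/
theorem lattice_res (d : ℕ) (hd : 2 ≤ d) : ∃ C : ℝ, 1 ≤ C ∧ ∀ (L : ℕ) [NeZero L]
    (g : (Fin d → ZMod L) → ℝ) (x y : Fin d → ZMod L),
    (g x - g y) ^ 2 ≤ C * (1 + Real.log L) ^ 2 * ∑ k, ∑ i, (g k - g (k + Pi.single i 1)) ^ 2 := by
  refine ⟨16 * (d : ℝ) ^ 2, ?_, fun L hLz g x y => ?_⟩
  · have h1 : (2 : ℝ) ≤ d := by exact_mod_cast hd
    nlinarith
  have hL1 : 1 ≤ L := Nat.one_le_iff_ne_zero.2 (NeZero.ne L)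
  obtain ⟨m, hm⟩ : ∃ m, m = Nat.log 2 L := ⟨_, rfl⟩
  have hm1 : 2 ^ m ≤ L := by
    rw [hm]
    exact Nat.pow_log_le_self 2 (by omega)
  have hm2 : L < 2 ^ (m + 1) := by
    rw [hm]
    exact Nat.lt_pow_succ_log_self (by norm_num) L
  have hx := R6_scales hd g x m hm1
  have hy := R6_scales hd g y m hm1
  have hxy := R6_vec' (Nat.one_le_two_pow : 1 ≤ 2 ^ m) hm1 hd g (c := 2)
    (fun i => (y i - x i).val) (fun i => ?_) x
  swap
  · have h1 : (y i - x i).val < L := ZMod.val_lt _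
    have h2 : 2 ^ (m + 1) = 2 * 2 ^ m := by ring
    omega
  have h3 : (x + fun i => (((y i - x i).val : ℕ) : ZMod L)) = y := by
    funext i
    show x i + (((y i - x i).val : ℕ) : ZMod L) = y i
    rw [ZMod.natCast_zmod_val]
    ring
  rw [h3] at hxy
  have hE := R6_E_nonneg g
  have hs : (0 : ℝ) ≤ √(R6_E g) := Real.sqrt_nonneg _
  have hlog : (m : ℝ) ≤ 2 * Real.log L := by
    have h4 : (m : ℝ) * Real.log 2 ≤ Real.log L := by
      rw [← Real.log_pow]
      refine Real.log_le_log (by positivity) ?_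
      exact_mod_cast hm1
    have h5 : (1 / 2 : ℝ) ≤ Real.log 2 := by
      have := Real.log_two_gt_d9
      linarith
    have h6 : (0 : ℝ) ≤ m := Nat.cast_nonneg m
    nlinarith
  have hl0 : 0 ≤ Real.log L := Real.log_natCast_nonneg L
  have habs : |g x - g y| ≤ (2 * m + 2) * (d * √(R6_E g)) := by
    have h4 := abs_sub_le (g x) (R6_A (2 ^ m) g x) (g y)
    have h5 := abs_sub_le (R6_A (2 ^ m) g x) (R6_A (2 ^ m) g y) (g y)
    rw [abs_sub_comm (R6_A (2 ^ m) g y) (g y)] at h5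
    push_cast at hxy
    nlinarith
  have hd0 : (0 : ℝ) ≤ d := Nat.cast_nonneg d
  have habs2 : |g x - g y| ≤ (4 * (1 + Real.log L)) * (d * √(R6_E g)) := by
    refine habs.trans (mul_le_mul_of_nonneg_right ?_ (by positivity))
    linarith
  have h7 : (g x - g y) ^ 2 ≤ ((4 * (1 + Real.log L)) * (d * √(R6_E g))) ^ 2 := by
    rw [← sq_abs]
    exact pow_le_pow_left₀ (abs_nonneg _) habs2 2
  refine h7.trans (le_of_eq ?_)
  rw [mul_pow, mul_pow (d : ℝ), Real.sq_sqrt hE]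
  unfold R6_E
  ring

end Pool.Agent.PL
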