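import Mathlib

/-! G6: the parameters. All of them are powers of `log L`. -/

open Filter

set_option linter.unusedSectionVars false
set_option autoImplicit false

namespace Pool.Agent.PL

/-- `log L` is eventually large. -/
theorem ev_log_ge (M : ℝ) : ∀ᶠ L : ℕ in atTop, M ≤ Real.log L :=
  (Real.tendsto_log_atTop.comp tendsto_natCast_atTop_atTop).eventually_ge_atTop M

/-- Powers of `log L` are small. -/
theorem ev_log_pow_le (k : ℕ) (C : ℝ) : ∀ᶠ L : ℕ in atTop, C * Real.log L ^ k ≤ L := by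
  have h1 : (fun x : ℝ => Real.log x ^ k) =o[atTop] id := Real.isLittleO_pow_log_id_atTop
  have h2 := (h1.def (show (0 : ℝ) < 1 / (|C| + 1) by positivity))
  have h3 := tendsto_natCast_atTop_atTop (R := ℝ) |>.eventually h2
  filter_upwards [h3, eventually_ge_atTop 1, ev_log_ge 0] with L hL hL1 hl
  have hLp : (0 : ℝ) < L := by exact_mod_cast hL1
  simp only [id, Real.norm_eq_abs] at hL
  rw [abs_of_nonneg (pow_nonneg hl k), abs_of_pos hLp] at hL
  have hC : 0 < |C| + 1 := by positivity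
  have h4 : (|C| + 1) * Real.log L ^ k ≤ L := by
    have := mul_le_mul_of_nonneg_left hL hC.le
    rwa [← mul_assoc, mul_one_div_cancel hC.ne', one_mul] at this
  have h5 : C * Real.log L ^ k ≤ (|C| + 1) * Real.log L ^ k :=
    mul_le_mul_of_nonneg_right ((le_abs_self C).trans (by linarith)) (pow_nonneg hl k)
  linarith

/-- `b ∈ [log L ^ A, 2 log L ^ A]` is eventually at least any constant and at least `log L`. -/
theorem ev_b_ge {A : ℕ} (hA : 1 ≤ A) (M : ℝ) : ∀ᶠ L : ℕ in atTop, ∀ b : ℕ,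
    Real.log L ^ A ≤ b → M ≤ b ∧ 1 ≤ Real.log L ∧ Real.log L ≤ b := by
  filter_upwards [ev_log_ge (max M 1)] with L hL b hb
  have h1 : 1 ≤ Real.log L := (le_max_right _ _).trans hL
  have h2 : Real.log L ≤ Real.log L ^ A := by
    conv_lhs => rw [← pow_one (Real.log L)]
    exact pow_le_pow_right₀ h1 hA
  exact ⟨((le_max_left _ _).trans hL).trans (h2.trans hb), h1, h2.trans hb⟩

/-- The conditions of block (1), with `h₀ = b ^ a1` and `r₀ = b ^ a1`. -/
theorem par_hidden (d a1 A : ℕ) (hd : 1 ≤ d) (ha1 : 3 * d + 4 ≤ a1) (hA : 1 ≤ A) :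
    ∀ᶠ L : ℕ in atTop, ∀ b : ℕ, Real.log L ^ A ≤ b → (b : ℝ) ≤ 2 * Real.log L ^ A →
      1 ≤ b ∧ 8 * b ≤ b ^ a1 ∧ 2 * b ^ a1 ≤ L ∧ ((b ^ a1 : ℕ) : ℝ) ≤ 8 * (b : ℝ) ^ a1 ∧
      128 * (b : ℝ) ^ a1 * Real.log (16 * d * (b : ℝ) ^ d) ≤ ((b ^ a1 : ℕ) : ℝ) ^ 2 ∧
      1024 * 12 ^ d * (d : ℝ) ^ 2 * (b : ℝ) ^ 2 * ((b : ℝ) ^ d) ^ 3 * Real.log ((L : ℝ) ^ d) ≤
        (b : ℝ) ^ a1 ∧
      1 / (b : ℝ) ^ (a1 * d) ≤
        (((L / b ^ a1) ^ d : ℕ) : ℝ) * ((b ^ d : ℕ) : ℝ) / ((L ^ d : ℕ) : ℝ) ∧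
      (((L / b ^ a1) ^ d : ℕ) : ℝ) * ((b ^ d : ℕ) : ℝ) / ((L ^ d : ℕ) : ℝ) ≤ 1 := by
  have hd0 : (1 : ℝ) ≤ d := by exact_mod_cast hd
  have hev := ev_log_pow_le (A * a1) (2 * 2 ^ a1)
  filter_upwards [ev_b_ge hA (2048 * 12 ^ d * (d : ℝ) ^ 3), hev, eventually_ge_atTop 1]
    with L hbL hL2 hL1 b hb1 hb2
  obtain ⟨hbM, hl1, hlb⟩ := hbL b hb1
  have hLp : (0 : ℝ) < L := by exact_mod_cast hL1
  have h12 : (1 : ℝ) ≤ 12 ^ d := one_le_pow₀ (by norm_num)
  have hd3 : (1 : ℝ) ≤ (d : ℝ) ^ 3 := one_le_pow₀ hd0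
  have hb2048 : (2048 : ℝ) ≤ b := by
    refine le_trans ?_ hbM
    calc (2048 : ℝ) = 2048 * 1 * 1 := by norm_num
      _ ≤ 2048 * 12 ^ d * (d : ℝ) ^ 3 := by gcongr
  have hb1' : (1 : ℝ) ≤ b := by linarith
  have hb0 : (0 : ℝ) < b := by linarith
  have hbn : 2048 ≤ b := by exact_mod_cast hb2048
  have hbn0 : 0 < b := by omega
  have h8 : 8 * b ≤ b ^ a1 := by
    calc 8 * b ≤ b * b := Nat.mul_le_mul_right _ (by omega)
      _ = b ^ 2 := by ring
      _ ≤ b ^ a1 := Nat.pow_le_pow_right hbn0 (by omega)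
  have hr0L : 2 * b ^ a1 ≤ L := by
    have h1 : (b : ℝ) ^ a1 ≤ 2 ^ a1 * Real.log L ^ (A * a1) := by
      calc (b : ℝ) ^ a1 ≤ (2 * Real.log L ^ A) ^ a1 := pow_le_pow_left₀ hb0.le hb2 a1
        _ = 2 ^ a1 * Real.log L ^ (A * a1) := by rw [mul_pow, ← pow_mul]
    have h2 : 2 * (b : ℝ) ^ a1 ≤ L := by nlinarith
    exact_mod_cast h2
  have hr0p : 0 < b ^ a1 := Nat.pow_pos hbn0
  refine ⟨by omega, h8, hr0L, ?_, ?_, ?_, ?_, ?_⟩
  · push_cast
    have : 0 < (b : ℝ) ^ a1 := by positivity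
    linarith
  · push_cast
    have h1 : Real.log (16 * d * (b : ℝ) ^ d) ≤ 16 * d * (b : ℝ) ^ d :=
      (Real.log_le_sub_one_of_pos (by positivity)).trans (by linarith)
    have h2 : 128 * (16 * d * (b : ℝ) ^ d) ≤ (b : ℝ) ^ a1 := by
      have h3 : (b : ℝ) ^ (d + 1) ≤ (b : ℝ) ^ a1 := pow_le_pow_right₀ hb1' (by omega)
      have h4 : 2048 * (d : ℝ) ≤ b := by
        refine le_trans ?_ hbM
        have h5 : (d : ℝ) ≤ (d : ℝ) ^ 3 := by
          conv_lhs => rw [← pow_one (d : ℝ)]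
          exact pow_le_pow_right₀ hd0 (by norm_num)
        calc 2048 * (d : ℝ) ≤ 2048 * (d : ℝ) ^ 3 := by linarith
          _ = 2048 * 1 * (d : ℝ) ^ 3 := by ring
          _ ≤ 2048 * 12 ^ d * (d : ℝ) ^ 3 := by gcongr
      have h6 : 0 < (b : ℝ) ^ d := by positivity
      calc 128 * (16 * d * (b : ℝ) ^ d) = (2048 * d) * (b : ℝ) ^ d := by ring
        _ ≤ b * (b : ℝ) ^ d := by gcongr
        _ = (b : ℝ) ^ (d + 1) := by ring
        _ ≤ _ := h3
    have h7 : 0 < (b : ℝ) ^ a1 := by positivity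
    calc 128 * (b : ℝ) ^ a1 * Real.log (16 * d * (b : ℝ) ^ d) =
        (b : ℝ) ^ a1 * (128 * Real.log (16 * d * (b : ℝ) ^ d)) := by ring
      _ ≤ (b : ℝ) ^ a1 * (b : ℝ) ^ a1 := by
        refine mul_le_mul_of_nonneg_left (le_trans ?_ h2) h7.le
        linarith
      _ = ((b : ℝ) ^ a1) ^ 2 := by ring
  · rw [Real.log_pow]
    have h3 : (b : ℝ) ^ (3 * d + 4) ≤ (b : ℝ) ^ a1 := pow_le_pow_right₀ hb1' ha1
    have h4 : 1024 * 12 ^ d * (d : ℝ) ^ 3 ≤ b := by
      have : 0 ≤ 12 ^ d * (d : ℝ) ^ 3 := by positivity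
      linarith
    calc 1024 * 12 ^ d * (d : ℝ) ^ 2 * (b : ℝ) ^ 2 * ((b : ℝ) ^ d) ^ 3 * (d * Real.log L) =
        (1024 * 12 ^ d * (d : ℝ) ^ 3) * ((b : ℝ) ^ 2 * ((b : ℝ) ^ d) ^ 3) * Real.log L := by ring
      _ ≤ b * ((b : ℝ) ^ 2 * ((b : ℝ) ^ d) ^ 3) * b := by
        have h5 : 0 < (b : ℝ) ^ 2 * ((b : ℝ) ^ d) ^ 3 := by positivity
        gcongr
      _ = (b : ℝ) ^ (3 * d + 4) := by ring
      _ ≤ _ := h3
  · -- lower bound for the density
    have h1 : L ≤ 2 * b ^ a1 * (L / b ^ a1) := by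
      have h2 := Nat.lt_mul_div_succ L hr0p
      have h3 : 1 ≤ L / b ^ a1 := by
        rw [Nat.one_le_div_iff hr0p]
        omega
      calc L ≤ b ^ a1 * (L / b ^ a1 + 1) := h2.le
        _ ≤ b ^ a1 * (L / b ^ a1 + L / b ^ a1) := by
          apply Nat.mul_le_mul_left
          omega
        _ = 2 * b ^ a1 * (L / b ^ a1) := by ring
    have h2 : L ^ d ≤ b ^ (a1 * d) * ((L / b ^ a1) ^ d * b ^ d) := by
      calc L ^ d ≤ (2 * b ^ a1 * (L / b ^ a1)) ^ d := Nat.pow_le_pow_left h1 d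
        _ ≤ (b * b ^ a1 * (L / b ^ a1)) ^ d := by
          apply Nat.pow_le_pow_left
          apply Nat.mul_le_mul_right
          apply Nat.mul_le_mul_right
          omega
        _ = b ^ (a1 * d) * ((L / b ^ a1) ^ d * b ^ d) := by
          rw [mul_pow, mul_pow, ← pow_mul]
          ring
    have h3 : ((L ^ d : ℕ) : ℝ) ≤ (b : ℝ) ^ (a1 * d) *
        ((((L / b ^ a1) ^ d : ℕ) : ℝ) * ((b ^ d : ℕ) : ℝ)) := by exact_mod_cast h2
    have h4 : (0 : ℝ) < ((L ^ d : ℕ) : ℝ) := by positivity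
    rw [div_le_div_iff₀ (by positivity) h4, one_mul]
    linarith
  · have h1 : (L / b ^ a1) ^ d * b ^ d ≤ L ^ d := by
      rw [← mul_pow]
      apply Nat.pow_le_pow_left
      calc L / b ^ a1 * b ≤ L / b ^ a1 * b ^ a1 := by
            apply Nat.mul_le_mul_left
            calc b = b ^ 1 := (pow_one b).symm
              _ ≤ b ^ a1 := Nat.pow_le_pow_right hbn0 (by omega)
        _ ≤ L := Nat.div_mul_le_self _ _
    have h4 : (0 : ℝ) < ((L ^ d : ℕ) : ℝ) := by positivity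
    rw [div_le_one h4]
    exact_mod_cast h1

/-- The conditions of the freezing theorem and its error, `κ = (6 d + 8) log L`, `N = b ^ d`,
`ρ = 2 C / N`, at most `L ^ (d + 1)` nodes. -/
theorem par_freeze (d A : ℕ) (hd : 1 ≤ d) (hA : 13 ≤ A * d) (C C2 ε : ℝ) (hC : 0 ≤ C)
    (hC2 : 0 ≤ C2) (k : ℕ) (hε : 0 < ε) :
    ∀ᶠ L : ℕ in atTop, ∀ b : ℕ, Real.log L ^ A ≤ b → (b : ℝ) ≤ 2 * Real.log L ^ A →
      1 ≤ (6 * d + 8) * Real.log L ∧
      C2 * ((6 * d + 8) * Real.log L) ^ 2 ≤ ((b ^ d : ℕ) : ℝ) ∧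
      (∀ n : ℕ, 1 ≤ n → (n : ℝ) ≤ (L : ℝ) ^ (d + 1) →
        C2 * ((6 * d + 8) * Real.log L) * Real.log n ≤
          Real.sqrt (Real.sqrt ((b ^ d : ℕ) : ℝ)) ∧
        (n : ℝ) ^ 6 * ((b ^ d : ℕ) : ℝ) ≤ Real.exp ((6 * d + 8) * Real.log L) ∧
        2 * (k : ℝ) ^ 2 * (k.factorial : ℝ) * (4 * k * (2 * C / ((b ^ d : ℕ) : ℝ)) +
          C2 * (n : ℝ) ^ 2 * Real.exp (-((6 * d + 8) * Real.log L / 2))) ≤ ε) := by
  have hA1 : 1 ≤ A := by
    rcases Nat.eq_zero_or_pos A with h | h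
    · subst h; omega
    · exact h
  have hd0 : (1 : ℝ) ≤ d := by exact_mod_cast hd
  set K : ℝ := 6 * d + 8 with hK
  have hKp : 0 < K := by positivity
  set F : ℝ := 2 * (k : ℝ) ^ 2 * (k.factorial : ℝ) with hF
  have hF0 : 0 ≤ F := by positivity
  have hev2 := ev_log_pow_le (A * d) (2 ^ d)
  filter_upwards [ev_log_ge (C2 * K ^ 2 + 1 + C2 * K * (d + 1)),
    ev_log_ge (F * (8 * k * C) / ε * 2 + 1), ev_log_ge (F * C2 / ε * 2 + 1), hev2,
    eventually_ge_atTop 1] with L hl1 hl2 hl3 hL2 hL1 b hb1 hb2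
  have hLp : (0 : ℝ) < L := by exact_mod_cast hL1
  have hCK : 0 ≤ C2 * K ^ 2 := by positivity
  have hCK' : 0 ≤ C2 * K * (d + 1) := by positivity
  have hlog1 : 1 ≤ Real.log L := by linarith
  have hl0 : 0 < Real.log L := by linarith
  have hN : Real.log L ^ (A * d) ≤ ((b ^ d : ℕ) : ℝ) := by
    push_cast
    rw [pow_mul]
    exact pow_le_pow_left₀ (by positivity) hb1 d
  have hN13 : Real.log L ^ 13 ≤ ((b ^ d : ℕ) : ℝ) :=
    (pow_le_pow_right₀ hlog1 hA).trans hN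
  have hNp : 0 < ((b ^ d : ℕ) : ℝ) := lt_of_lt_of_le (by positivity) hN13
  have hLl : Real.log L ≤ L := by
    have := Real.log_le_sub_one_of_pos hLp
    linarith
  have hexp : Real.exp (K * Real.log L) = (L : ℝ) ^ (6 * d + 8) := by
    rw [← Real.rpow_natCast, Real.rpow_def_of_pos hLp]
    congr 1
    push_cast
    ring
  refine ⟨?_, ?_, ?_⟩
  · have : 1 ≤ K := by rw [hK]; linarith
    nlinarith
  · have h1 : C2 * (K * Real.log L) ^ 2 ≤ Real.log L ^ 3 := by
      calc C2 * (K * Real.log L) ^ 2 = (C2 * K ^ 2) * Real.log L ^ 2 := by ring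
        _ ≤ Real.log L * Real.log L ^ 2 := by
          refine mul_le_mul_of_nonneg_right ?_ (by positivity)
          linarith
        _ = Real.log L ^ 3 := by ring
    exact h1.trans ((pow_le_pow_right₀ hlog1 (by norm_num)).trans hN13)
  · intro n hn1 hn
    have hn0 : (0 : ℝ) < n := by exact_mod_cast hn1
    have hL1' : (1 : ℝ) ≤ L := by exact_mod_cast hL1
    refine ⟨?_, ?_, ?_⟩
    · have h1 : Real.log n ≤ (d + 1) * Real.log L := by
        calc Real.log n ≤ Real.log ((L : ℝ) ^ (d + 1)) := Real.log_le_log hn0 hn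
          _ = (d + 1) * Real.log L := by
            rw [Real.log_pow]
            push_cast
            ring
      have h2 : C2 * (K * Real.log L) * Real.log n ≤ Real.log L ^ 3 := by
        calc C2 * (K * Real.log L) * Real.log n ≤
            C2 * (K * Real.log L) * ((d + 1) * Real.log L) := by
              refine mul_le_mul_of_nonneg_left h1 (by positivity)
          _ = (C2 * K * (d + 1)) * Real.log L ^ 2 := by ring
          _ ≤ Real.log L * Real.log L ^ 2 := by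
            refine mul_le_mul_of_nonneg_right ?_ (by positivity)
            linarith
          _ = Real.log L ^ 3 := by ring
      refine h2.trans ?_
      refine Real.le_sqrt_of_sq_le ?_
      refine Real.le_sqrt_of_sq_le ?_
      calc ((Real.log L ^ 3) ^ 2) ^ 2 = Real.log L ^ 12 := by ring
        _ ≤ Real.log L ^ 13 := pow_le_pow_right₀ hlog1 (by norm_num)
        _ ≤ _ := hN13
    · have hNL : ((b ^ d : ℕ) : ℝ) ≤ L := by
        push_cast
        calc (b : ℝ) ^ d ≤ (2 * Real.log L ^ A) ^ d := pow_le_pow_left₀ (Nat.cast_nonneg _) hb2 d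
          _ = 2 ^ d * Real.log L ^ (A * d) := by rw [mul_pow, ← pow_mul]
          _ ≤ L := hL2
      rw [hexp]
      calc (n : ℝ) ^ 6 * ((b ^ d : ℕ) : ℝ) ≤ ((L : ℝ) ^ (d + 1)) ^ 6 * L := by
            refine mul_le_mul (pow_le_pow_left₀ hn0.le hn 6) hNL hNp.le (by positivity)
        _ = (L : ℝ) ^ (6 * d + 7) := by
          rw [← pow_mul, ← pow_succ]
          congr 1
          ring
        _ ≤ (L : ℝ) ^ (6 * d + 8) := pow_le_pow_right₀ hL1' (by omega)
    · have hex2 : Real.exp (-(K * Real.log L / 2)) = 1 / (L : ℝ) ^ (3 * d + 4) := by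
        rw [Real.exp_neg, one_div]
        congr 1
        rw [← Real.rpow_natCast, Real.rpow_def_of_pos hLp]
        congr 1
        push_cast
        rw [hK]
        ring
      have h1 : C2 * (n : ℝ) ^ 2 * Real.exp (-(K * Real.log L / 2)) ≤ C2 / Real.log L := by
        rw [hex2]
        have h2 : (n : ℝ) ^ 2 ≤ (L : ℝ) ^ (2 * d + 2) := by
          calc (n : ℝ) ^ 2 ≤ ((L : ℝ) ^ (d + 1)) ^ 2 := pow_le_pow_left₀ hn0.le hn 2
            _ = (L : ℝ) ^ (2 * d + 2) := by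
              rw [← pow_mul]
              congr 1
              ring
        have h3 : (n : ℝ) ^ 2 * Real.log L ≤ (L : ℝ) ^ (3 * d + 4) := by
          calc (n : ℝ) ^ 2 * Real.log L ≤ (L : ℝ) ^ (2 * d + 2) * L :=
                mul_le_mul h2 hLl hl0.le (by positivity)
            _ = (L : ℝ) ^ (2 * d + 3) := by ring
            _ ≤ _ := pow_le_pow_right₀ hL1' (by omega)
        rw [mul_assoc, mul_one_div, mul_div_assoc']
        rw [div_le_div_iff₀ (by positivity) hl0]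
        calc C2 * (n : ℝ) ^ 2 * Real.log L = C2 * ((n : ℝ) ^ 2 * Real.log L) := by ring
          _ ≤ C2 * (L : ℝ) ^ (3 * d + 4) := mul_le_mul_of_nonneg_left h3 hC2
      have h4 : 4 * k * (2 * C / ((b ^ d : ℕ) : ℝ)) ≤ 8 * k * C / Real.log L := by
        have h5 : Real.log L ≤ ((b ^ d : ℕ) : ℝ) := by
          refine le_trans ?_ hN13
          conv_lhs => rw [← pow_one (Real.log L)]
          exact pow_le_pow_right₀ hlog1 (by norm_num)
        calc 4 * k * (2 * C / ((b ^ d : ℕ) : ℝ)) = 8 * k * C / ((b ^ d : ℕ) : ℝ) := by ring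
          _ ≤ 8 * k * C / Real.log L := div_le_div_of_nonneg_left (by positivity) hl0 h5
      calc F * (4 * k * (2 * C / ((b ^ d : ℕ) : ℝ)) +
          C2 * (n : ℝ) ^ 2 * Real.exp (-(K * Real.log L / 2))) ≤
          F * (8 * k * C / Real.log L + C2 / Real.log L) :=
            mul_le_mul_of_nonneg_left (add_le_add h4 h1) hF0
        _ = F * (8 * k * C) / Real.log L + F * C2 / Real.log L := by ring
        _ ≤ ε / 2 + ε / 2 := by
          refine add_le_add ?_ ?_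
          · rw [div_le_iff₀ hl0]
            have h6 : F * (8 * k * C) / ε * 2 ≤ Real.log L := by linarith
            rw [div_mul_eq_mul_div, div_le_iff₀ hε] at h6
            linarith
          · rw [div_le_iff₀ hl0]
            have h6 : F * C2 / ε * 2 ≤ Real.log L := by linarith
            rw [div_mul_eq_mul_div, div_le_iff₀ hε] at h6
            linarith
        _ = ε := by ring

/-- The insertion of uniform shuffles of `k` cubes, and the total length of the slabs. -/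
theorem par_insert (d A m : ℕ) (C ε : ℝ) (hC : 0 ≤ C) (hε : 0 < ε) :
    ∀ᶠ L : ℕ in atTop, ∀ b : ℕ, Real.log L ^ A ≤ b → (b : ℝ) ≤ 2 * Real.log L ^ A →
      ∀ t : ℝ, Real.log L ^ (2 * A * m + 3) ≤ t →
        C * (b : ℝ) ^ m * Real.sqrt (Real.log ((L : ℝ) ^ d) / t) ≤ ε := by
  filter_upwards [ev_log_ge ((C * 2 ^ m / ε) ^ 2 * d + 1), eventually_ge_atTop 1]
    with L hl hL1 b hb1 hb2 t ht
  have h0 : 0 ≤ (C * 2 ^ m / ε) ^ 2 * d := by positivity
  have hl1 : 1 ≤ Real.log L := by linarith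
  have hl0 : 0 < Real.log L := by linarith
  have htp : 0 < t := lt_of_lt_of_le (by positivity) ht
  have h1 : (b : ℝ) ^ m ≤ 2 ^ m * Real.log L ^ (A * m) := by
    calc (b : ℝ) ^ m ≤ (2 * Real.log L ^ A) ^ m := pow_le_pow_left₀ (Nat.cast_nonneg _) hb2 m
      _ = 2 ^ m * Real.log L ^ (A * m) := by rw [mul_pow, ← pow_mul]
  have h2 : Real.sqrt (Real.log ((L : ℝ) ^ d) / t) ≤ Real.sqrt (d / Real.log L ^ (2 * A * m + 2)) := by
    refine Real.sqrt_le_sqrt ?_
    rw [Real.log_pow, div_le_div_iff₀ htp (by positivity)]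
    calc (d : ℝ) * Real.log L * Real.log L ^ (2 * A * m + 2) =
        d * Real.log L ^ (2 * A * m + 3) := by ring
      _ ≤ d * t := mul_le_mul_of_nonneg_left ht (Nat.cast_nonneg _)
  have h3 : Real.sqrt (d / Real.log L ^ (2 * A * m + 2)) =
      Real.sqrt d / Real.log L ^ (A * m + 1) := by
    rw [Real.sqrt_div (Nat.cast_nonneg _)]
    congr 1
    have h4 : Real.log L ^ (2 * A * m + 2) = (Real.log L ^ (A * m + 1)) ^ 2 := by
      rw [← pow_mul]
      congr 1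
      ring
    rw [h4, Real.sqrt_sq (by positivity)]
  calc C * (b : ℝ) ^ m * Real.sqrt (Real.log ((L : ℝ) ^ d) / t) ≤
      C * (2 ^ m * Real.log L ^ (A * m)) * (Real.sqrt d / Real.log L ^ (A * m + 1)) := by
        refine mul_le_mul (mul_le_mul_of_nonneg_left h1 hC) (h2.trans h3.le)
          (Real.sqrt_nonneg _) (by positivity)
    _ = C * 2 ^ m * Real.sqrt d / Real.log L := by
      rw [pow_succ]
      field_simp
    _ ≤ ε := by
      rw [div_le_iff₀ hl0]
      have h5 : (C * 2 ^ m / ε) * Real.sqrt d ≤ Real.log L := by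
        refine le_trans ?_ hl
        have h6 : Real.sqrt d ^ 2 = d := Real.sq_sqrt (Nat.cast_nonneg _)
        have h7 : ((C * 2 ^ m / ε) * Real.sqrt d) ^ 2 = (C * 2 ^ m / ε) ^ 2 * d := by
          rw [mul_pow, h6]
        nlinarith [sq_nonneg ((C * 2 ^ m / ε) * Real.sqrt d - 1)]
      have h8 : C * 2 ^ m * Real.sqrt d = ε * ((C * 2 ^ m / ε) * Real.sqrt d) := by
        field_simp
      rw [h8]
      exact mul_le_mul_of_nonneg_left h5 hε.le

end Pool.Agent.PL
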