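import Pool.Agent.Lib.MP_6c3d62_pr.Mg.G070
import Pool.Agent.Lib.MP_6c3d62_pr.Mg.G061
import Pool.Agent.Lib.MP_6c3d62_pr.Mg.G075
import Pool.Agent.Lib.MP_6c3d62_pr.Mg.G074
import Pool.Agent.Lib.MP_6c3d62_pr.Mg.G071

/-! The last assembly: `klaw` from `env_good` and `TN.klaw_of_env`. -/

set_option autoImplicit false
set_option linter.unusedSectionVars false

open Finset Equiv Pool.Agent.Stirring Filter

namespace Pool.Agent.PL

/-- **G9.** The laws of `k` far apart points. -/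
theorem klaw (d : ℕ) (hd : 2 ≤ d) :
    ∃ C : ℕ, TN.KLaw d (fun L => {t : ℝ | Real.log L ^ C ≤ t}) := by
  obtain ⟨A, B, c1, hc1, hev⟩ := env_good d hd
  exact ⟨_, TN.klaw_of_env d hd hc1 hev⟩

end Pool.Agent.PL
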