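import Pool.Agent.Lib.MP_6c3d62_pr.PL.Pot
import Pool.Agent.Lib.MP_6c3d62_pr.PL.Step

/-! T3. The exact one-step formula and the one-step inequality for the energy at `x`. -/

set_option autoImplicit false
set_option linter.unusedSectionVars false

open Finset

namespace Pool.Agent.PL

variable {Y : Type*} [Fintype Y] [DecidableEq Y]

theorem t3_sub_bil (b : Net Y) (f g k : Y → ℝ) :
    bil b (fun v => f v - g v) k = bil b f k - bil b g k := by
  unfold bil
  rw [← Finset.sum_sub_distrib]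
  refine Finset.sum_congr rfl fun y _ => ?_
  rw [← Finset.sum_sub_distrib]
  exact Finset.sum_congr rfl fun z _ => by ring

theorem t3_en_sub (b : Net Y) (f g : Y → ℝ) :
    en b (fun v => f v - g v) = en b f - 2 * bil b f g + en b g := by
  unfold en bil
  rw [Finset.mul_sum, ← Finset.sum_sub_distrib, ← Finset.sum_add_distrib]
  refine Finset.sum_congr rfl fun y _ => ?_
  rw [Finset.mul_sum, ← Finset.sum_sub_distrib, ← Finset.sum_add_distrib]
  exact Finset.sum_congr rfl fun z _ => by ring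

theorem bil_diff {a : Net Y} {x p q y z : Y} {g g' : Y → ℝ} (hp : 1 ≤ a p x) (hq : 1 ≤ a x q)
    (hg : IsPot a y z g) (hg' : IsPot (step a x p q) y z g') (k : Y → ℝ) :
    bil (step a x p q) (fun v => g' v - g v) k
      = (g p - g x) * (k q - k x) + (g q - g x) * (k p - k x) := by
  rw [t3_sub_bil, hg', bil_step hp hq, hg]; ring

/-- `R' = R + 2ab + E'(h)`. -/
theorem res_step {a : Net Y} {x p q y z : Y} {g g' : Y → ℝ} (hp : 1 ≤ a p x) (hq : 1 ≤ a x q)
    (hg : IsPot a y z g) (hg' : IsPot (step a x p q) y z g') :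
    en (step a x p q) g'
      = en a g + 2 * ((g p - g x) * (g q - g x)) + en (step a x p q) (fun v => g' v - g v) := by
  have h1 := bil_diff hp hq hg hg' g
  have h2 := bil_diff hp hq hg hg' g'
  rw [t3_en_sub]
  rw [t3_sub_bil] at h1
  have h3 : bil (step a x p q) g g = en (step a x p q) g := rfl
  have h4 : en (step a x p q) g = en a g - 2 * ((g p - g x) * (g q - g x)) := by
    show bil (step a x p q) g g = bil a g g - _
    rw [bil_step hp hq]; ring
  rw [h3, h4] at h1
  rw [h4]
  have h5 : bil (step a x p q) g' g = en a g := by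
    rw [hg' g]; exact (isPot_en hg).symm
  rw [h5]; ring

theorem t3_sqrt_le {e r A : ℝ} (he : 0 ≤ e) (hr : 0 ≤ r) (hA : 0 ≤ A) (h : e ^ 2 ≤ A ^ 2 * (r * e)) :
    e ≤ r * A ^ 2 := by
  rcases eq_or_lt_of_le he with h0 | h0
  · rw [← h0]; positivity
  · have : e * e ≤ (r * A ^ 2) * e := by nlinarith
    exact le_of_mul_le_mul_right this h0

theorem en_diff_le {a : Net Y} {x p q y z : Y} {g g' : Y → ℝ} {r' : ℝ} (hp : 1 ≤ a p x)
    (hq : 1 ≤ a x q) (hg : IsPot a y z g) (hg' : IsPot (step a x p q) y z g') (hr' : 0 ≤ r')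
    (h1 : ResLe (step a x p q) r' p x) (h2 : ResLe (step a x p q) r' q x) :
    en (step a x p q) (fun v => g' v - g v) ≤ r' * (|g p - g x| + |g q - g x|) ^ 2 := by
  set b := step a x p q with hb
  set k : Y → ℝ := fun v => g' v - g v with hk
  have h3 : en b k = (g p - g x) * (k q - k x) + (g q - g x) * (k p - k x) :=
    bil_diff hp hq hg hg' k
  have h4 := h1 k
  have h5 := h2 k
  have he : 0 ≤ en b k := en_nonneg _ _
  apply t3_sqrt_le he hr' (by positivity)
  set A := |g p - g x|
  set B := |g q - g x|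
  have hA : 0 ≤ A := abs_nonneg _
  have hB : 0 ≤ B := abs_nonneg _
  have h6 : |en b k| ≤ A * |k q - k x| + B * |k p - k x| := by
    rw [h3]
    refine (abs_add_le _ _).trans ?_
    rw [abs_mul, abs_mul]
  set u := |k q - k x|
  set v := |k p - k x|
  have hu0 : 0 ≤ u := abs_nonneg _
  have hv0 : 0 ≤ v := abs_nonneg _
  have hu : u ^ 2 ≤ r' * en b k := by rw [sq_abs]; exact h5
  have hv : v ^ 2 ≤ r' * en b k := by rw [sq_abs]; exact h4
  rw [abs_of_nonneg he] at h6
  have h7 : en b k ^ 2 ≤ (A * u + B * v) ^ 2 := pow_le_pow_left₀ he h6 2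
  have h8 : (A * u + B * v) ^ 2 ≤ (A + B) ^ 2 * (r' * en b k) := by
    have e1 : 2 * (u * v) ≤ 2 * (r' * en b k) := by nlinarith [sq_nonneg (u - v)]
    have e2 : (A * u + B * v) ^ 2 = A ^ 2 * u ^ 2 + B ^ 2 * v ^ 2 + A * B * (2 * (u * v)) := by ring
    rw [e2]
    have e3 := mul_le_mul_of_nonneg_left hu (sq_nonneg A)
    have e4 := mul_le_mul_of_nonneg_left hv (sq_nonneg B)
    have e5 := mul_le_mul_of_nonneg_left e1 (mul_nonneg hA hB)
    nlinarith
  exact h7.trans h8

/-- One-step inequality for the energy at `x`. Proof: write `g' = g + h` on the remaining strands;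
cross term by Kirchhoff for the old `g` with reference node `p`, Cauchy-Schwarz and
`(h e - h p)^2 ≤ s' * en' h` for the at most `2 (m-1)` other ends `e`. -/
theorem ex_step_le {a : Net Y} {x p q y z : Y} {g g' : Y → ℝ} {m : ℕ} {r' s' : ℝ}
    (hx : a x x = 0) (hm : 1 ≤ m) (hin : ind a x = m) (hout : outd a x = m)
    (hp : 1 ≤ a p x) (hq : 1 ≤ a x q) (hxy : x ≠ y) (hxz : x ≠ z) (hg : IsPot a y z g)
    (hg' : IsPot (step a x p q) y z g') (hr' : 0 ≤ r') (hs' : 0 ≤ s')
    (h1 : ResLe (step a x p q) r' p x) (h2 : ResLe (step a x p q) r' q x)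
    (hS : ∀ u, u ≠ x → 1 ≤ a u x + a x u → ResLe (step a x p q) s' p u) :
    ex (step a x p q) x g' ≤ ex a x g - ((g p - g x) ^ 2 + (g q - g x) ^ 2)
      + 3 * r' * (|g p - g x| + |g q - g x|) ^ 2
      + 2 * Real.sqrt (2 * (m - 1) * s' * r' * ex a x g) * (|g p - g x| + |g q - g x|) := by
  have hpx : p ≠ x := fun h => by rw [h, hx] at hp; omega
  have hqx : q ≠ x := fun h => by rw [h, hx] at hq; omega
  have hen := en_diff_le hp hq hg hg' hr' h1 h2
  have hexs : ∀ f, ex (step a x p q) x f = ex a x f - (f p - f x) ^ 2 - (f q - f x) ^ 2 :=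
    fun f => ex_step hx hp hq f
  set b := step a x p q with hb
  set k : Y → ℝ := fun v => g' v - g v with hk
  set α := g p - g x with hα
  set β := g q - g x with hβ
  set A := |α| + |β| with hA
  have hA0 : 0 ≤ A := by positivity
  have hk0 : 0 ≤ en b k := en_nonneg _ _
  -- bilinear version of `ex`
  set bx : Net Y → (Y → ℝ) → (Y → ℝ) → ℝ := fun c f l =>
    ∑ u, (c u x : ℝ) * ((f u - f x) * (l u - l x)) + ∑ v, (c x v : ℝ) * ((f v - f x) * (l v - l x))
    with hbx
  have hex_add : ∀ c : Net Y, ex c x g' = ex c x g + 2 * bx c g k + ex c x k := by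
    intro c
    simp only [ex, hbx, hk]
    rw [mul_add, mul_sum, mul_sum]
    have e1 : ∀ F G H : Y → ℝ, ∑ u, F u + (∑ u, G u) + ∑ u, H u = ∑ u, (F u + G u + H u) := by
      intro F G H; rw [sum_add_distrib, sum_add_distrib]
    have e2 : ∑ u, (c u x : ℝ) * (g' u - g' x) ^ 2 = ∑ u, (c u x : ℝ) * (g u - g x) ^ 2 +
        ∑ u, 2 * ((c u x : ℝ) * ((g u - g x) * (g' u - g u - (g' x - g x)))) +
        ∑ u, (c u x : ℝ) * (g' u - g u - (g' x - g x)) ^ 2 := by
      rw [e1]; exact sum_congr rfl fun u _ => by ring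
    have e3 : ∑ u, (c x u : ℝ) * (g' u - g' x) ^ 2 = ∑ u, (c x u : ℝ) * (g u - g x) ^ 2 +
        ∑ u, 2 * ((c x u : ℝ) * ((g u - g x) * (g' u - g u - (g' x - g x)))) +
        ∑ u, (c x u : ℝ) * (g' u - g u - (g' x - g x)) ^ 2 := by
      rw [e1]; exact sum_congr rfl fun u _ => by ring
    rw [e2, e3]; ring
  -- the three parts
  have p1 : ex b x g = ex a x g - α ^ 2 - β ^ 2 := hexs g
  have p3 : ex b x k ≤ r' * A ^ 2 := (ex_le_en b x k).trans hen
  -- `bx b g k`, polarisation of `ex_step`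
  have hpol : ∀ f l : Y → ℝ, bx b f l = bx a f l - (f p - f x) * (l p - l x) -
      (f q - f x) * (l q - l x) := by
    intro f l
    have q1 := hexs (fun v => f v + l v)
    have q2 := hexs f
    have q3 := hexs l
    have q4 : ∀ c : Net Y, ex c x (fun v => f v + l v) = ex c x f + 2 * bx c f l + ex c x l := by
      intro c
      simp only [ex, hbx]
      rw [mul_add, mul_sum, mul_sum]
      have e1 : ∀ F G H : Y → ℝ, ∑ u, F u + (∑ u, G u) + ∑ u, H u = ∑ u, (F u + G u + H u) := by
        intro F G H; rw [sum_add_distrib, sum_add_distrib]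
      have e2 : ∑ u, (c u x : ℝ) * (f u + l u - (f x + l x)) ^ 2 =
          ∑ u, (c u x : ℝ) * (f u - f x) ^ 2 +
          ∑ u, 2 * ((c u x : ℝ) * ((f u - f x) * (l u - l x))) +
          ∑ u, (c u x : ℝ) * (l u - l x) ^ 2 := by
        rw [e1]; exact sum_congr rfl fun u _ => by ring
      have e3 : ∑ u, (c x u : ℝ) * (f u + l u - (f x + l x)) ^ 2 =
          ∑ u, (c x u : ℝ) * (f u - f x) ^ 2 +
          ∑ u, 2 * ((c x u : ℝ) * ((f u - f x) * (l u - l x))) +
          ∑ u, (c x u : ℝ) * (l u - l x) ^ 2 := by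
        rw [e1]; exact sum_congr rfl fun u _ => by ring
      rw [e2, e3]; ring
    rw [q4, q4, q2, q3] at q1
    linarith
  -- Kirchhoff for the old potential
  have hK := kirchhoff hg hxy hxz
  have hKb : ∑ u, (b u x : ℝ) * (g u - g x) + ∑ v, (b x v : ℝ) * (g v - g x) = -(α + β) := by
    -- use the polarised identity with `l = 1_{x}` complement
    have q1 := hpol g (fun v => if v = x then 0 else 1)
    have q2 : ∀ c : Net Y, c x x = 0 → bx c g (fun v => if v = x then 0 else 1) =
        ∑ u, (c u x : ℝ) * (g u - g x) + ∑ v, (c x v : ℝ) * (g v - g x) := by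
      intro c hc
      simp only [hbx, if_true]
      congr 1
      · refine sum_congr rfl fun u _ => ?_
        by_cases hu : u = x
        · rw [hu, hc]; simp
        · rw [if_neg hu]; ring
      · refine sum_congr rfl fun u _ => ?_
        by_cases hu : u = x
        · rw [hu, hc]; simp
        · rw [if_neg hu]; ring
    have hbxx : b x x = 0 := step_loop hx hp hq
    rw [q2 b hbxx, q2 a hx, hK, if_neg hpx, if_neg hqx] at q1
    simp only [if_true] at q1
    rw [q1]; ring
  have hcount : ∑ u, (b u x : ℝ) + ∑ v, (b x v : ℝ) = 2 * ((m : ℝ) - 1) := by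
    have q1 : ind b x = m - 1 := by rw [hb, ind_step_self hp hq, hin]
    have q2 : outd b x = m - 1 := by rw [hb, outd_step_self hp hq, hout]
    have q3 : (∑ u, (b u x : ℝ)) = ((ind b x : ℕ) : ℝ) := by unfold ind; push_cast; rfl
    have q4 : (∑ u, (b x u : ℝ)) = ((outd b x : ℕ) : ℝ) := by unfold outd; push_cast; rfl
    rw [q3, q4, q1, q2]
    push_cast [Nat.cast_sub hm]
    ring
  -- neighbours in `b` are neighbours in `a` or ... : support
  have hsup : ∀ u, u ≠ x → 1 ≤ b u x + b x u → 1 ≤ a u x + a x u := by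
    intro u hu hub
    have e1 : b u x ≤ a u x := by
      rw [hb]; unfold step
      rw [if_neg (by push Not; exact ⟨hpx, hqx⟩)]
      split_ifs with i1 i2 i3
      · omega
      · exact absurd i2.1 hu
      · exact absurd i3.2.symm hqx
      · exact le_rfl
    have e2 : b x u ≤ a x u := by
      rw [hb]; unfold step
      rw [if_neg (by push Not; exact ⟨hpx, hqx⟩)]
      split_ifs with i1 i2 i3
      · omega
      · omega
      · exact absurd i3.1.symm hpx
      · exact le_rfl
    omega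
  have hdist : ∀ u, u ≠ x → 1 ≤ b u x + b x u → (k u - k p) ^ 2 ≤ s' * (r' * A ^ 2) := by
    intro u hu hub
    have e1 := hS u hu (hsup u hu hub) k
    have e2 : (k u - k p) ^ 2 = (k p - k u) ^ 2 := by ring
    rw [e2]
    exact e1.trans (mul_le_mul_of_nonneg_left hen hs')
  have hbxx : b x x = 0 := step_loop hx hp hq
  -- cross term
  set cr := ∑ u, (b u x : ℝ) * ((g u - g x) * (k u - k p)) +
    ∑ v, (b x v : ℝ) * ((g v - g x) * (k v - k p)) with hcr
  have hsplit : bx b g k = cr + (k p - k x) * -(α + β) := by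
    rw [← hKb, hcr, mul_add, mul_sum, mul_sum]
    simp only [hbx]
    have e2 : ∑ u, (b u x : ℝ) * ((g u - g x) * (k u - k x)) =
        ∑ u, (b u x : ℝ) * ((g u - g x) * (k u - k p)) +
        ∑ u, (k p - k x) * ((b u x : ℝ) * (g u - g x)) := by
      rw [← sum_add_distrib]; exact sum_congr rfl fun u _ => by ring
    have e3 : ∑ u, (b x u : ℝ) * ((g u - g x) * (k u - k x)) =
        ∑ u, (b x u : ℝ) * ((g u - g x) * (k u - k p)) +
        ∑ u, (k p - k x) * ((b x u : ℝ) * (g u - g x)) := by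
      rw [← sum_add_distrib]; exact sum_congr rfl fun u _ => by ring
    rw [e2, e3]; ring
  have hsecond : (k p - k x) * -(α + β) ≤ r' * A ^ 2 := by
    have e1 := (h1 k).trans (mul_le_mul_of_nonneg_left hen hr')
    have e2 : (α + β) ^ 2 ≤ A ^ 2 := by
      have e3 : |α + β| ≤ |A| := by rw [abs_of_nonneg hA0]; exact abs_add_le _ _
      exact sq_le_sq.2 e3
    have e3 : ((k p - k x) * -(α + β)) ^ 2 ≤ (r' * A ^ 2) ^ 2 := by
      have e4 : ((k p - k x) * -(α + β)) ^ 2 = (k p - k x) ^ 2 * (α + β) ^ 2 := by ring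
      rw [e4]
      calc (k p - k x) ^ 2 * (α + β) ^ 2 ≤ (r' * (r' * A ^ 2)) * A ^ 2 :=
            mul_le_mul e1 e2 (sq_nonneg _) (by positivity)
        _ = _ := by ring
    exact le_of_abs_le (abs_le_of_sq_le_sq e3 (by positivity))
  have hcross : cr ≤ Real.sqrt (2 * (m - 1) * s' * r' * ex a x g) * A := by
    have hb1 : ex b x g ≤ ex a x g := by rw [p1]; nlinarith [sq_nonneg α, sq_nonneg β]
    -- weighted Cauchy-Schwarz over `Y ⊕ Y`
    have e1 : cr ^ 2 ≤ ex b x g * (∑ u, (b u x : ℝ) * (k u - k p) ^ 2 +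
        ∑ v, (b x v : ℝ) * (k v - k p) ^ 2) := by
      have e2 := sum_mul_sq_le_sq_mul_sq (univ : Finset (Y ⊕ Y))
        (Sum.elim (fun u => √(b u x : ℝ) * (g u - g x)) (fun v => √(b x v : ℝ) * (g v - g x)))
        (Sum.elim (fun u => √(b u x : ℝ) * (k u - k p)) (fun v => √(b x v : ℝ) * (k v - k p)))
      simp only [Fintype.sum_sum_type, Sum.elim_inl, Sum.elim_inr] at e2
      have s1 : ∀ n : ℕ, √(n : ℝ) * √(n : ℝ) = n := fun n =>
        Real.mul_self_sqrt (Nat.cast_nonneg n)
      have f1 : cr = ∑ u, √(b u x : ℝ) * (g u - g x) * (√(b u x : ℝ) * (k u - k p)) +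
          ∑ v, √(b x v : ℝ) * (g v - g x) * (√(b x v : ℝ) * (k v - k p)) := by
        rw [hcr]; congr 1
        · refine sum_congr rfl fun u _ => ?_
          nth_rewrite 1 [← s1 (b u x)]; ring
        · refine sum_congr rfl fun u _ => ?_
          nth_rewrite 1 [← s1 (b x u)]; ring
      have f2 : ex b x g = ∑ u, (√(b u x : ℝ) * (g u - g x)) ^ 2 +
          ∑ v, (√(b x v : ℝ) * (g v - g x)) ^ 2 := by
        unfold ex; congr 1
        · refine sum_congr rfl fun u _ => ?_
          nth_rewrite 1 [← s1 (b u x)]; ring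
        · refine sum_congr rfl fun u _ => ?_
          nth_rewrite 1 [← s1 (b x u)]; ring
      have f3 : ∑ u, (b u x : ℝ) * (k u - k p) ^ 2 + ∑ v, (b x v : ℝ) * (k v - k p) ^ 2 =
          ∑ u, (√(b u x : ℝ) * (k u - k p)) ^ 2 + ∑ v, (√(b x v : ℝ) * (k v - k p)) ^ 2 := by
        congr 1
        · refine sum_congr rfl fun u _ => ?_
          nth_rewrite 1 [← s1 (b u x)]; ring
        · refine sum_congr rfl fun u _ => ?_
          nth_rewrite 1 [← s1 (b x u)]; ring
      rw [f1, f2, f3]; exact e2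
    have e2 : ∑ u, (b u x : ℝ) * (k u - k p) ^ 2 + ∑ v, (b x v : ℝ) * (k v - k p) ^ 2 ≤
        2 * ((m : ℝ) - 1) * (s' * (r' * A ^ 2)) := by
      rw [← hcount, add_mul, sum_mul, sum_mul]
      apply add_le_add
      · refine sum_le_sum fun u _ => ?_
        rcases Nat.eq_zero_or_pos (b u x) with h0 | h0
        · rw [h0]; simp
        · have hu : u ≠ x := fun h => by rw [h, hbxx] at h0; omega
          exact mul_le_mul_of_nonneg_left (hdist u hu (by omega)) (Nat.cast_nonneg _)
      · refine sum_le_sum fun u _ => ?_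
        rcases Nat.eq_zero_or_pos (b x u) with h0 | h0
        · rw [h0]; simp
        · have hu : u ≠ x := fun h => by rw [h, hbxx] at h0; omega
          exact mul_le_mul_of_nonneg_left (hdist u hu (by omega)) (Nat.cast_nonneg _)
    have hm1 : (0 : ℝ) ≤ (m : ℝ) - 1 := by
      have : (1 : ℝ) ≤ m := by exact_mod_cast hm
      linarith
    have hexa : 0 ≤ ex a x g := ex_nonneg _ _ _
    have e3 : cr ^ 2 ≤ (Real.sqrt (2 * (m - 1) * s' * r' * ex a x g) * A) ^ 2 := by
      rw [mul_pow, Real.sq_sqrt (by positivity)]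
      calc cr ^ 2 ≤ ex b x g * (2 * ((m : ℝ) - 1) * (s' * (r' * A ^ 2))) :=
            e1.trans (mul_le_mul_of_nonneg_left e2 (ex_nonneg _ _ _))
        _ ≤ ex a x g * (2 * ((m : ℝ) - 1) * (s' * (r' * A ^ 2))) :=
            mul_le_mul_of_nonneg_right hb1 (by positivity)
        _ = _ := by ring
    exact le_of_abs_le (abs_le_of_sq_le_sq e3 (by positivity))
  rw [hex_add b, p1, hsplit]
  have : 2 * (cr + (k p - k x) * -(α + β)) ≤
      2 * (Real.sqrt (2 * (m - 1) * s' * r' * ex a x g) * A) + 2 * (r' * A ^ 2) := by linarith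
  nlinarith

end Pool.Agent.PL
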