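import Pool.Agent.Lib.MP_6c3d62_pr.PL.NPb
import Pool.Agent.Lib.MP_6c3d62_pr.PL.One
import Pool.Agent.Lib.MP_6c3d62_pr.PL.Av

/-! One random step in the matrix form: `FZ.StepData`. -/

set_option autoImplicit false
set_option linter.unusedSectionVars false

open Finset

namespace Pool.Agent.PL

open Pool.Agent.PL.SD (StepData wf_step dsum_lin exp_le_quad)

variable {Y : Type*} [Fintype Y] [DecidableEq Y]

/-- Enumeration of a finite multiset. -/
theorem np_enum (w : Y → ℕ) {m : ℕ} (hm : ∑ y, w y = m) : ∃ p : Fin m → Y,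
    (∀ i, 1 ≤ w (p i)) ∧ ∀ F : Y → ℝ, ∑ i, F (p i) = ∑ y, (w y : ℝ) * F y := by
  have hc : Fintype.card (Σ y, Fin (w y)) = m := by
    rw [Fintype.card_sigma]; simpa using hm
  let e := Fintype.equivFinOfCardEq hc
  refine ⟨fun i => (e.symm i).1, fun i => ?_, fun F => ?_⟩
  · have := (e.symm i).2.pos
    exact this
  · rw [Equiv.sum_comp e.symm (fun s : (Σ y, Fin (w y)) => F s.1), Fintype.sum_sigma]
    refine sum_congr rfl fun y _ => ?_
    simp

theorem np_av {a : Net Y} {x : Y} {m : ℕ} {p q : Fin m → Y}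
    (hp : ∀ F : Y → ℝ, ∑ i, F (p i) = ∑ y, (a y x : ℝ) * F y)
    (hq : ∀ F : Y → ℝ, ∑ i, F (q i) = ∑ y, (a x y : ℝ) * F y) (F : Y → Y → ℝ) :
    av a x m F = (∑ i : Fin m, ∑ j : Fin m, F (p i) (q j)) / (m : ℝ) ^ 2 := by
  unfold av
  congr 1
  have h1 : ∀ i : Fin m, ∑ j : Fin m, F (p i) (q j) = ∑ v, (a x v : ℝ) * F (p i) v :=
    fun i => hq (F (p i))
  rw [sum_congr rfl fun i _ => h1 i, hp (fun u => ∑ v, (a x v : ℝ) * F u v)]
  refine sum_congr rfl fun u _ => ?_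
  rw [mul_sum]
  exact sum_congr rfl fun v _ => by ring

/-- The resistance bound. -/
noncomputable def npr (τ : ℝ) (m : ℕ) : ℝ := 6 / 5 * (1 / m + 2 * τ)

theorem npr_nonneg {τ : ℝ} (hτ : 0 ≤ τ) (m : ℕ) : 0 ≤ npr τ m := by unfold npr; positivity

theorem npr_six {τ : ℝ} {m : ℕ} (hτ : τ ≤ 1 / 64) (hm : 33 ≤ m) : 6 * npr τ m ≤ 1 := by
  unfold npr
  have h33 : (33 : ℝ) ≤ m := by exact_mod_cast hm
  have : 1 / (m : ℝ) ≤ 1 / 33 := one_div_le_one_div_of_le (by norm_num) h33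
  linarith

theorem npr_mul {τ T : ℝ} {m : ℕ} (hτ : 0 ≤ τ) (hm : 33 ≤ m) (hT : τ * m ≤ T) :
    (m : ℝ) * npr τ m ≤ 2 + 3 * T := by
  unfold npr
  have h33 : (33 : ℝ) ≤ m := by exact_mod_cast hm
  have h1 : (m : ℝ) * (6 / 5 * (1 / m + 2 * τ)) = 6 / 5 + 12 / 5 * (τ * m) := by
    field_simp; ring
  rw [h1]
  have : 0 ≤ τ * m := by positivity
  linarith

theorem np_mem_left {a : Net Y} {A : Finset Y} {x : Y} {m : ℕ} {s : ℝ} (h : Cls a A x m s)
    {u : Y} (hu : 1 ≤ a u x) : u ∈ A.erase x := by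
  rw [mem_erase]
  refine ⟨fun h1 => ?_, ?_⟩
  · rw [h1, h.loop] at hu; omega
  · by_contra h2
    rw [h.off u x (Or.inl h2)] at hu; omega

theorem np_mem_right {a : Net Y} {A : Finset Y} {x : Y} {m : ℕ} {s : ℝ} (h : Cls a A x m s)
    {u : Y} (hu : 1 ≤ a x u) : u ∈ A.erase x := by
  rw [mem_erase]
  refine ⟨fun h1 => ?_, ?_⟩
  · rw [h1, h.loop] at hu; omega
  · by_contra h2
    rw [h.off x u (Or.inr h2)] at hu; omega

theorem np_nbr {a : Net Y} {A : Finset Y} {x : Y} {m : ℕ} {τ : ℝ} (h : Cls a A x m τ)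
    (hτ : 0 ≤ τ) (hm : 1 ≤ m) {p : Y} (hp : p ∈ A.erase x) : ResLe a (1 / m + 2 * τ) p x := by
  refine resLe_nbr hm hτ h.inn h.out h.loop (mem_erase.1 hp).1 ?_
  intro u hu h1
  have h2 : u ∈ A.erase x := by
    rcases Nat.eq_zero_or_pos (a u x) with h3 | h3
    · exact np_mem_right h (by omega)
    · exact np_mem_left h h3
  exact h.res p hp u h2

section
variable {a : Net Y} {A : Finset Y} {x : Y} {m : ℕ} {τ : ℝ}

theorem np_fac (hm : 33 ≤ m) (hτ : 0 ≤ τ) (hτ1 : τ ≤ 1 / 64) {s : ℝ} (hs : 0 ≤ s) :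
    2 * (1 / (m : ℝ) + 2 * τ) < 1 ∧ s / (1 - 2 * (1 / (m : ℝ) + 2 * τ)) ≤ 6 / 5 * s := by
  have h33 : (33 : ℝ) ≤ m := by exact_mod_cast hm
  have h1 : 1 / (m : ℝ) ≤ 1 / 33 := one_div_le_one_div_of_le (by norm_num) h33
  have h2 : 2 * (1 / (m : ℝ) + 2 * τ) ≤ 1 / 6 := by linarith
  refine ⟨by linarith, ?_⟩
  rw [div_le_iff₀ (by linarith)]
  nlinarith

theorem np_step_res (h : Cls a A x m τ) (hm : 33 ≤ m) (hτ : 0 ≤ τ) (hτ1 : τ ≤ 1 / 64)
    {p q : Y} (hp : 1 ≤ a p x) (hq : 1 ≤ a x q) {y z : Y} {s : ℝ} (hs : 0 ≤ s)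
    (hyz : ResLe a s y z) : ResLe (step a x p q) (6 / 5 * s) y z := by
  have hf := np_fac hm hτ hτ1 hs
  exact (resLe_step (r := 1 / (m : ℝ) + 2 * τ) (by positivity) hf.1 hs hp hq
    (np_nbr h hτ (by omega) (np_mem_left h hp)) (np_nbr h hτ (by omega) (np_mem_right h hq)) hyz).mono hf.2

theorem np_step_cls (h : Cls a A x m τ) (hm : 33 ≤ m) (hτ : 0 ≤ τ) (hτ1 : τ ≤ 1 / 64)
    {p q : Y} (hp : 1 ≤ a p x) (hq : 1 ≤ a x q) :
    Cls (step a x p q) A x (m - 1) (6 / 5 * τ) where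
  off := step_off hp hq h.off
  loop := step_loop h.loop hp hq
  inn := by rw [ind_step_self hp hq, h.inn]
  out := by rw [outd_step_self hp hq, h.out]
  res := fun u hu v hv => np_step_res h hm hτ hτ1 hp hq hτ (h.res u hu v hv)

/-- The data of one random step, for one pair. -/
theorem np_stepData (h : Cls a A x m τ) (hm : 33 ≤ m) (hτ : 0 ≤ τ) (hτ1 : τ ≤ 1 / 64)
    {T : ℝ} (hT : τ * m ≤ T) {y z : Y} (hy : y ∈ A.erase x) (hz : z ∈ A.erase x)
    {p q : Fin m → Y} (hp1 : ∀ i, 1 ≤ a (p i) x) (hq1 : ∀ i, 1 ≤ a x (q i))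
    (hp : ∀ F : Y → ℝ, ∑ i, F (p i) = ∑ y, (a y x : ℝ) * F y)
    (hq : ∀ F : Y → ℝ, ∑ i, F (q i) = ∑ y, (a x y : ℝ) * F y) :
    StepData (univ : Finset (Fin m)) (fun i => pot a y z (p i) - pot a y z x)
      (fun i => pot a y z (q i) - pot a y z x) (exr a x y z) (res a y z) (npr τ m)
      (5 * τ * (2 + 3 * T)) τ (fun i j => res (step a x (p i) (q j)) y z)
      (fun i j => exr (step a x (p i) (q j)) x y z) := by
  have hyz := h.res y hy z hz
  have hg := isPot_pot hyz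
  have hyx : x ≠ y := fun e => (mem_erase.1 hy).1 e.symm
  have hzx : x ≠ z := fun e => (mem_erase.1 hz).1 e.symm
  have hT0 : 0 ≤ T := le_trans (by positivity) hT
  have hr := npr_nonneg hτ m
  have hm1 : 1 ≤ m := by omega
  have hg' : ∀ i j, IsPot (step a x (p i) (q j)) y z (pot (step a x (p i) (q j)) y z) :=
    fun i j => isPot_pot (np_step_res h hm hτ hτ1 (hp1 i) (hq1 j) hτ hyz)
  have hres : ∀ i j, res (step a x (p i) (q j)) y z =
      en (step a x (p i) (q j)) (pot (step a x (p i) (q j)) y z) := fun i j => res_eq (hg' i j)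
  have hres0 : res a y z = en a (pot a y z) := res_eq hg
  have hx1 : ∀ i j, ResLe (step a x (p i) (q j)) (npr τ m) (p i) x := fun i j =>
    np_step_res h hm hτ hτ1 (hp1 i) (hq1 j) (by positivity) (np_nbr h hτ hm1 (np_mem_left h (hp1 i)))
  have hx2 : ∀ i j, ResLe (step a x (p i) (q j)) (npr τ m) (q j) x := fun i j =>
    np_step_res h hm hτ hτ1 (hp1 i) (hq1 j) (by positivity) (np_nbr h hτ hm1 (np_mem_right h (hq1 j)))
  have hrange : ∀ u ∈ A.erase x, |pot a y z u - pot a y z x| ≤ τ := by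
    intro u hu
    have e1 := pot_range hg (h.res u hu y hy) (h.res u hu z hz)
    have e2 := pot_range hg ((np_nbr h hτ hm1 hy).symm) ((np_nbr h hτ hm1 hz).symm)
    have e3 : pot a y z y - pot a y z z ≤ τ := by
      rw [← isPot_en hg, ← res_eq hg]; exact res_le hτ hyz
    rw [abs_le]; constructor <;> linarith [e1.1, e1.2, e2.1, e2.2]
  have habs : ∀ u v : ℝ, (|u| + |v|) ^ 2 ≤ 2 * (u ^ 2 + v ^ 2) := by
    intro u v
    have e1 := sq_abs u
    have e2 := sq_abs v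
    nlinarith [sq_nonneg (|u| - |v|)]
  refine ⟨?_, ?_, hr, npr_six hτ1 hm, by positivity, hτ, ?_, ?_, ?_, ?_, ?_, ?_, ?_⟩
  · rw [hp (fun u => (pot a y z u - pot a y z x) ^ 2), hq (fun u => (pot a y z u - pot a y z x) ^ 2)]
    rfl
  · rw [hp (fun u => (pot a y z u - pot a y z x)), hq (fun u => (pot a y z u - pot a y z x))]
    exact kirchhoff hg hyx hzx
  · exact fun i _ => hrange _ (np_mem_left h (hp1 i))
  · exact fun i _ => hrange _ (np_mem_right h (hq1 i))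
  · intro i _ j _
    have e1 := res_step (hp1 i) (hq1 j) hg (hg' i j)
    have e2 := en_nonneg (step a x (p i) (q j))
      (fun v => pot (step a x (p i) (q j)) y z v - pot a y z v)
    rw [hres, hres0, e1]; linarith
  · intro i _ j _
    have e1 := res_step (hp1 i) (hq1 j) hg (hg' i j)
    have e2 := en_diff_le (hp1 i) (hq1 j) hg (hg' i j) hr (hx1 i j) (hx2 i j)
    have e3 := mul_le_mul_of_nonneg_left
      (habs (pot a y z (p i) - pot a y z x) (pot a y z (q j) - pot a y z x)) hr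
    rw [hres, hres0, e1]; linarith
  · intro i _ j _
    unfold exr ex; positivity
  · intro i _ j _
    set α := pot a y z (p i) - pot a y z x
    set β := pot a y z (q j) - pot a y z x
    have hS : ∀ u, u ≠ x → 1 ≤ a u x + a x u →
        ResLe (step a x (p i) (q j)) (6 / 5 * τ) (p i) u := by
      intro u _ h1
      have h2 : u ∈ A.erase x := by
        rcases Nat.eq_zero_or_pos (a u x) with h3 | h3
        · exact np_mem_right h (by omega)
        · exact np_mem_left h h3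
      exact np_step_res h hm hτ hτ1 (hp1 i) (hq1 j) hτ (h.res _ (np_mem_left h (hp1 i)) u h2)
    have e1 := ex_step_le h.loop hm1 h.inn h.out (hp1 i) (hq1 j) hyx hzx hg (hg' i j) hr
      (by positivity : 0 ≤ 6 / 5 * τ) (hx1 i j) (hx2 i j) hS
    have e2 := habs α β
    have hX : 0 ≤ ex a x (pot a y z) := ex_nonneg _ _ _
    have e3 : 3 * npr τ m * (|α| + |β|) ^ 2 ≤ 6 * npr τ m * (α ^ 2 + β ^ 2) := by
      have := mul_le_mul_of_nonneg_left e2 (by positivity : 0 ≤ 3 * npr τ m)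
      linarith
    have hm1' : (0 : ℝ) ≤ (m : ℝ) - 1 := by
      have : (1 : ℝ) ≤ m := by exact_mod_cast hm1
      linarith
    have e4 : √(2 * ((m : ℝ) - 1) * (6 / 5 * τ) * npr τ m * ex a x (pot a y z)) * (|α| + |β|) ≤
        √(5 * τ * (2 + 3 * T) * ex a x (pot a y z) * (α ^ 2 + β ^ 2)) := by
      apply Real.le_sqrt_of_sq_le
      rw [mul_pow, Real.sq_sqrt (by positivity)]
      have f1 : (2 * ((m : ℝ) - 1) * (6 / 5 * τ) * npr τ m * ex a x (pot a y z)) *
          (|α| + |β|) ^ 2 ≤ (2 * ((m : ℝ) - 1) * (6 / 5 * τ) * npr τ m * ex a x (pot a y z)) *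
          (2 * (α ^ 2 + β ^ 2)) := mul_le_mul_of_nonneg_left e2 (by positivity)
      refine f1.trans ?_
      have f2 : ((m : ℝ) - 1) * npr τ m ≤ 2 + 3 * T := by
        have := npr_mul hτ hm hT
        have : ((m : ℝ) - 1) * npr τ m ≤ m * npr τ m := by nlinarith
        linarith
      have f3 : (2 * ((m : ℝ) - 1) * (6 / 5 * τ) * npr τ m * ex a x (pot a y z)) *
          (2 * (α ^ 2 + β ^ 2)) = (24 / 5 * τ * (ex a x (pot a y z) * (α ^ 2 + β ^ 2))) *
          (((m : ℝ) - 1) * npr τ m) := by ring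
      rw [f3]
      calc (24 / 5 * τ * (ex a x (pot a y z) * (α ^ 2 + β ^ 2))) * (((m : ℝ) - 1) * npr τ m)
          ≤ (24 / 5 * τ * (ex a x (pot a y z) * (α ^ 2 + β ^ 2))) * (2 + 3 * T) :=
            mul_le_mul_of_nonneg_left f2 (by positivity)
        _ ≤ 5 * τ * (2 + 3 * T) * ex a x (pot a y z) * (α ^ 2 + β ^ 2) := by
            have : 0 ≤ τ * (2 + 3 * T) * (ex a x (pot a y z) * (α ^ 2 + β ^ 2)) := by positivity
            linarith
    have e5 : exr (step a x (p i) (q j)) x y z =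
        ex (step a x (p i) (q j)) x (pot (step a x (p i) (q j)) y z) := rfl
    rw [e5]
    have e6 : exr a x y z = ex a x (pot a y z) := rfl
    rw [e6]
    linarith
  · rw [card_univ, Fintype.card_fin]; omega

end

end Pool.Agent.PL
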