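import Pool.Agent.Lib.MP_6c3d62_pr.Mg.G062

/-! T10, direct proof: one pair `(y, z)`, one node `x`. -/

set_option autoImplicit false
set_option linter.unusedSectionVars false

open Finset

namespace Pool.Agent.PL

open Pool.Agent.PL.SD (psi psi_zero wf Xf Gf Lf Pf two_le_Xf Gf_nonneg Lf_nonneg Pf_le
  exp_le_quad)

/-! ### Loops do not matter -/

section Loops

variable {Y : Type*} [Fintype Y] [DecidableEq Y]

theorem np_bil_unloop (a : Net Y) (x : Y) (f g : Y → ℝ) :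
    bil (unloop a x) f g = bil a f g := by
  unfold bil
  refine Finset.sum_congr rfl fun y _ => Finset.sum_congr rfl fun z _ => ?_
  unfold unloop
  split_ifs with h
  · obtain ⟨rfl, rfl⟩ := h
    simp
  · rfl

theorem np_resLe_unloop (a : Net Y) (x : Y) (r : ℝ) (y z : Y) :
    ResLe (unloop a x) r y z ↔ ResLe a r y z := by
  unfold ResLe en
  simp only [np_bil_unloop]

theorem np_isPot_unloop (a : Net Y) (x : Y) (y z : Y) :
    IsPot (unloop a x) y z = IsPot a y z := by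
  funext g
  unfold IsPot
  simp only [np_bil_unloop]

theorem np_res_unloop (a : Net Y) (x : Y) (y z : Y) :
    res (unloop a x) y z = res a y z := by
  unfold res
  simp only [np_resLe_unloop]

theorem np_pot_unloop (a : Net Y) (x : Y) (y z : Y) :
    pot (unloop a x) y z = pot a y z := by
  classical
  have key : ∀ P Q : (Y → ℝ) → Prop, P = Q →
      (if h : ∃ g, P g then Classical.choose h else 0) =
        (if h : ∃ g, Q g then Classical.choose h else 0) := by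
    rintro P Q rfl
    rfl
  have h1 := key _ _ (np_isPot_unloop a x y z)
  unfold pot
  exact h1

theorem np_ex_unloop (a : Net Y) (x : Y) (g : Y → ℝ) :
    ex (unloop a x) x g = ex a x g := by
  unfold ex
  congr 1
  · refine Finset.sum_congr rfl fun p _ => ?_
    unfold unloop
    split_ifs with h
    · obtain ⟨rfl, -⟩ := h
      simp
    · rfl
  · refine Finset.sum_congr rfl fun p _ => ?_
    unfold unloop
    split_ifs with h
    · obtain ⟨-, rfl⟩ := h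
      simp
    · rfl

theorem np_exr_unloop (a : Net Y) (x : Y) (y z : Y) :
    exr (unloop a x) x y z = exr a x y z := by
  unfold exr
  rw [np_pot_unloop, np_ex_unloop]

theorem np_ind_unloop (a : Net Y) (x : Y) : ind (unloop a x) x + a x x = ind a x := by
  unfold ind
  rw [← Finset.add_sum_erase univ (fun z => a z x) (mem_univ x),
    ← Finset.add_sum_erase univ (fun z => unloop a x z x) (mem_univ x)]
  have h1 : unloop a x x x = 0 := by
    unfold unloop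
    simp
  have h2 : ∑ z ∈ univ.erase x, unloop a x z x = ∑ z ∈ univ.erase x, a z x := by
    refine Finset.sum_congr rfl fun z hz => ?_
    unfold unloop
    rw [if_neg (fun h => (Finset.ne_of_mem_erase hz) h.1)]
  rw [h1, h2]
  omega

theorem np_outd_unloop (a : Net Y) (x : Y) : outd (unloop a x) x + a x x = outd a x := by
  unfold outd
  rw [← Finset.add_sum_erase univ (fun z => a x z) (mem_univ x),
    ← Finset.add_sum_erase univ (fun z => unloop a x x z) (mem_univ x)]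
  have h1 : unloop a x x x = 0 := by
    unfold unloop
    simp
  have h2 : ∑ z ∈ univ.erase x, unloop a x x z = ∑ z ∈ univ.erase x, a x z := by
    refine Finset.sum_congr rfl fun z hz => ?_
    unfold unloop
    rw [if_neg (fun h => (Finset.ne_of_mem_erase hz) h.2)]
  rw [h1, h2]
  omega

theorem np_cls {a : Net Y} {A : Finset Y} {x : Y} {N m : ℕ} {ρ : ℝ} (hx : x ∈ A)
    (hm : m + a x x = N) (hR : Reg a A N) (hG : Good a A ρ) : Cls (unloop a x) A x m ρ := by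
  have h1 := np_ind_unloop a x
  have h2 := np_outd_unloop a x
  rw [hR.inn x hx] at h1
  rw [hR.out x hx] at h2
  refine ⟨?_, ?_, by omega, by omega, ?_⟩
  · intro y z h
    unfold unloop
    split_ifs
    · rfl
    · exact hR.off y z h
  · unfold unloop
    simp
  · intro y hy z hz
    rw [np_resLe_unloop]
    exact hG y (Finset.mem_of_mem_erase hy) z (Finset.mem_of_mem_erase hz)

end Loops

/-- A node with small resistance to another node has many strands which are no loops. -/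
theorem np_ind_ge {Y : Type*} [Fintype Y] [DecidableEq Y] {b : Net Y} {x y : Y} {ρ : ℝ} {m : ℕ}
    (hρ : 0 ≤ ρ) (hxy : x ≠ y) (hin : ind b x = m) (hout : outd b x = m)
    (h : ResLe b ρ x y) : 1 ≤ 2 * ρ * m := by
  classical
  have h1 := h (fun u => if u = x then 1 else 0)
  have h2 : en b (fun u => if u = x then (1 : ℝ) else 0) ≤ 2 * m := by
    have e1 : en b (fun u => if u = x then (1 : ℝ) else 0) ≤
        ∑ u, ∑ v, ((if u = x then (b u v : ℝ) else 0) + (if v = x then (b u v : ℝ) else 0)) := by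
      unfold en bil
      refine sum_le_sum fun u _ => sum_le_sum fun v _ => ?_
      have : (0 : ℝ) ≤ b u v := Nat.cast_nonneg _
      by_cases hu : u = x <;> by_cases hv : v = x <;> simp [hu, hv]
    refine e1.trans (le_of_eq ?_)
    simp only [sum_add_distrib]
    have e2 : ∑ u, ∑ v, (if u = x then (b u v : ℝ) else 0) = outd b x := by
      rw [sum_comm]
      simp only [sum_ite_eq', mem_univ, if_true]
      unfold outd; push_cast; rfl
    have e3 : ∑ u, ∑ v, (if v = x then (b u v : ℝ) else 0) = ind b x := by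
      simp only [sum_ite_eq', mem_univ, if_true]
      unfold ind; push_cast; rfl
    rw [e2, e3, hin, hout]; ring
  simp only [if_true, if_neg hxy.symm] at h1
  have h3 : ρ * en b (fun u => if u = x then (1 : ℝ) else 0) ≤ ρ * (2 * m) :=
    mul_le_mul_of_nonneg_left h2 hρ
  nlinarith

theorem np_log_le {m : ℝ} (hm : 1 ≤ m) : Real.log m ≤ 2 * √m := by
  have h0 : 0 < √m := Real.sqrt_pos.2 (by linarith)
  have h1 := Real.log_le_sub_one_of_pos h0
  rw [Real.log_sqrt (by linarith)] at h1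
  linarith

theorem np_Xf_le {ω ϱ m Z : ℝ} (hω : 0 ≤ ω) (hϱ : 8 ≤ ϱ) (hm : 1 ≤ m) (hZ0 : 0 ≤ Z)
    (hZ : ω * √m ≤ 12 * Z) (hZ1 : 4000 * ϱ * Z ≤ 1) : Xf ω ϱ (2 + ϱ ^ 2 / 4) m ≤ 11 / 5 := by
  have hl := np_log_le hm
  have hm0 : 0 ≤ m := by linarith
  have hsq : √m ^ 2 = m := Real.sq_sqrt hm0
  have e1 : 4 * ω * ϱ * Real.log m ≤ 96 * (ϱ * Z) := by
    calc 4 * ω * ϱ * Real.log m ≤ 4 * ω * ϱ * (2 * √m) :=
          mul_le_mul_of_nonneg_left hl (by positivity)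
      _ = 8 * ϱ * (ω * √m) := by ring
      _ ≤ 8 * ϱ * (12 * Z) := mul_le_mul_of_nonneg_left hZ (by positivity)
      _ = _ := by ring
  have e2 : 4 * (2 + ϱ ^ 2 / 4) * ω ^ 2 * m ≤ 576 * (ϱ * Z) ^ 2 := by
    have f1 : (ω * √m) ^ 2 ≤ (12 * Z) ^ 2 := pow_le_pow_left₀ (by positivity) hZ 2
    have f2 : 2 + ϱ ^ 2 / 4 ≤ ϱ ^ 2 := by nlinarith
    calc 4 * (2 + ϱ ^ 2 / 4) * ω ^ 2 * m = 4 * (2 + ϱ ^ 2 / 4) * (ω * √m) ^ 2 := by
          rw [mul_pow, hsq]; ring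
      _ ≤ 4 * (2 + ϱ ^ 2 / 4) * (12 * Z) ^ 2 := mul_le_mul_of_nonneg_left f1 (by positivity)
      _ ≤ 4 * ϱ ^ 2 * (12 * Z) ^ 2 := by
          apply mul_le_mul_of_nonneg_right _ (by positivity)
          linarith
      _ = _ := by ring
  have e3 : ϱ * Z ≤ 1 / 4000 := by linarith
  have e4 : 0 ≤ ϱ * Z := by positivity
  have e5 : 4 * ω * ϱ * Real.log m + 4 * (2 + ϱ ^ 2 / 4) * ω ^ 2 * m ≤ 3 / 100 := by
    nlinarith
  unfold Xf
  have e6 : Real.exp (3 / 100) ≤ 11 / 10 := by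
    have := exp_le_quad (u := 3 / 100) (by rw [abs_le]; constructor <;> norm_num)
    linarith
  have e7 := Real.exp_le_exp.2 e5
  linarith

/-- The value at the start. -/
theorem np_start {lam θ τ ϱ T m X : ℝ} (hlam : 0 ≤ lam) (hϱ : 0 ≤ ϱ) (hX : 0 ≤ X)
    (hm : 1 ≤ m) (hT : τ * m ≤ T) : ∃ σ : ℝ, 0 < σ ∧
    wf lam θ σ τ ϱ 64 m 0 X ≤ lam * X * ((3 / 2 * √(2 * (2 + ϱ ^ 2 / 4) *
      Real.exp (4 * (10 + 5 * ϱ) * √T + 24 * ϱ)) +
      2 * (Real.exp (4 * (10 + 5 * ϱ) * √T + 24 * ϱ) * (64 + 4 * ϱ))) / √(√m)) +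
      Real.exp (-θ) * (1 + Xf ((1 + θ) * lam * τ ^ 2) ϱ (2 + ϱ ^ 2 / 4) m) := by
  have hP := Pf_le hϱ hm hT
  set P := Real.exp (4 * (10 + 5 * ϱ) * √T + 24 * ϱ) with hPd
  have hP0 : 0 < P := Real.exp_pos _
  set c2 := 2 + ϱ ^ 2 / 4 with hc2
  have hc20 : 0 ≤ c2 := by positivity
  have hPf0 : 0 < Pf τ ϱ m := Real.exp_pos _
  have hl := np_log_le hm
  have hl0 := Real.log_nonneg hm
  have hm0 : 0 < m := by linarith
  set s := √(√m) with hs
  have hs1 : 1 ≤ s := by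
    rw [hs, Real.one_le_sqrt, Real.one_le_sqrt]; exact hm
  have hs0 : 0 < s := by linarith
  have hs2 : s ^ 2 = √m := Real.sq_sqrt (Real.sqrt_nonneg _)
  have hs4 : s ^ 4 = m := by
    have : s ^ 4 = (s ^ 2) ^ 2 := by ring
    rw [this, hs2, Real.sq_sqrt hm0.le]
  have hG0 := Gf_nonneg (τ := τ) (ϱ := ϱ) hm
  have hG : Gf τ ϱ m ≤ 2 * P / s ^ 2 := by
    unfold Gf
    rw [div_le_div_iff₀ hm0 (by positivity)]
    have e1 : Pf τ ϱ m * Real.log m ≤ P * (2 * s ^ 2) := by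
      rw [hs2]; exact mul_le_mul hP hl hl0 hP0.le
    calc Pf τ ϱ m * Real.log m * s ^ 2 ≤ P * (2 * s ^ 2) * s ^ 2 :=
          mul_le_mul_of_nonneg_right e1 (by positivity)
      _ = 2 * P * s ^ 4 := by ring
      _ = 2 * P * m := by rw [hs4]
  have hL : Lf τ ϱ 64 m ≤ P * (64 + 4 * ϱ) / s := by
    unfold Lf
    rw [div_le_div_iff₀ hm0 hs0]
    have e1 : Pf τ ϱ m * (64 + 2 * ϱ * Real.log m) ≤ P * (64 + 2 * ϱ * (2 * s ^ 2)) := by
      rw [hs2]
      refine mul_le_mul hP ?_ (by positivity) hP0.le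
      have := mul_le_mul_of_nonneg_left hl (by positivity : 0 ≤ 2 * ϱ)
      linarith
    have e2 : 64 + 2 * ϱ * (2 * s ^ 2) ≤ (64 + 4 * ϱ) * s ^ 3 := by
      have f1 : 1 ≤ s ^ 3 := one_le_pow₀ hs1
      have f2 : s ^ 2 ≤ s ^ 3 := pow_le_pow_right₀ hs1 (by norm_num)
      have f3 := mul_le_mul_of_nonneg_left f2 (by positivity : 0 ≤ 4 * ϱ)
      nlinarith
    calc Pf τ ϱ m * (64 + 2 * ϱ * Real.log m) * s ≤ P * (64 + 2 * ϱ * (2 * s ^ 2)) * s :=
          mul_le_mul_of_nonneg_right e1 hs0.le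
      _ ≤ P * ((64 + 4 * ϱ) * s ^ 3) * s := by
          apply mul_le_mul_of_nonneg_right _ hs0.le
          exact mul_le_mul_of_nonneg_left e2 hP0.le
      _ = P * (64 + 4 * ϱ) * s ^ 4 := by ring
      _ = P * (64 + 4 * ϱ) * m := by rw [hs4]
  have hQ : √(c2 * Gf τ ϱ m) ≤ √(2 * c2 * P) / s := by
    rw [Real.sqrt_le_left (by positivity), div_pow, Real.sq_sqrt (by positivity)]
    calc c2 * Gf τ ϱ m ≤ c2 * (2 * P / s ^ 2) := mul_le_mul_of_nonneg_left hG hc20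
      _ = 2 * c2 * P / s ^ 2 := by ring
  set S := lam * X * √(c2 * Gf τ ϱ m) with hSd
  have hS0 : 0 ≤ S := by positivity
  have hS2 : S ^ 2 = lam ^ 2 * c2 * Gf τ ϱ m * X ^ 2 := by
    rw [hSd, mul_pow, Real.sq_sqrt (by positivity)]; ring
  have hθ0 := Real.exp_pos (-θ)
  refine ⟨S + Real.exp (-θ), by positivity, ?_⟩
  have hσ0 : 0 < S + Real.exp (-θ) := by positivity
  have k1 : psi (S + Real.exp (-θ)) 0 = (S + Real.exp (-θ)) / 2 := psi_zero hσ0.le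
  have k2 : lam ^ 2 * c2 / (4 * (S + Real.exp (-θ))) * Gf τ ϱ m * X ^ 2 ≤ S / 4 := by
    have : lam ^ 2 * c2 / (4 * (S + Real.exp (-θ))) * Gf τ ϱ m * X ^ 2 =
        S ^ 2 / (4 * (S + Real.exp (-θ))) := by rw [hS2]; field_simp
    rw [this, div_le_div_iff₀ (by positivity) (by norm_num)]
    nlinarith
  have k3 : lam * Lf τ ϱ 64 m * X ≤ lam * X * (P * (64 + 4 * ϱ) / s) := by
    have := mul_le_mul_of_nonneg_left hL (by positivity : 0 ≤ lam * X)
    linarith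
  have k4 : S ≤ lam * X * (√(2 * c2 * P) / s) := mul_le_mul_of_nonneg_left hQ (by positivity)
  have k5 : lam * X * ((3 / 2 * √(2 * c2 * P) + 2 * (P * (64 + 4 * ϱ))) / s) =
      3 / 2 * (lam * X * (√(2 * c2 * P) / s)) + 2 * (lam * X * (P * (64 + 4 * ϱ) / s)) := by
    field_simp
  unfold wf
  rw [k1, k5, mul_zero, Real.exp_zero, mul_one, ← hc2]
  linarith

/-- The numerical side conditions. -/
theorem np_num {C1 C2 κ ρ ϱ N m : ℝ} (hC1 : 1 ≤ C1) (hϱ : 8 ≤ ϱ) (hρ : 0 < ρ) (hκ : 1 ≤ κ)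
    (hC2 : (4000 * ϱ * C1) ^ 2 ≤ C2) (hN : C2 * κ ^ 4 ≤ N) (hNρ : N * ρ ≤ C1)
    (hmN : m ≤ N) (hm : 1 ≤ 2 * ρ * m) :
    32 ≤ m ∧ 4000 * (κ ^ 2 * ρ) ≤ 1 ∧ 4000 * ϱ * (κ ^ 2 * ρ * √m) ≤ 1 ∧
      √(√N) ≤ 2 * C1 * √(√m) := by
  have hD : 32000 ≤ 4000 * ϱ * C1 := by nlinarith
  set D := 4000 * ϱ * C1 with hDd
  have hm0 : 0 < m := by
    by_contra h
    rw [not_lt] at h
    nlinarith [mul_nonneg hρ.le (neg_nonneg.2 h)]
  have hκ1 : 1 ≤ κ ^ 2 := one_le_pow₀ hκ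
  have hκ2 : 1 ≤ κ ^ 4 := one_le_pow₀ hκ
  have hκ24 : κ ^ 2 ≤ κ ^ 4 := pow_le_pow_right₀ hκ (by norm_num)
  have hC20 : 0 < C2 := by nlinarith
  -- `D² κ⁴ ρ ≤ C1`
  have h1 : D ^ 2 * (κ ^ 4 * ρ) ≤ C1 := by
    calc D ^ 2 * (κ ^ 4 * ρ) ≤ C2 * (κ ^ 4 * ρ) :=
          mul_le_mul_of_nonneg_right hC2 (by positivity)
      _ = (C2 * κ ^ 4) * ρ := by ring
      _ ≤ N * ρ := mul_le_mul_of_nonneg_right hN hρ.le
      _ ≤ C1 := hNρ
  have hN0 : 0 < N := by
    have : 0 < C2 * κ ^ 4 := by positivity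
    linarith
  have hN1 : N ≤ 2 * C1 * m := by
    have e1 : N * 1 ≤ N * (2 * ρ * m) := mul_le_mul_of_nonneg_left hm hN0.le
    have e2 : 2 * m * (N * ρ) ≤ 2 * m * C1 := mul_le_mul_of_nonneg_left hNρ (by positivity)
    nlinarith
  have hC1D : C1 ≤ D := by rw [hDd]; nlinarith
  refine ⟨?_, ?_, ?_, ?_⟩
  · have e1 : D ^ 2 ≤ N := by
      calc D ^ 2 ≤ C2 := hC2
        _ = C2 * 1 := (mul_one _).symm
        _ ≤ C2 * κ ^ 4 := mul_le_mul_of_nonneg_left hκ2 hC20.le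
        _ ≤ N := hN
    have e2 : 64 * C1 ≤ D ^ 2 := by nlinarith
    have e3 : 64 * C1 ≤ 2 * C1 * m := by linarith
    have e4 : 0 < C1 := by linarith
    nlinarith
  · have e1 : κ ^ 2 * ρ ≤ κ ^ 4 * ρ := mul_le_mul_of_nonneg_right hκ24 hρ.le
    have e2 : D * (D * (κ ^ 4 * ρ)) ≤ D * 1 := by nlinarith
    have e3 : D * (κ ^ 4 * ρ) ≤ 1 := le_of_mul_le_mul_left e2 (by linarith)
    have e4 : 4000 * (κ ^ 4 * ρ) ≤ D * (κ ^ 4 * ρ) :=
      mul_le_mul_of_nonneg_right (by linarith) (by positivity)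
    linarith
  · have e1 : (κ ^ 2 * ρ * √m) ^ 2 = κ ^ 4 * ρ * (ρ * m) := by
      rw [mul_pow, Real.sq_sqrt hm0.le]; ring
    have e2 : ρ * m ≤ C1 := by
      calc ρ * m ≤ ρ * N := mul_le_mul_of_nonneg_left hmN hρ.le
        _ = N * ρ := mul_comm _ _
        _ ≤ C1 := hNρ
    have e3 : (D * (κ ^ 2 * ρ * √m)) ^ 2 ≤ C1 ^ 2 := by
      calc (D * (κ ^ 2 * ρ * √m)) ^ 2 = (D ^ 2 * (κ ^ 4 * ρ)) * (ρ * m) := by
            rw [mul_pow, e1]; ring
        _ ≤ C1 * C1 := mul_le_mul h1 e2 (by positivity) (by linarith)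
        _ = C1 ^ 2 := by ring
    have e4 : D * (κ ^ 2 * ρ * √m) ≤ C1 := by
      have := abs_le_of_sq_le_sq e3 (by linarith)
      exact (le_abs_self _).trans this
    have e5 : C1 * (4000 * ϱ * (κ ^ 2 * ρ * √m)) ≤ C1 * 1 := by
      rw [hDd] at e4; linarith
    exact le_of_mul_le_mul_left e5 (by linarith)
  · have hs0 : 0 ≤ √(√m) := Real.sqrt_nonneg _
    have hs2 : √(√m) ^ 2 = √m := Real.sq_sqrt (Real.sqrt_nonneg _)
    have hs4 : √(√m) ^ 4 = m := by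
      have : √(√m) ^ 4 = (√(√m) ^ 2) ^ 2 := by ring
      rw [this, hs2, Real.sq_sqrt hm0.le]
    apply Real.sqrt_le_iff.2
    refine ⟨by positivity, ?_⟩
    apply Real.sqrt_le_iff.2
    refine ⟨by positivity, ?_⟩
    have e1 : ((2 * C1 * √(√m)) ^ 2) ^ 2 = 16 * C1 ^ 4 * √(√m) ^ 4 := by ring
    rw [e1, hs4]
    have e2 : 2 * C1 ≤ 16 * C1 ^ 4 := by
      have : C1 ≤ C1 ^ 4 := le_self_pow₀ hC1 (by norm_num)
      linarith
    calc N ≤ 2 * C1 * m := hN1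
      _ ≤ 16 * C1 ^ 4 * m := mul_le_mul_of_nonneg_right e2 hm0.le

/-- One pair `(y, z)`, one node `x` (loops allowed): mean of the positive part of the increment of
`exp (lam rc)`, `lam = κ/ρ`. -/
theorem node_pair4 (C1 : ℝ) (hC1 : 1 ≤ C1) : ∃ C2 : ℝ, 1 ≤ C2 ∧
    ∀ (Y : Type) [Fintype Y] [DecidableEq Y] (a : Net Y) (A : Finset Y) (x y z : Y) (N : ℕ)
      (ρ κ : ℝ),
    0 < ρ → (N : ℝ) * ρ ≤ C1 → x ∈ A → y ∈ A.erase x → z ∈ A.erase x → Reg a A N → Good a A ρ →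
    1 ≤ κ → C2 * κ ^ 4 ≤ N →
    fr x (fun b => max (Real.exp (κ / ρ * rc b (2 * ρ) y z)
        - Real.exp (κ / ρ * rc a (2 * ρ) y z)) 0) N a
      ≤ C2 * (κ / ρ) / Real.sqrt (Real.sqrt N) * exr a x y z
          * Real.exp (κ / ρ * rc a (2 * ρ) y z)
        + 3 * (A.card : ℝ) ^ 2 * Real.exp (-κ) := by
  obtain ⟨ϱ, hϱd⟩ : ∃ ϱ, ϱ = 2 + 3 * (2 * C1) := ⟨_, rfl⟩
  have hϱ8 : 8 ≤ ϱ := by linarith
  set K := 3 / 2 * √(2 * (2 + ϱ ^ 2 / 4) * Real.exp (4 * (10 + 5 * ϱ) * √(2 * C1) + 24 * ϱ)) +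
      2 * (Real.exp (4 * (10 + 5 * ϱ) * √(2 * C1) + 24 * ϱ) * (64 + 4 * ϱ)) with hK
  have hK0 : 0 ≤ K := by positivity
  refine ⟨(4000 * ϱ * C1) ^ 2 + 2 * C1 * K, ?_, ?_⟩
  · have : 1 ≤ 4000 * ϱ * C1 := by nlinarith
    have h2 : 1 ≤ (4000 * ϱ * C1) ^ 2 := one_le_pow₀ this
    have h3 : 0 ≤ 2 * C1 * K := by positivity
    linarith
  intro Y _ _ a A x y z N ρ κ hρ hNρ hx hy hz hR hG hκ hN
  set C2 := (4000 * ϱ * C1) ^ 2 + 2 * C1 * K with hC2
  have hyx : y ≠ x := (mem_erase.1 hy).1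
  have hyA : y ∈ A := (mem_erase.1 hy).2
  -- loops
  have hI := np_ind_unloop a x
  have hO := np_outd_unloop a x
  rw [hR.inn x hx] at hI
  rw [hR.out x hx] at hO
  obtain ⟨m, hm⟩ : ∃ m, m = ind (unloop a x) x := ⟨_, rfl⟩
  have hmN : m + a x x = N := by omega
  have hC := np_cls hx hmN hR hG
  set b := unloop a x with hb
  have hfr := fr_unloop (x := x) (fun b => max (Real.exp (κ / ρ * rc b (2 * ρ) y z)
        - Real.exp (κ / ρ * rc a (2 * ρ) y z)) 0) m (a x x) a rfl hC.inn hC.out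
  rw [hmN] at hfr
  have hres : res b y z = res a y z := np_res_unloop a x y z
  have hexr : exr b x y z = exr a x y z := np_exr_unloop a x y z
  have hRa : rc a (2 * ρ) y z = res a y z :=
    rc_eq (by positivity) ((hG y hyA z (mem_erase.1 hz).2).mono (by linarith))
  have hRb : rc b (2 * ρ) y z = rc a (2 * ρ) y z := by
    rw [hRa, ← hres]
    exact rc_eq (by positivity) ((hC.res y hy z hz).mono (by linarith))
  rw [hfr, ← hRb]
  have hxy : ResLe b ρ x y := (np_resLe_unloop a x ρ x y).2 (hG x hx y hyA)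
  have hge := np_ind_ge hρ.le hyx.symm hC.inn hC.out hxy
  have hmN' : (m : ℝ) ≤ N := by
    have : m ≤ N := by omega
    exact_mod_cast this
  have hC1K : 0 ≤ 2 * C1 * K := by positivity
  obtain ⟨n1, n2, n3, n4⟩ := np_num hC1 hϱ8 hρ hκ (by rw [hC2]; linarith) hN hNρ hmN' hge
  have hm1 : (1 : ℝ) ≤ m := by linarith
  have hT : 2 * ρ * m ≤ 2 * C1 := by
    have : (m : ℝ) * ρ ≤ N * ρ := mul_le_mul_of_nonneg_right hmN' hρ.le
    linarith
  have hκρ : 0 ≤ κ / ρ := by positivity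
  have hX0 : 0 ≤ exr b x y z := ex_nonneg _ _ _
  obtain ⟨σ, hσ, hst⟩ := np_start (lam := κ / ρ) (θ := 2 * κ) (τ := 2 * ρ) (ϱ := ϱ) (T := 2 * C1)
    (m := m) (X := exr b x y z) hκρ (by linarith) hX0 hm1 hT
  have hρκ : κ / ρ * ρ = κ := by field_simp
  have w1 : (1 + 2 * κ) * (κ / ρ) * (2 * ρ) ^ 2 = 4 * ((1 + 2 * κ) * κ) * ρ := by
    field_simp; ring
  have w1' : (1 + 2 * κ) * (κ / ρ) * (2 * ρ) ^ 2 ≤ 12 * (κ ^ 2 * ρ) := by
    rw [w1]
    have : (1 + 2 * κ) * κ ≤ 3 * κ ^ 2 := by nlinarith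
    nlinarith
  have w1'' : 0 ≤ (1 + 2 * κ) * (κ / ρ) * (2 * ρ) ^ 2 := by positivity
  have w2 : 3 * (κ / ρ) * (2 * ρ) ^ 2 = 12 * κ * ρ := by field_simp; ring
  have w2' : 3 * (κ / ρ) * (2 * ρ) ^ 2 ≤ 12 * (κ ^ 2 * ρ) := by
    rw [w2]
    have : κ ≤ κ ^ 2 := le_self_pow₀ hκ (by norm_num)
    nlinarith
  have w2'' : 0 ≤ 3 * (κ / ρ) * (2 * ρ) ^ 2 := by positivity
  have hlog : (0.6 : ℝ) ≤ Real.log 2 := by
    have := Real.log_two_gt_d9; linarith
  have hmain := np_main (lam := κ / ρ) (θ := 2 * κ) (σ := σ) (Λ := 3 * (κ / ρ)) (T := 2 * C1) hρ hy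
    hz hC (by exact_mod_cast n1) hT (by nlinarith) hκρ (by linarith) hσ (by linarith)
    (by
      have : (1 + 2 * κ) * (2 * (κ / ρ * (64 * (2 * ρ) ^ 2))) =
        128 * ((1 + 2 * κ) * (κ / ρ) * (2 * ρ) ^ 2) := by ring
      rw [this]; linarith)
    (by positivity) (by linarith)
  refine hmain.trans ?_
  rw [← hϱd]
  have hsq0 : 0 ≤ √(m : ℝ) := Real.sqrt_nonneg _
  have hXf1 := np_Xf_le (ω := (1 + 2 * κ) * (κ / ρ) * (2 * ρ) ^ 2) (m := (m : ℝ))
    (Z := κ ^ 2 * ρ * √(m : ℝ)) w1'' hϱ8 hm1 (by positivity)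
    (by have := mul_le_mul_of_nonneg_right w1' hsq0; linarith) n3
  have hXf2 := np_Xf_le (ω := 3 * (κ / ρ) * (2 * ρ) ^ 2) (m := (m : ℝ))
    (Z := κ ^ 2 * ρ * √(m : ℝ)) w2'' hϱ8 hm1 (by positivity)
    (by have := mul_le_mul_of_nonneg_right w2' hsq0; linarith) n3
  -- the failure part
  have hA2 : (2 : ℝ) ≤ A.card := by
    have : 2 ≤ A.card := by
      have := Finset.one_lt_card.2 ⟨x, hx, y, hyA, hyx.symm⟩
      omega
    exact_mod_cast this
  have hfail : Real.exp (κ / ρ * (2 * ρ)) * ∑ u ∈ A.erase x, ∑ v ∈ A.erase x,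
      Xf (3 * (κ / ρ) * (2 * ρ) ^ 2) ϱ (2 + ϱ ^ 2 / 4) m *
        Real.exp (3 * (κ / ρ) * (res b u v - 2 * ρ)) ≤
      11 / 5 * (A.card : ℝ) ^ 2 * Real.exp (-κ) := by
    have e1 : ∀ u ∈ A.erase x, ∀ v ∈ A.erase x,
        Xf (3 * (κ / ρ) * (2 * ρ) ^ 2) ϱ (2 + ϱ ^ 2 / 4) m *
        Real.exp (3 * (κ / ρ) * (res b u v - 2 * ρ)) ≤ 11 / 5 * Real.exp (-(3 * κ)) := by
      intro u hu v hv
      refine mul_le_mul hXf2 ?_ (Real.exp_pos _).le (by norm_num)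
      apply Real.exp_le_exp.2
      have h1 := res_le hρ.le (hC.res u hu v hv)
      have h2 : 3 * (κ / ρ) * (res b u v - 2 * ρ) ≤ 3 * (κ / ρ) * (-ρ) :=
        mul_le_mul_of_nonneg_left (by linarith) (by positivity)
      have h3 : 3 * (κ / ρ) * (-ρ) = -(3 * κ) := by
        have : 3 * (κ / ρ) * (-ρ) = -(3 * (κ / ρ * ρ)) := by ring
        rw [this, hρκ]
      linarith
    have e2 : ∑ u ∈ A.erase x, ∑ v ∈ A.erase x,
        Xf (3 * (κ / ρ) * (2 * ρ) ^ 2) ϱ (2 + ϱ ^ 2 / 4) m *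
        Real.exp (3 * (κ / ρ) * (res b u v - 2 * ρ)) ≤
        (A.card : ℝ) ^ 2 * (11 / 5 * Real.exp (-(3 * κ))) := by
      refine (sum_le_sum fun u hu => sum_le_sum fun v hv => e1 u hu v hv).trans ?_
      rw [sum_const, sum_const, nsmul_eq_mul, nsmul_eq_mul]
      have e3 : ((A.erase x).card : ℝ) ≤ A.card := by
        exact_mod_cast card_le_card (erase_subset x A)
      have e4 : (0 : ℝ) ≤ (A.erase x).card := Nat.cast_nonneg _
      have e5 : 0 ≤ 11 / 5 * Real.exp (-(3 * κ)) := by positivity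
      have e6 : ((A.erase x).card : ℝ) * (A.erase x).card ≤ (A.card : ℝ) * A.card :=
        mul_le_mul e3 e3 e4 (by linarith)
      have e7 := mul_le_mul_of_nonneg_right e6 e5
      calc ((A.erase x).card : ℝ) * (((A.erase x).card : ℝ) * (11 / 5 * Real.exp (-(3 * κ))))
          = ((A.erase x).card : ℝ) * (A.erase x).card * (11 / 5 * Real.exp (-(3 * κ))) := by ring
        _ ≤ (A.card : ℝ) * A.card * (11 / 5 * Real.exp (-(3 * κ))) := e7
        _ = _ := by ring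
    have e3 : Real.exp (κ / ρ * (2 * ρ)) * Real.exp (-(3 * κ)) = Real.exp (-κ) := by
      rw [← Real.exp_add]
      congr 1
      have : κ / ρ * (2 * ρ) = 2 * (κ / ρ * ρ) := by ring
      rw [this, hρκ]; ring
    calc _ ≤ Real.exp (κ / ρ * (2 * ρ)) * ((A.card : ℝ) ^ 2 * (11 / 5 * Real.exp (-(3 * κ)))) :=
          mul_le_mul_of_nonneg_left e2 (Real.exp_pos _).le
      _ = 11 / 5 * (A.card : ℝ) ^ 2 * (Real.exp (κ / ρ * (2 * ρ)) * Real.exp (-(3 * κ))) := by ring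
      _ = _ := by rw [e3]
  -- the main part
  have hmn : Real.exp (κ / ρ * res b y z) *
      wf (κ / ρ) (2 * κ) σ (2 * ρ) ϱ 64 m 0 (exr b x y z) ≤
      C2 * (κ / ρ) / √(√(N : ℝ)) * exr a x y z * Real.exp (κ / ρ * rc b (2 * ρ) y z) +
      4 / 5 * (A.card : ℝ) ^ 2 * Real.exp (-κ) := by
    have hRb' : rc b (2 * ρ) y z = res b y z := by rw [hRb, hRa, hres]
    rw [hRb', hexr] at *
    have hNpos : 0 < √(√(N : ℝ)) := by
      apply Real.sqrt_pos.2
      apply Real.sqrt_pos.2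
      linarith
    have hmpos : 0 < √(√(m : ℝ)) := by
      apply Real.sqrt_pos.2
      apply Real.sqrt_pos.2
      linarith
    have e1 : K / √(√(m : ℝ)) ≤ C2 / √(√(N : ℝ)) := by
      rw [div_le_div_iff₀ hmpos hNpos]
      calc K * √(√(N : ℝ)) ≤ K * (2 * C1 * √(√(m : ℝ))) := mul_le_mul_of_nonneg_left n4 hK0
        _ = 2 * C1 * K * √(√(m : ℝ)) := by ring
        _ ≤ C2 * √(√(m : ℝ)) := by
            apply mul_le_mul_of_nonneg_right _ hmpos.le
            rw [hC2]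
            have : 0 ≤ (4000 * ϱ * C1) ^ 2 := by positivity
            linarith
    have e2 : Real.exp (-(2 * κ)) * (1 + Xf ((1 + 2 * κ) * (κ / ρ) * (2 * ρ) ^ 2) ϱ
        (2 + ϱ ^ 2 / 4) m) ≤ 16 / 5 * Real.exp (-(2 * κ)) := by
      have := mul_le_mul_of_nonneg_left (by linarith : 1 + Xf ((1 + 2 * κ) * (κ / ρ) *
        (2 * ρ) ^ 2) ϱ (2 + ϱ ^ 2 / 4) m ≤ 16 / 5) (Real.exp_pos (-(2 * κ))).le
      linarith
    have e3 : κ / ρ * exr a x y z * (K / √(√(m : ℝ))) ≤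
        κ / ρ * exr a x y z * (C2 / √(√(N : ℝ))) :=
      mul_le_mul_of_nonneg_left e1 (by positivity)
    have e4 := hst.trans (add_le_add e3 e2)
    have e5 := mul_le_mul_of_nonneg_left e4 (Real.exp_pos (κ / ρ * res b y z)).le
    refine e5.trans ?_
    have e6 : Real.exp (κ / ρ * res b y z) * Real.exp (-(2 * κ)) ≤ Real.exp (-κ) := by
      rw [← Real.exp_add]
      apply Real.exp_le_exp.2
      have h1 := res_le hρ.le (hC.res y hy z hz)
      have h2 := mul_le_mul_of_nonneg_left h1 hκρ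
      rw [hρκ] at h2
      linarith
    have e7 : 16 / 5 * Real.exp (-κ) ≤ 4 / 5 * (A.card : ℝ) ^ 2 * Real.exp (-κ) := by
      apply mul_le_mul_of_nonneg_right _ (Real.exp_pos _).le
      nlinarith
    have e8 : Real.exp (κ / ρ * res b y z) * (κ / ρ * exr a x y z * (C2 / √(√(N : ℝ))) +
        16 / 5 * Real.exp (-(2 * κ))) = C2 * (κ / ρ) / √(√(N : ℝ)) * exr a x y z *
          Real.exp (κ / ρ * res b y z) +
        16 / 5 * (Real.exp (κ / ρ * res b y z) * Real.exp (-(2 * κ))) := by ring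
    rw [e8]
    linarith
  linarith

end Pool.Agent.PL
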