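import Mathlib

/-! Averages over one random matching at a node: real analysis only. -/

namespace Pool.Agent.PL.SD

open Finset

set_option linter.unusedSectionVars false

variable {Q : Type*}

/-- Data of one random step: `α a` and `β b` are the potential differences of the in-strands and
the out-strands, `X` the energy at the node, `R` the resistance, `R' a b`, `X' a b` the values
after the in-port `a` has been joined with the out-port `b`. -/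
structure StepData (A : Finset Q) (α β : Q → ℝ) (X R r κ τ : ℝ) (R' X' : Q → Q → ℝ) : Prop where
  hX : X = ∑ a ∈ A, α a ^ 2 + ∑ b ∈ A, β b ^ 2
  kir : ∑ a ∈ A, α a + ∑ b ∈ A, β b = 0
  r0 : 0 ≤ r
  r6 : 6 * r ≤ 1
  κ0 : 0 ≤ κ
  τ0 : 0 ≤ τ
  hα : ∀ a ∈ A, |α a| ≤ τ
  hβ : ∀ a ∈ A, |β a| ≤ τ
  hR1 : ∀ a ∈ A, ∀ b ∈ A, R + 2 * (α a * β b) ≤ R' a b
  hR2 : ∀ a ∈ A, ∀ b ∈ A, R' a b ≤ R + 2 * (α a * β b) + 2 * r * (α a ^ 2 + β b ^ 2)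
  hX0 : ∀ a ∈ A, ∀ b ∈ A, 0 ≤ X' a b
  hX' : ∀ a ∈ A, ∀ b ∈ A, X' a b ≤ X - (1 - 6 * r) * (α a ^ 2 + β b ^ 2) +
    2 * √(κ * X * (α a ^ 2 + β b ^ 2))
  m2 : 2 ≤ A.card

theorem dsum_lin (A : Finset Q) (c0 c1 c2 : ℝ) (F S G : Q → Q → ℝ) :
    ∑ a ∈ A, ∑ b ∈ A, (c0 + F a b + c1 * S a b + c2 * G a b) = (A.card : ℝ) ^ 2 * c0 +
      ∑ a ∈ A, ∑ b ∈ A, F a b + c1 * ∑ a ∈ A, ∑ b ∈ A, S a b +
      c2 * ∑ a ∈ A, ∑ b ∈ A, G a b := by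
  simp only [sum_add_distrib, sum_const, nsmul_eq_mul, mul_sum]
  ring

namespace StepData

variable {A : Finset Q} {α β : Q → ℝ} {X R r κ τ : ℝ} {R' X' : Q → Q → ℝ}

theorem X_nonneg (D : StepData A α β X R r κ τ R' X') : 0 ≤ X := by
  rw [D.hX]
  exact add_nonneg (sum_nonneg fun _ _ => sq_nonneg _) (sum_nonneg fun _ _ => sq_nonneg _)

theorem m_pos (D : StepData A α β X R r κ τ R' X') : (2 : ℝ) ≤ (A.card : ℝ) := by
  exact_mod_cast D.m2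

theorem sum_s (D : StepData A α β X R r κ τ R' X') :
    ∑ a ∈ A, ∑ b ∈ A, (α a ^ 2 + β b ^ 2) = A.card * X := by
  simp only [sum_add_distrib, sum_const, nsmul_eq_mul]
  rw [D.hX, ← mul_sum]; ring

theorem sum_ab (D : StepData A α β X R r κ τ R' X') :
    ∑ a ∈ A, ∑ b ∈ A, (α a * β b) ≤ 0 := by
  have h1 : ∑ a ∈ A, ∑ b ∈ A, (α a * β b) = (∑ a ∈ A, α a) * ∑ b ∈ A, β b := by
    rw [sum_mul_sum]
  rw [h1]
  have h2 : ∑ b ∈ A, β b = - ∑ a ∈ A, α a := by linarith [D.kir]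
  rw [h2]; nlinarith [sq_nonneg (∑ a ∈ A, α a)]

theorem s_le (D : StepData A α β X R r κ τ R' X') {a b : Q} (ha : a ∈ A) (hb : b ∈ A) :
    α a ^ 2 + β b ^ 2 ≤ X := by
  rw [D.hX]
  have h1 := single_le_sum (f := fun a => α a ^ 2) (fun i _ => sq_nonneg _) ha
  have h2 := single_le_sum (f := fun b => β b ^ 2) (fun i _ => sq_nonneg _) hb
  exact add_le_add h1 h2

theorem s_le' (D : StepData A α β X R r κ τ R' X') {a b : Q} (ha : a ∈ A) (hb : b ∈ A) :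
    α a ^ 2 + β b ^ 2 ≤ 2 * τ ^ 2 := by
  have h1 := sq_le_sq' (by linarith [abs_le.1 (D.hα a ha)]) (abs_le.1 (D.hα a ha)).2
  have h2 := sq_le_sq' (by linarith [abs_le.1 (D.hβ b hb)]) (abs_le.1 (D.hβ b hb)).2
  linarith

theorem X_le (D : StepData A α β X R r κ τ R' X') : X ≤ 2 * A.card * τ ^ 2 := by
  have h1 : ∀ a ∈ A, α a ^ 2 ≤ τ ^ 2 := fun a ha =>
    sq_le_sq' (by linarith [abs_le.1 (D.hα a ha)]) (abs_le.1 (D.hα a ha)).2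
  have h2 : ∀ a ∈ A, β a ^ 2 ≤ τ ^ 2 := fun a ha =>
    sq_le_sq' (by linarith [abs_le.1 (D.hβ a ha)]) (abs_le.1 (D.hβ a ha)).2
  have h3 := sum_le_sum h1
  have h4 := sum_le_sum h2
  simp only [sum_const, nsmul_eq_mul] at h3 h4
  rw [D.hX]; linarith

theorem sum_s2 (D : StepData A α β X R r κ τ R' X') :
    ∑ a ∈ A, ∑ b ∈ A, (α a ^ 2 + β b ^ 2) ^ 2 ≤ A.card * X ^ 2 := by
  calc ∑ a ∈ A, ∑ b ∈ A, (α a ^ 2 + β b ^ 2) ^ 2
      ≤ ∑ a ∈ A, ∑ b ∈ A, X * (α a ^ 2 + β b ^ 2) := by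
        refine sum_le_sum fun a ha => sum_le_sum fun b hb => ?_
        rw [sq]
        exact mul_le_mul_of_nonneg_right (D.s_le ha hb) (by positivity)
    _ = X * (A.card * X) := by rw [← D.sum_s, mul_sum]; simp only [mul_sum]
    _ = _ := by ring

theorem sum_a2b2 (D : StepData A α β X R r κ τ R' X') :
    ∑ a ∈ A, ∑ b ∈ A, (α a * β b) ^ 2 ≤ X ^ 2 / 4 := by
  have h1 : ∑ a ∈ A, ∑ b ∈ A, (α a * β b) ^ 2 = (∑ a ∈ A, α a ^ 2) * ∑ b ∈ A, β b ^ 2 := by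
    rw [sum_mul_sum]; refine sum_congr rfl fun a _ => sum_congr rfl fun b _ => by ring
  rw [h1, D.hX]
  nlinarith [sq_nonneg (∑ a ∈ A, α a ^ 2 - ∑ b ∈ A, β b ^ 2)]

/-- `∑ √(κ X s) ≤ m² X √(κ/m)`. -/
theorem sum_sqrt (D : StepData A α β X R r κ τ R' X') :
    ∑ a ∈ A, ∑ b ∈ A, √(κ * X * (α a ^ 2 + β b ^ 2)) ≤ (A.card : ℝ) ^ 2 * (X * √(κ / A.card)) := by
  have hm := D.m_pos
  have hX := D.X_nonneg
  have hκ := D.κ0
  set m : ℝ := (A.card : ℝ)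
  have h1 : (∑ p ∈ A ×ˢ A, √(κ * X * (α p.1 ^ 2 + β p.2 ^ 2))) ^ 2 ≤
      (m ^ 2) * ∑ p ∈ A ×ˢ A, (κ * X * (α p.1 ^ 2 + β p.2 ^ 2)) := by
    have h2 := sq_sum_le_card_mul_sum_sq (s := A ×ˢ A)
      (f := fun p => √(κ * X * (α p.1 ^ 2 + β p.2 ^ 2)))
    rw [card_product] at h2
    have h3 : ∑ p ∈ A ×ˢ A, √(κ * X * (α p.1 ^ 2 + β p.2 ^ 2)) ^ 2 =
        ∑ p ∈ A ×ˢ A, (κ * X * (α p.1 ^ 2 + β p.2 ^ 2)) :=
      sum_congr rfl fun p _ => Real.sq_sqrt (by positivity)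
    rw [h3] at h2
    push_cast at h2
    rw [sq m]; exact h2
  have h2 : ∑ p ∈ A ×ˢ A, (κ * X * (α p.1 ^ 2 + β p.2 ^ 2)) = κ * X * (m * X) := by
    rw [← mul_sum, sum_product, D.sum_s]
  rw [h2] at h1
  have h3 : ∑ a ∈ A, ∑ b ∈ A, √(κ * X * (α a ^ 2 + β b ^ 2)) =
      ∑ p ∈ A ×ˢ A, √(κ * X * (α p.1 ^ 2 + β p.2 ^ 2)) := by rw [sum_product]
  rw [h3]
  apply le_of_abs_le
  apply abs_le_of_sq_le_sq _ (by positivity)
  refine h1.trans (le_of_eq ?_)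
  rw [mul_pow, mul_pow, Real.sq_sqrt (by positivity)]
  field_simp

/-- The error of one step. -/
noncomputable def eta (r κ m : ℝ) : ℝ := (12 * r + 4 * κ) / m + 4 * √(κ / m)

theorem sum_X' (D : StepData A α β X R r κ τ R' X') :
    ∑ a ∈ A, ∑ b ∈ A, X' a b ≤ (A.card : ℝ) ^ 2 * (X * (1 - 1 / A.card + eta r κ A.card)) := by
  have hm := D.m_pos
  have hX := D.X_nonneg
  have h1 : ∑ a ∈ A, ∑ b ∈ A, X' a b ≤ ∑ a ∈ A, ∑ b ∈ A, (X - (1 - 6 * r) *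
      (α a ^ 2 + β b ^ 2) + 2 * √(κ * X * (α a ^ 2 + β b ^ 2))) :=
    sum_le_sum fun a ha => sum_le_sum fun b hb => D.hX' a ha b hb
  have h2 : ∑ a ∈ A, ∑ b ∈ A, (X - (1 - 6 * r) * (α a ^ 2 + β b ^ 2) +
      2 * √(κ * X * (α a ^ 2 + β b ^ 2))) = (A.card : ℝ) ^ 2 * X - (1 - 6 * r) * (A.card * X) +
      2 * ∑ a ∈ A, ∑ b ∈ A, √(κ * X * (α a ^ 2 + β b ^ 2)) := by
    rw [← D.sum_s]
    simp only [sum_add_distrib, sum_sub_distrib, sum_const, nsmul_eq_mul, ← mul_sum]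
    ring
  rw [h2] at h1
  have h3 := D.sum_sqrt
  have hr := D.r0
  have hκ := D.κ0
  set m : ℝ := (A.card : ℝ)
  have h4 : (m : ℝ) ^ 2 * (X * (1 - 1 / m + eta r κ m)) = m ^ 2 * X - m * X +
      (12 * r + 4 * κ) * (m * X) + 4 * (m ^ 2 * (X * √(κ / m))) := by
    unfold eta; field_simp; ring
  rw [h4]
  have h5 : 0 ≤ m ^ 2 * (X * √(κ / m)) := by positivity
  have h6 : 0 ≤ (6 * r + 4 * κ) * (m * X) := by positivity
  linarith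

theorem sum_X'2 (D : StepData A α β X R r κ τ R' X') :
    ∑ a ∈ A, ∑ b ∈ A, X' a b ^ 2 ≤
      (A.card : ℝ) ^ 2 * (X ^ 2 * (1 - 1 / A.card + eta r κ A.card)) := by
  have hm := D.m_pos
  have hX := D.X_nonneg
  have hr := D.r0
  have hr6 := D.r6
  have hκ := D.κ0
  have h1 : ∑ a ∈ A, ∑ b ∈ A, X' a b ^ 2 ≤ ∑ a ∈ A, ∑ b ∈ A, (X ^ 2 +
      (α a ^ 2 + β b ^ 2) ^ 2 + (4 * κ * X - 2 * (1 - 6 * r) * X) * (α a ^ 2 + β b ^ 2) +
      4 * X * √(κ * X * (α a ^ 2 + β b ^ 2))) := by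
    refine sum_le_sum fun a ha => sum_le_sum fun b hb => ?_
    have e1 := D.hX' a ha b hb
    have e0 := D.hX0 a ha b hb
    set s := α a ^ 2 + β b ^ 2 with hs
    have hs0 : 0 ≤ s := by positivity
    set v := √(κ * X * s)
    have hv : v ^ 2 = κ * X * s := Real.sq_sqrt (by positivity)
    have hv0 : 0 ≤ v := Real.sqrt_nonneg _
    have e2 : X' a b ^ 2 ≤ (X - (1 - 6 * r) * s + 2 * v) ^ 2 := by
      exact pow_le_pow_left₀ e0 e1 2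
    have e3 : (X - (1 - 6 * r) * s + 2 * v) ^ 2 = X ^ 2 + (1 - 6 * r) ^ 2 * s ^ 2 +
        4 * v ^ 2 - 2 * (1 - 6 * r) * X * s + 4 * X * v - 4 * ((1 - 6 * r) * s * v) := by ring
    have e4 : (1 - 6 * r) ^ 2 * s ^ 2 ≤ s ^ 2 := by
      have : (1 - 6 * r) ^ 2 ≤ 1 := by nlinarith
      nlinarith [sq_nonneg s]
    have e5 : 0 ≤ (1 - 6 * r) * s * v := by
      have : 0 ≤ 1 - 6 * r := by linarith
      positivity
    rw [e3, hv] at e2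
    linarith
  have h2 : ∑ a ∈ A, ∑ b ∈ A, (X ^ 2 +
      (α a ^ 2 + β b ^ 2) ^ 2 + (4 * κ * X - 2 * (1 - 6 * r) * X) * (α a ^ 2 + β b ^ 2) +
      4 * X * √(κ * X * (α a ^ 2 + β b ^ 2))) = (A.card : ℝ) ^ 2 * X ^ 2 +
      ∑ a ∈ A, ∑ b ∈ A, (α a ^ 2 + β b ^ 2) ^ 2 +
      (4 * κ * X - 2 * (1 - 6 * r) * X) * (A.card * X) +
      4 * X * ∑ a ∈ A, ∑ b ∈ A, √(κ * X * (α a ^ 2 + β b ^ 2)) := by
    rw [← D.sum_s]
    exact dsum_lin A _ _ _ (fun a b => (α a ^ 2 + β b ^ 2) ^ 2) (fun a b => α a ^ 2 + β b ^ 2)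
      (fun a b => √(κ * X * (α a ^ 2 + β b ^ 2)))
  rw [h2] at h1
  have h3 := mul_le_mul_of_nonneg_left D.sum_sqrt (by positivity : 0 ≤ 4 * X)
  have h4 := D.sum_s2
  set m : ℝ := (A.card : ℝ)
  have h5 : (m : ℝ) ^ 2 * (X ^ 2 * (1 - 1 / m + eta r κ m)) = m ^ 2 * X ^ 2 - m * X ^ 2 +
      (12 * r + 4 * κ) * (m * X ^ 2) + 4 * X * (m ^ 2 * (X * √(κ / m))) := by
    unfold eta; field_simp; ring
  rw [h5]
  nlinarith

theorem sum_R' (D : StepData A α β X R r κ τ R' X') :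
    ∑ a ∈ A, ∑ b ∈ A, (R' a b - R) ≤ 2 * r * (A.card * X) := by
  calc ∑ a ∈ A, ∑ b ∈ A, (R' a b - R)
      ≤ ∑ a ∈ A, ∑ b ∈ A, (2 * (α a * β b) + 2 * r * (α a ^ 2 + β b ^ 2)) :=
        sum_le_sum fun a ha => sum_le_sum fun b hb => by linarith [D.hR2 a ha b hb]
    _ = 2 * ∑ a ∈ A, ∑ b ∈ A, (α a * β b) + 2 * r * (A.card * X) := by
        rw [← D.sum_s]
        have h1 := dsum_lin A 0 2 (2 * r) (fun _ _ => 0) (fun a b => α a * β b)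
          (fun a b => α a ^ 2 + β b ^ 2)
        simp only [add_zero, mul_zero, sum_const_zero, zero_add] at h1
        exact h1
    _ ≤ _ := by linarith [D.sum_ab]

theorem sum_R'2 (D : StepData A α β X R r κ τ R' X') :
    ∑ a ∈ A, ∑ b ∈ A, (R' a b - R) ^ 2 ≤ 2 * X ^ 2 + 8 * r ^ 2 * (A.card * X ^ 2) := by
  have hr := D.r0
  calc ∑ a ∈ A, ∑ b ∈ A, (R' a b - R) ^ 2
      ≤ ∑ a ∈ A, ∑ b ∈ A, (8 * (α a * β b) ^ 2 + 8 * r ^ 2 * (α a ^ 2 + β b ^ 2) ^ 2) := by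
        refine sum_le_sum fun a ha => sum_le_sum fun b hb => ?_
        have e1 := D.hR1 a ha b hb
        have e2 := D.hR2 a ha b hb
        set h := R' a b - R - 2 * (α a * β b) with hh
        have e3 : 0 ≤ h := by linarith
        have e4 : h ≤ 2 * r * (α a ^ 2 + β b ^ 2) := by linarith
        have e5 : h ^ 2 ≤ (2 * r * (α a ^ 2 + β b ^ 2)) ^ 2 := pow_le_pow_left₀ e3 e4 2
        have e6 : R' a b - R = 2 * (α a * β b) + h := by rw [hh]; ring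
        rw [e6]
        nlinarith [sq_nonneg (2 * (α a * β b) - h)]
    _ = 8 * ∑ a ∈ A, ∑ b ∈ A, (α a * β b) ^ 2 +
        8 * r ^ 2 * ∑ a ∈ A, ∑ b ∈ A, (α a ^ 2 + β b ^ 2) ^ 2 := by
        simp only [sum_add_distrib, mul_sum]
    _ ≤ 8 * (X ^ 2 / 4) + 8 * r ^ 2 * (A.card * X ^ 2) :=
        add_le_add (mul_le_mul_of_nonneg_left D.sum_a2b2 (by norm_num))
          (mul_le_mul_of_nonneg_left D.sum_s2 (by positivity))
    _ = _ := by ring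

theorem abs_R' (D : StepData A α β X R r κ τ R' X') {a b : Q} (ha : a ∈ A) (hb : b ∈ A) :
    |R' a b - R| ≤ 4 * τ ^ 2 := by
  have e1 := D.hR1 a ha b hb
  have e2 := D.hR2 a ha b hb
  have e3 := D.s_le' ha hb
  have hr := D.r0
  have hr6 := D.r6
  have h1 : |2 * (α a * β b)| ≤ α a ^ 2 + β b ^ 2 := by
    rw [abs_le]; constructor <;> nlinarith [sq_nonneg (α a + β b), sq_nonneg (α a - β b)]
  have h2 := abs_le.1 h1
  have h3 : 2 * r * (α a ^ 2 + β b ^ 2) ≤ α a ^ 2 + β b ^ 2 := by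
    have : 0 ≤ α a ^ 2 + β b ^ 2 := by positivity
    nlinarith
  rw [abs_le]; constructor <;> linarith

end StepData

end Pool.Agent.PL.SD
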