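import Pool.Agent.Lib.MP_6c3d62_pr.PL.NPa

/-! The supermartingale of one node: scalar functions. -/

namespace Pool.Agent.PL.SD

open Finset

set_option linter.unusedSectionVars false

/-- A smooth version of the positive part. -/
noncomputable def psi (σ z : ℝ) : ℝ := (z + √(z ^ 2 + σ ^ 2)) / 2

theorem psi_nonneg (σ z : ℝ) : 0 ≤ psi σ z := by
  unfold psi
  have h1 : |z| ≤ √(z ^ 2 + σ ^ 2) := Real.abs_le_sqrt (by nlinarith [sq_nonneg σ])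
  have := neg_abs_le z
  linarith

theorem le_psi (σ z : ℝ) : z ≤ psi σ z := by
  unfold psi
  have h1 : |z| ≤ √(z ^ 2 + σ ^ 2) := Real.abs_le_sqrt (by nlinarith [sq_nonneg σ])
  have := le_abs_self z
  linarith

theorem psi_zero {σ : ℝ} (h : 0 ≤ σ) : psi σ 0 = σ / 2 := by
  unfold psi; rw [zero_pow two_ne_zero, zero_add, zero_add, Real.sqrt_sq h]

/-- The slope of `psi`. -/
noncomputable def slope (σ z : ℝ) : ℝ := (1 + z / √(z ^ 2 + σ ^ 2)) / 2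

theorem slope_mem {σ : ℝ} (hσ : 0 < σ) (z : ℝ) : 0 ≤ slope σ z ∧ slope σ z ≤ 1 := by
  have h0 : 0 < √(z ^ 2 + σ ^ 2) := Real.sqrt_pos.2 (by positivity)
  have h1 : |z| ≤ √(z ^ 2 + σ ^ 2) := Real.abs_le_sqrt (by nlinarith [sq_nonneg σ])
  have h2 := abs_le.1 h1
  have h3 : -1 ≤ z / √(z ^ 2 + σ ^ 2) := by rw [le_div_iff₀ h0]; linarith
  have h4 : z / √(z ^ 2 + σ ^ 2) ≤ 1 := by rw [div_le_iff₀ h0]; linarith
  unfold slope; constructor <;> linarith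

theorem psi_add_le {σ : ℝ} (hσ : 0 < σ) (z d : ℝ) :
    psi σ (z + d) ≤ psi σ z + slope σ z * d + d ^ 2 / (4 * σ) := by
  have h0 : 0 < √(z ^ 2 + σ ^ 2) := Real.sqrt_pos.2 (by positivity)
  have hq : √(z ^ 2 + σ ^ 2) ^ 2 = z ^ 2 + σ ^ 2 := Real.sq_sqrt (by positivity)
  set q := √(z ^ 2 + σ ^ 2) with hqd
  have hσq : σ ≤ q := Real.le_sqrt_of_sq_le (by nlinarith [sq_nonneg z])
  have h1 : √((z + d) ^ 2 + σ ^ 2) ≤ q + z / q * d + d ^ 2 / (2 * q) := by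
    have e1 : q + z / q * d + d ^ 2 / (2 * q) = (2 * q ^ 2 + 2 * z * d + d ^ 2) / (2 * q) := by
      field_simp
    have e2 : 0 ≤ 2 * q ^ 2 + 2 * z * d + d ^ 2 := by
      rw [hq]; nlinarith [sq_nonneg (z + d), sq_nonneg z, sq_nonneg σ]
    rw [e1, Real.sqrt_le_left (by positivity), div_pow, le_div_iff₀ (by positivity)]
    have e3 : (z + d) ^ 2 + σ ^ 2 = q ^ 2 + 2 * z * d + d ^ 2 := by rw [hq]; ring
    rw [e3]
    nlinarith [sq_nonneg (2 * z * d + d ^ 2)]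
  have h2 : d ^ 2 / (2 * q) ≤ d ^ 2 / (2 * σ) := by
    apply div_le_div_of_nonneg_left (sq_nonneg d) (by positivity) (by linarith)
  have h3 : d ^ 2 / (4 * σ) = d ^ 2 / (2 * σ) / 2 := by field_simp; ring
  unfold psi slope
  rw [← hqd, h3]
  nlinarith

/-- `exp u ≤ 1 + u + u²` for `|u| ≤ 1`. -/
theorem exp_le_quad {u : ℝ} (h : |u| ≤ 1) : Real.exp u ≤ 1 + u + u ^ 2 := by
  have h1 := Real.abs_exp_sub_one_sub_id_le h
  have := le_abs_self (Real.exp u - 1 - u)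
  linarith

/-- `(e^z - 1)_+ ≤ 2 z_+ + e^{-θ} e^{(1+θ) z}`. -/
theorem exp_sub_one_le {θ z u : ℝ} (hθ : 0 ≤ θ) (hu : 0 ≤ u) (hzu : z ≤ u) :
    Real.exp z - 1 ≤ 2 * u + Real.exp (-θ) * Real.exp ((1 + θ) * z) := by
  rcases le_or_gt z 1 with h | h
  · rcases le_or_gt z 0 with h0 | h0
    · have : Real.exp z ≤ 1 := Real.exp_le_one_iff.2 h0
      have : 0 < Real.exp (-θ) * Real.exp ((1 + θ) * z) := by positivity
      linarith
    · have h1 := exp_le_quad (u := z) (by rw [abs_le]; constructor <;> linarith)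
      have : 0 < Real.exp (-θ) * Real.exp ((1 + θ) * z) := by positivity
      nlinarith
  · have h1 : Real.exp z ≤ Real.exp (-θ) * Real.exp ((1 + θ) * z) := by
      rw [← Real.exp_add]; apply Real.exp_le_exp.2; nlinarith
    linarith

/-! The coefficient functions. -/

/-- Corrects the factor `1 + 2 eta`. -/
noncomputable def Pf (τ ϱ m : ℝ) : ℝ :=
  Real.exp (4 * (10 + 5 * ϱ) * √(τ * m) + 24 * ϱ * (1 - 1 / m))

theorem one_le_Pf {τ ϱ m : ℝ} (hϱ : 0 ≤ ϱ) (hm : 1 ≤ m) : 1 ≤ Pf τ ϱ m := by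
  unfold Pf
  apply Real.one_le_exp
  have h1 : 1 / m ≤ 1 := by rw [div_le_one (by linarith)]; exact hm
  have h2 : 0 ≤ 24 * ϱ * (1 - 1 / m) := mul_nonneg (by positivity) (by linarith)
  have h3 : 0 ≤ √(τ * m) := Real.sqrt_nonneg _
  positivity

theorem Pf_le {τ ϱ m T : ℝ} (hϱ : 0 ≤ ϱ) (hm : 1 ≤ m) (hT : τ * m ≤ T) :
    Pf τ ϱ m ≤ Real.exp (4 * (10 + 5 * ϱ) * √T + 24 * ϱ) := by
  unfold Pf
  apply Real.exp_le_exp.2
  have h1 : 0 ≤ 1 / m := by positivity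
  have h3 : √(τ * m) ≤ √T := Real.sqrt_le_sqrt hT
  nlinarith

theorem sqrt_step {τ m : ℝ} (hτ : 0 ≤ τ) (hm : 2 ≤ m) :
    √(τ * (m - 1)) + √(τ / m) / 2 ≤ √(τ * m) := by
  have hm0 : 0 < m := by linarith
  have e1 : √(τ * m) ^ 2 = τ * m := Real.sq_sqrt (by positivity)
  have e2 : √(τ / m) ^ 2 = τ / m := Real.sq_sqrt (by positivity)
  have e3 : √(τ * m) * √(τ / m) = τ := by
    rw [← Real.sqrt_mul (by positivity)]
    have : τ * m * (τ / m) = τ ^ 2 := by field_simp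
    rw [this, Real.sqrt_sq hτ]
  have e4 : 0 ≤ √(τ * m) - √(τ / m) / 2 := by
    have : √(τ / m) ≤ √(τ * m) := by
      apply Real.sqrt_le_sqrt
      rw [div_le_iff₀ hm0]
      nlinarith [mul_nonneg hτ hm0.le]
    have := Real.sqrt_nonneg (τ / m)
    have := Real.sqrt_nonneg (τ * m)
    linarith
  have e5 : √(τ * (m - 1)) ≤ √(τ * m) - √(τ / m) / 2 := by
    rw [Real.sqrt_le_left e4]
    have : (√(τ * m) - √(τ / m) / 2) ^ 2 = √(τ * m) ^ 2 - √(τ * m) * √(τ / m) +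
      √(τ / m) ^ 2 / 4 := by ring
    rw [this, e1, e2, e3]
    have : 0 ≤ τ / m := by positivity
    nlinarith
  linarith

theorem eta_le {τ ϱ r m : ℝ} (hτ : 0 ≤ τ) (hτ1 : τ ≤ 1 / 64) (hϱ : 1 ≤ ϱ) (hm : 2 ≤ m)
    (hr : m * r ≤ ϱ) :
    StepData.eta r (5 * τ * ϱ) m ≤ 12 * ϱ / m ^ 2 + (10 + 5 * ϱ) * √(τ / m) := by
  have hm0 : 0 < m := by linarith
  unfold StepData.eta
  have h1 : 12 * r / m ≤ 12 * ϱ / m ^ 2 := by
    rw [div_le_div_iff₀ hm0 (by positivity)]; nlinarith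
  have hs0 : 0 ≤ √(τ / m) := Real.sqrt_nonneg _
  have hs : √(τ / m) ^ 2 = τ / m := Real.sq_sqrt (by positivity)
  have hs1 : √(τ / m) ≤ 1 / 8 := by
    rw [Real.sqrt_le_left (by norm_num), div_le_iff₀ hm0]
    linarith
  have h2 : 4 * (5 * τ * ϱ) / m ≤ 5 / 2 * ϱ * √(τ / m) := by
    have : 4 * (5 * τ * ϱ) / m = 20 * ϱ * √(τ / m) ^ 2 := by rw [hs]; field_simp; ring
    rw [this]
    nlinarith [mul_nonneg (by linarith : (0:ℝ) ≤ ϱ) hs0]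
  have h3 : √(5 * τ * ϱ / m) ≤ (5 + ϱ) / 2 * √(τ / m) := by
    have : 5 * τ * ϱ / m = (5 * ϱ) * (τ / m) := by field_simp
    rw [this, Real.sqrt_mul (by positivity)]
    apply mul_le_mul_of_nonneg_right _ hs0
    rw [Real.sqrt_le_left (by linarith)]
    nlinarith [sq_nonneg (5 - ϱ)]
  have h4 : (12 * r + 4 * (5 * τ * ϱ)) / m = 12 * r / m + 4 * (5 * τ * ϱ) / m := by ring
  rw [h4]
  nlinarith

theorem eta_nonneg {r κ m : ℝ} (hr : 0 ≤ r) (hκ : 0 ≤ κ) (hm : 0 < m) :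
    0 ≤ StepData.eta r κ m := by unfold StepData.eta; positivity

theorem Pf_step {τ ϱ r m : ℝ} (hτ : 0 ≤ τ) (hτ1 : τ ≤ 1 / 64) (hϱ : 1 ≤ ϱ) (hm : 2 ≤ m)
    (hr0 : 0 ≤ r) (hr : m * r ≤ ϱ) :
    (1 - 1 / m + StepData.eta r (5 * τ * ϱ) m) * Pf τ ϱ (m - 1) ≤ (1 - 1 / m) * Pf τ ϱ m := by
  have hm0 : 0 < m := by linarith
  have hm1 : 0 < m - 1 := by linarith
  have h1 := eta_le hτ hτ1 hϱ hm hr
  have h0 : 0 ≤ StepData.eta r (5 * τ * ϱ) m := eta_nonneg hr0 (by positivity) hm0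
  set η := StepData.eta r (5 * τ * ϱ) m
  have h2 : 1 / 2 ≤ 1 - 1 / m := by
    have : 1 / m ≤ 1 / 2 := by apply one_div_le_one_div_of_le <;> linarith
    linarith
  have h3 : 1 - 1 / m + η ≤ (1 - 1 / m) * (1 + 2 * η) := by nlinarith
  have h4 : (1 + 2 * η) * Pf τ ϱ (m - 1) ≤ Pf τ ϱ m := by
    unfold Pf
    set u := 4 * (10 + 5 * ϱ) * √(τ * (m - 1)) + 24 * ϱ * (1 - 1 / (m - 1)) with hu
    set v := 4 * (10 + 5 * ϱ) * √(τ * m) + 24 * ϱ * (1 - 1 / m) with hv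
    have e1 : 2 * η ≤ v - u := by
      have e2 := sqrt_step hτ hm
      have e3 : 1 / m ^ 2 ≤ 1 / (m - 1) - 1 / m := by
        have : 1 / (m - 1) - 1 / m = 1 / ((m - 1) * m) := by field_simp; ring
        rw [this]
        apply one_div_le_one_div_of_le (by positivity); nlinarith
      have e4 : 12 * ϱ / m ^ 2 = 12 * ϱ * (1 / m ^ 2) := by ring
      rw [e4] at h1
      have e5 : 24 * ϱ * (1 / m ^ 2) ≤ 24 * ϱ * (1 / (m - 1) - 1 / m) :=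
        mul_le_mul_of_nonneg_left e3 (by positivity)
      have e6 : 4 * (10 + 5 * ϱ) * (√(τ * (m - 1)) + √(τ / m) / 2) ≤
          4 * (10 + 5 * ϱ) * √(τ * m) := mul_le_mul_of_nonneg_left e2 (by positivity)
      rw [hu, hv]; nlinarith
    have e2 : 1 + 2 * η ≤ Real.exp (v - u) := by
      have := Real.add_one_le_exp (v - u); linarith
    calc (1 + 2 * η) * Real.exp u ≤ Real.exp (v - u) * Real.exp u :=
          mul_le_mul_of_nonneg_right e2 (Real.exp_pos u).le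
      _ = Real.exp v := by rw [← Real.exp_add]; congr 1; ring
  have h5 : 0 < Pf τ ϱ (m - 1) := Real.exp_pos _
  calc (1 - 1 / m + η) * Pf τ ϱ (m - 1) ≤ ((1 - 1 / m) * (1 + 2 * η)) * Pf τ ϱ (m - 1) :=
        mul_le_mul_of_nonneg_right h3 h5.le
    _ = (1 - 1 / m) * ((1 + 2 * η) * Pf τ ϱ (m - 1)) := by ring
    _ ≤ _ := mul_le_mul_of_nonneg_left h4 (by linarith)

theorem log_step {m : ℝ} (hm : 2 ≤ m) : 1 / m ≤ Real.log m - Real.log (m - 1) := by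
  have hm0 : 0 < m := by linarith
  have hm1 : 0 < m - 1 := by linarith
  have h1 := Real.log_le_sub_one_of_pos (x := (m - 1) / m) (by positivity)
  rw [Real.log_div hm1.ne' hm0.ne'] at h1
  have h2 : (m - 1) / m - 1 = - (1 / m) := by field_simp; ring
  rw [h2] at h1
  linarith

/-- The coefficient of `X²`. -/
noncomputable def Gf (τ ϱ m : ℝ) : ℝ := Pf τ ϱ m * Real.log m / m

/-- The coefficient of `X`. -/
noncomputable def Lf (τ ϱ l0 m : ℝ) : ℝ := Pf τ ϱ m * (l0 + 2 * ϱ * Real.log m) / m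

theorem Gf_nonneg {τ ϱ m : ℝ} (hm : 1 ≤ m) : 0 ≤ Gf τ ϱ m := by
  unfold Gf
  have := Real.log_nonneg hm
  have : 0 < Pf τ ϱ m := Real.exp_pos _
  positivity

theorem Lf_nonneg {τ ϱ l0 m : ℝ} (hϱ : 0 ≤ ϱ) (hl : 0 ≤ l0) (hm : 1 ≤ m) :
    0 ≤ Lf τ ϱ l0 m := by
  unfold Lf
  have := Real.log_nonneg hm
  have : 0 < Pf τ ϱ m := Real.exp_pos _
  positivity

theorem Gf_step {τ ϱ r m : ℝ} (hτ : 0 ≤ τ) (hτ1 : τ ≤ 1 / 64) (hϱ : 1 ≤ ϱ) (hm : 2 ≤ m)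
    (hr0 : 0 ≤ r) (hr : m * r ≤ ϱ) :
    1 / m ^ 2 + (1 - 1 / m + StepData.eta r (5 * τ * ϱ) m) * Gf τ ϱ (m - 1) ≤ Gf τ ϱ m := by
  have hm0 : 0 < m := by linarith
  have hm1 : 0 < m - 1 := by linarith
  have h1 := Pf_step hτ hτ1 hϱ hm hr0 hr
  have h2 := log_step hm
  have h3 := one_le_Pf (τ := τ) (by linarith : 0 ≤ ϱ) (by linarith : 1 ≤ m)
  have h4 : 0 ≤ Real.log (m - 1) := Real.log_nonneg (by linarith)
  unfold Gf
  calc 1 / m ^ 2 + (1 - 1 / m + StepData.eta r (5 * τ * ϱ) m) *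
        (Pf τ ϱ (m - 1) * Real.log (m - 1) / (m - 1))
      = 1 / m ^ 2 + ((1 - 1 / m + StepData.eta r (5 * τ * ϱ) m) * Pf τ ϱ (m - 1)) *
        (Real.log (m - 1) / (m - 1)) := by ring
    _ ≤ 1 / m ^ 2 + ((1 - 1 / m) * Pf τ ϱ m) * (Real.log (m - 1) / (m - 1)) := by
        have := mul_le_mul_of_nonneg_right h1 (div_nonneg h4 hm1.le)
        linarith
    _ = (1 / m + Pf τ ϱ m * Real.log (m - 1)) / m := by field_simp
    _ ≤ Pf τ ϱ m * Real.log m / m := by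
        apply div_le_div_of_nonneg_right _ hm0.le
        have h5 : 1 / m ≤ Pf τ ϱ m * (1 / m) := by
          have : 0 ≤ 1 / m := by positivity
          nlinarith
        have h6 : Pf τ ϱ m * (1 / m) ≤ Pf τ ϱ m * (Real.log m - Real.log (m - 1)) :=
          mul_le_mul_of_nonneg_left h2 (by linarith)
        linarith

theorem Lf_step {τ ϱ r m l0 : ℝ} (hτ : 0 ≤ τ) (hτ1 : τ ≤ 1 / 64) (hϱ : 1 ≤ ϱ) (hm : 2 ≤ m)
    (hr0 : 0 ≤ r) (hr : m * r ≤ ϱ) (hl : 0 ≤ l0) :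
    2 * r / m + (1 - 1 / m + StepData.eta r (5 * τ * ϱ) m) * Lf τ ϱ l0 (m - 1) ≤
      Lf τ ϱ l0 m := by
  have hm0 : 0 < m := by linarith
  have hm1 : 0 < m - 1 := by linarith
  have h1 := Pf_step hτ hτ1 hϱ hm hr0 hr
  have h2 := log_step hm
  have h3 := one_le_Pf (τ := τ) (by linarith : 0 ≤ ϱ) (by linarith : 1 ≤ m)
  have h4 : 0 ≤ l0 + 2 * ϱ * Real.log (m - 1) := by
    have := Real.log_nonneg (x := m - 1) (by linarith); positivity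
  unfold Lf
  calc 2 * r / m + (1 - 1 / m + StepData.eta r (5 * τ * ϱ) m) *
        (Pf τ ϱ (m - 1) * (l0 + 2 * ϱ * Real.log (m - 1)) / (m - 1))
      = 2 * r / m + ((1 - 1 / m + StepData.eta r (5 * τ * ϱ) m) * Pf τ ϱ (m - 1)) *
        ((l0 + 2 * ϱ * Real.log (m - 1)) / (m - 1)) := by ring
    _ ≤ 2 * r / m + ((1 - 1 / m) * Pf τ ϱ m) * ((l0 + 2 * ϱ * Real.log (m - 1)) / (m - 1)) := by
        have := mul_le_mul_of_nonneg_right h1 (div_nonneg h4 hm1.le)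
        linarith
    _ = (2 * r + Pf τ ϱ m * (l0 + 2 * ϱ * Real.log (m - 1))) / m := by field_simp
    _ ≤ Pf τ ϱ m * (l0 + 2 * ϱ * Real.log m) / m := by
        apply div_le_div_of_nonneg_right _ hm0.le
        have h5 : 2 * r ≤ 2 * ϱ * (1 / m) := by
          rw [mul_one_div, le_div_iff₀ hm0]; linarith
        have h6 : 2 * ϱ * (1 / m) ≤ 2 * ϱ * (Real.log m - Real.log (m - 1)) :=
          mul_le_mul_of_nonneg_left h2 (by positivity)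
        have h7 : 2 * ϱ * (Real.log m - Real.log (m - 1)) ≤
            Pf τ ϱ m * (2 * ϱ * (Real.log m - Real.log (m - 1))) := by
          have : 0 ≤ 2 * ϱ * (Real.log m - Real.log (m - 1)) := by
            have : 0 ≤ 1 / m := by positivity
            exact mul_nonneg (by positivity) (by linarith)
          nlinarith
        linarith

/-- The coefficient of the exponential. -/
noncomputable def Xf (ω ϱ c2 m : ℝ) : ℝ :=
  2 * Real.exp (4 * ω * ϱ * Real.log m + 4 * c2 * ω ^ 2 * m)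

theorem two_le_Xf {ω ϱ c2 m : ℝ} (hω : 0 ≤ ω) (hϱ : 0 ≤ ϱ) (hc : 0 ≤ c2) (hm : 1 ≤ m) :
    2 ≤ Xf ω ϱ c2 m := by
  unfold Xf
  have := Real.log_nonneg hm
  have : 1 ≤ Real.exp (4 * ω * ϱ * Real.log m + 4 * c2 * ω ^ 2 * m) :=
    Real.one_le_exp (by positivity)
  linarith

theorem Xf_step {ω ϱ c2 r m : ℝ} (hω : 0 ≤ ω) (hϱ : 0 ≤ ϱ) (hm : 2 ≤ m)
    (hr : m * r ≤ ϱ) :
    (1 + 4 * ω * r + 4 * c2 * ω ^ 2) * Xf ω ϱ c2 (m - 1) ≤ Xf ω ϱ c2 m := by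
  have hm0 : 0 < m := by linarith
  unfold Xf
  set u := 4 * ω * ϱ * Real.log (m - 1) + 4 * c2 * ω ^ 2 * (m - 1) with hu
  set v := 4 * ω * ϱ * Real.log m + 4 * c2 * ω ^ 2 * m with hv
  have h2 := log_step hm
  have e1 : 4 * ω * r + 4 * c2 * ω ^ 2 ≤ v - u := by
    have h5 : r ≤ ϱ * (1 / m) := by rw [mul_one_div, le_div_iff₀ hm0]; linarith
    have h6 : ϱ * (1 / m) ≤ ϱ * (Real.log m - Real.log (m - 1)) :=
      mul_le_mul_of_nonneg_left h2 hϱ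
    have h7 : 4 * ω * r ≤ 4 * ω * (ϱ * (Real.log m - Real.log (m - 1))) :=
      mul_le_mul_of_nonneg_left (h5.trans h6) (by positivity)
    rw [hu, hv]; linarith
  have e2 : 1 + 4 * ω * r + 4 * c2 * ω ^ 2 ≤ Real.exp (v - u) := by
    have := Real.add_one_le_exp (v - u); linarith
  calc (1 + 4 * ω * r + 4 * c2 * ω ^ 2) * (2 * Real.exp u)
      ≤ Real.exp (v - u) * (2 * Real.exp u) :=
        mul_le_mul_of_nonneg_right e2 (by positivity)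
    _ = 2 * (Real.exp (v - u) * Real.exp u) := by ring
    _ = 2 * Real.exp v := by rw [← Real.exp_add]; congr 2; ring

/-- The bounding function of one pair. -/
noncomputable def wf (lam θ σ τ ϱ l0 : ℝ) (m z X : ℝ) : ℝ :=
  2 * (psi σ z + lam ^ 2 * (2 + ϱ ^ 2 / 4) / (4 * σ) * Gf τ ϱ m * X ^ 2 +
    lam * Lf τ ϱ l0 m * X) +
  Real.exp (-θ) * Xf ((1 + θ) * lam * τ ^ 2) ϱ (2 + ϱ ^ 2 / 4) m * Real.exp ((1 + θ) * z)

variable {Q : Type*} {A : Finset Q} {α β : Q → ℝ} {X R r τ : ℝ} {R' X' : Q → Q → ℝ}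

theorem wf_step {lam θ σ ϱ l0 : ℝ} (D : StepData A α β X R r (5 * τ * ϱ) τ R' X')
    (hlam : 0 ≤ lam) (hθ : 0 ≤ θ) (hσ : 0 < σ) (hτ1 : τ ≤ 1 / 64) (hϱ : 1 ≤ ϱ)
    (hr : A.card * r ≤ ϱ) (hl : 0 ≤ l0) (hω : 4 * ((1 + θ) * lam * τ ^ 2) ≤ 1)
    (hm : 32 ≤ A.card) (z : ℝ) :
    ∑ a ∈ A, ∑ b ∈ A, wf lam θ σ τ ϱ l0 (A.card - 1) (z + lam * (R' a b - R)) (X' a b) ≤
      (A.card : ℝ) ^ 2 * wf lam θ σ τ ϱ l0 A.card z X := by
  have hτ := D.τ0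
  have hX := D.X_nonneg
  have hr0 := D.r0
  have hm32 : (32 : ℝ) ≤ (A.card : ℝ) := by exact_mod_cast hm
  have q1 := D.sum_X'
  have q2 := D.sum_X'2
  have q3 := D.sum_R'
  have q4 := D.sum_R'2
  have q5 := D.X_le
  have q6 : ∀ a ∈ A, ∀ b ∈ A, |R' a b - R| ≤ 4 * τ ^ 2 := fun a ha b hb => D.abs_R' ha hb
  set m : ℝ := (A.card : ℝ) with hmdef
  set c2 := 2 + ϱ ^ 2 / 4 with hc2
  set ω := (1 + θ) * lam * τ ^ 2 with hωd
  have hm2 : 2 ≤ m := by linarith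
  have hm0 : 0 < m := by linarith
  have hω0 : 0 ≤ ω := by positivity
  have hG := Gf_step hτ hτ1 hϱ hm2 hr0 hr
  have hL := Lf_step (l0 := l0) hτ hτ1 hϱ hm2 hr0 hr hl
  have hXi := Xf_step (c2 := c2) hω0 (by linarith) hm2 hr
  have hG0 := Gf_nonneg (τ := τ) (ϱ := ϱ) (m := m - 1) (by linarith)
  have hL0 := Lf_nonneg (τ := τ) (ϱ := ϱ) (l0 := l0) (m := m - 1) (by linarith) hl (by linarith)
  set η := StepData.eta r (5 * τ * ϱ) m
  -- quadratic bound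
  have hq : 2 * X ^ 2 + 8 * r ^ 2 * (m * X ^ 2) ≤ c2 * X ^ 2 := by
    have e1 : 8 * r ^ 2 * m ≤ ϱ ^ 2 / 4 := by
      have e2 : (m * r) ^ 2 ≤ ϱ ^ 2 := pow_le_pow_left₀ (by positivity) hr 2
      have e3 : 32 * (r ^ 2 * m) ≤ m * (r ^ 2 * m) :=
        mul_le_mul_of_nonneg_right hm32 (by positivity)
      nlinarith
    rw [hc2]; nlinarith [sq_nonneg X]
  have q4' : ∑ a ∈ A, ∑ b ∈ A, (R' a b - R) ^ 2 ≤ c2 * X ^ 2 := q4.trans hq
  -- the four parts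
  have p1 : ∑ a ∈ A, ∑ b ∈ A, psi σ (z + lam * (R' a b - R)) ≤
      m ^ 2 * psi σ z + lam * (2 * r * (m * X)) + lam ^ 2 / (4 * σ) * (c2 * X ^ 2) := by
    have e1 : ∑ a ∈ A, ∑ b ∈ A, psi σ (z + lam * (R' a b - R)) ≤
        ∑ a ∈ A, ∑ b ∈ A, (psi σ z + 0 + (slope σ z * lam) * (R' a b - R) +
          (lam ^ 2 / (4 * σ)) * (R' a b - R) ^ 2) := by
      refine sum_le_sum fun a _ => sum_le_sum fun b _ => ?_
      refine (psi_add_le hσ z (lam * (R' a b - R))).trans (le_of_eq ?_)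
      ring
    rw [dsum_lin A (psi σ z) (slope σ z * lam) (lam ^ 2 / (4 * σ)) (fun _ _ => 0)
      (fun a b => R' a b - R) (fun a b => (R' a b - R) ^ 2)] at e1
    simp only [sum_const_zero, add_zero] at e1
    have e2 := slope_mem hσ z
    have e3 : (slope σ z * lam) * ∑ a ∈ A, ∑ b ∈ A, (R' a b - R) ≤ lam * (2 * r * (m * X)) := by
      have e4 : 0 ≤ 2 * r * (m * X) := by positivity
      calc (slope σ z * lam) * ∑ a ∈ A, ∑ b ∈ A, (R' a b - R)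
          ≤ (slope σ z * lam) * (2 * r * (m * X)) :=
            mul_le_mul_of_nonneg_left q3 (mul_nonneg e2.1 hlam)
        _ = slope σ z * (lam * (2 * r * (m * X))) := by ring
        _ ≤ 1 * (lam * (2 * r * (m * X))) :=
            mul_le_mul_of_nonneg_right e2.2 (by positivity)
        _ = _ := one_mul _
    have e4 : (lam ^ 2 / (4 * σ)) * ∑ a ∈ A, ∑ b ∈ A, (R' a b - R) ^ 2 ≤
        lam ^ 2 / (4 * σ) * (c2 * X ^ 2) := mul_le_mul_of_nonneg_left q4' (by positivity)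
    linarith
  have p4 : ∑ a ∈ A, ∑ b ∈ A, Real.exp ((1 + θ) * (z + lam * (R' a b - R))) ≤
      Real.exp ((1 + θ) * z) * (m ^ 2 * (1 + 4 * ω * r + 4 * c2 * ω ^ 2)) := by
    have e1 : ∑ a ∈ A, ∑ b ∈ A, Real.exp ((1 + θ) * (z + lam * (R' a b - R))) ≤
        Real.exp ((1 + θ) * z) * ∑ a ∈ A, ∑ b ∈ A, (1 + 0 + ((1 + θ) * lam) * (R' a b - R) +
          ((1 + θ) * lam) ^ 2 * (R' a b - R) ^ 2) := by
      rw [mul_sum]
      refine sum_le_sum fun a ha => ?_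
      rw [mul_sum]
      refine sum_le_sum fun b hb => ?_
      have e2 : (1 + θ) * (z + lam * (R' a b - R)) = (1 + θ) * z + (1 + θ) * lam * (R' a b - R) := by
        ring
      rw [e2, Real.exp_add]
      apply mul_le_mul_of_nonneg_left _ (Real.exp_pos _).le
      have e3 : |(1 + θ) * lam * (R' a b - R)| ≤ 1 := by
        rw [abs_mul, abs_of_nonneg (by positivity : 0 ≤ (1 + θ) * lam)]
        calc (1 + θ) * lam * |R' a b - R| ≤ (1 + θ) * lam * (4 * τ ^ 2) :=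
              mul_le_mul_of_nonneg_left (q6 a ha b hb) (by positivity)
          _ = 4 * ω := by rw [hωd]; ring
          _ ≤ 1 := hω
      refine (exp_le_quad e3).trans (le_of_eq ?_)
      ring
    rw [dsum_lin A 1 ((1 + θ) * lam) (((1 + θ) * lam) ^ 2) (fun _ _ => 0)
      (fun a b => R' a b - R) (fun a b => (R' a b - R) ^ 2)] at e1
    simp only [sum_const_zero, add_zero] at e1
    refine e1.trans (mul_le_mul_of_nonneg_left ?_ (Real.exp_pos _).le)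
    have e2 : ((1 + θ) * lam) * ∑ a ∈ A, ∑ b ∈ A, (R' a b - R) ≤ m ^ 2 * (4 * ω * r) := by
      calc ((1 + θ) * lam) * ∑ a ∈ A, ∑ b ∈ A, (R' a b - R)
          ≤ ((1 + θ) * lam) * (2 * r * (m * X)) := mul_le_mul_of_nonneg_left q3 (by positivity)
        _ ≤ ((1 + θ) * lam) * (2 * r * (m * (2 * m * τ ^ 2))) := by gcongr
        _ = m ^ 2 * (4 * ω * r) := by rw [hωd]; ring
    have e3 : ((1 + θ) * lam) ^ 2 * ∑ a ∈ A, ∑ b ∈ A, (R' a b - R) ^ 2 ≤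
        m ^ 2 * (4 * c2 * ω ^ 2) := by
      calc ((1 + θ) * lam) ^ 2 * ∑ a ∈ A, ∑ b ∈ A, (R' a b - R) ^ 2
          ≤ ((1 + θ) * lam) ^ 2 * (c2 * X ^ 2) := mul_le_mul_of_nonneg_left q4' (by positivity)
        _ ≤ ((1 + θ) * lam) ^ 2 * (c2 * (2 * m * τ ^ 2) ^ 2) := by gcongr
        _ = m ^ 2 * (4 * c2 * ω ^ 2) := by rw [hωd]; ring
    linarith
  -- assembly
  have hexp : ∑ a ∈ A, ∑ b ∈ A, wf lam θ σ τ ϱ l0 (m - 1) (z + lam * (R' a b - R)) (X' a b) =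
      2 * ∑ a ∈ A, ∑ b ∈ A, psi σ (z + lam * (R' a b - R)) +
      2 * (lam ^ 2 * c2 / (4 * σ) * Gf τ ϱ (m - 1)) * ∑ a ∈ A, ∑ b ∈ A, X' a b ^ 2 +
      2 * (lam * Lf τ ϱ l0 (m - 1)) * ∑ a ∈ A, ∑ b ∈ A, X' a b +
      Real.exp (-θ) * Xf ω ϱ c2 (m - 1) *
        ∑ a ∈ A, ∑ b ∈ A, Real.exp ((1 + θ) * (z + lam * (R' a b - R))) := by
    unfold wf
    simp only [mul_sum, ← sum_add_distrib]
    refine sum_congr rfl fun a _ => sum_congr rfl fun b _ => ?_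
    rw [← hc2, ← hωd]; ring
  rw [hexp]
  have hXf0 : 0 < Xf ω ϱ c2 (m - 1) := by unfold Xf; positivity
  have f2 : 2 * (lam ^ 2 * c2 / (4 * σ) * Gf τ ϱ (m - 1)) * ∑ a ∈ A, ∑ b ∈ A, X' a b ^ 2 ≤
      2 * (lam ^ 2 * c2 / (4 * σ) * Gf τ ϱ (m - 1)) * (m ^ 2 * (X ^ 2 * (1 - 1 / m + η))) :=
    mul_le_mul_of_nonneg_left q2 (by positivity)
  have f3 : 2 * (lam * Lf τ ϱ l0 (m - 1)) * ∑ a ∈ A, ∑ b ∈ A, X' a b ≤
      2 * (lam * Lf τ ϱ l0 (m - 1)) * (m ^ 2 * (X * (1 - 1 / m + η))) :=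
    mul_le_mul_of_nonneg_left q1 (by positivity)
  have f4 : Real.exp (-θ) * Xf ω ϱ c2 (m - 1) *
        ∑ a ∈ A, ∑ b ∈ A, Real.exp ((1 + θ) * (z + lam * (R' a b - R))) ≤
      Real.exp (-θ) * Xf ω ϱ c2 (m - 1) *
        (Real.exp ((1 + θ) * z) * (m ^ 2 * (1 + 4 * ω * r + 4 * c2 * ω ^ 2))) :=
    mul_le_mul_of_nonneg_left p4 (by positivity)
  have g2 : m ^ 2 * (lam ^ 2 * c2 / (4 * σ) * X ^ 2) * (1 / m ^ 2 +
      (1 - 1 / m + η) * Gf τ ϱ (m - 1)) ≤ m ^ 2 * (lam ^ 2 * c2 / (4 * σ) * X ^ 2) * Gf τ ϱ m :=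
    mul_le_mul_of_nonneg_left hG (by positivity)
  have g3 : m ^ 2 * (lam * X) * (2 * r / m + (1 - 1 / m + η) * Lf τ ϱ l0 (m - 1)) ≤
      m ^ 2 * (lam * X) * Lf τ ϱ l0 m := mul_le_mul_of_nonneg_left hL (by positivity)
  have g4 : (Real.exp (-θ) * Real.exp ((1 + θ) * z) * m ^ 2) *
      ((1 + 4 * ω * r + 4 * c2 * ω ^ 2) * Xf ω ϱ c2 (m - 1)) ≤
      (Real.exp (-θ) * Real.exp ((1 + θ) * z) * m ^ 2) * Xf ω ϱ c2 m :=
    mul_le_mul_of_nonneg_left hXi (by positivity)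
  have k2 : m ^ 2 * (lam ^ 2 * c2 / (4 * σ) * X ^ 2) * (1 / m ^ 2) =
      lam ^ 2 / (4 * σ) * (c2 * X ^ 2) := by field_simp
  have k3 : m ^ 2 * (lam * X) * (2 * r / m) = lam * (2 * r * (m * X)) := by field_simp
  rw [mul_add, k2] at g2
  rw [mul_add, k3] at g3
  have hfin : (m : ℝ) ^ 2 * wf lam θ σ τ ϱ l0 m z X = 2 * (m ^ 2 * psi σ z) +
      2 * (m ^ 2 * (lam ^ 2 * c2 / (4 * σ) * X ^ 2) * Gf τ ϱ m) +
      2 * (m ^ 2 * (lam * X) * Lf τ ϱ l0 m) +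
      (Real.exp (-θ) * Real.exp ((1 + θ) * z) * m ^ 2) * Xf ω ϱ c2 m := by
    unfold wf; rw [← hc2, ← hωd]; ring
  rw [hfin]
  linarith

end Pool.Agent.PL.SD
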